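import Pool.Agent.Lib.RYA.Blue
import Pool.Agent.Lib.RY.B_GIBP
import Pool.Agent.Lib.RY.B_TOP
import Pool.Agent.Lib.RY.B_CH2
import Pool.Agent.Lib.RA.T_GLA
import Pool.Agent.Lib.RY.K_At

/-! Project ra2, step A: integration by parts on the set of maximal rank. -/

open scoped Classical Topology ContDiff ComplexOrder Matrix
open Set MeasureTheory Complex Filter

noncomputable section

namespace Pool.Agent.Lib.RAA

open Pool.Agent.Lib.SV (E)
open Pool.Agent.Lib.HS32 Pool.Agent.Lib.HS32.Mf Pool.Agent.Lib.RA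

namespace A5

theorem fatou {X : Type} [MeasurableSpace X] {μ : Measure X} {F : X → ℝ} {f : ℕ → X → ℝ}
    {b : ℕ → ℝ} {B : ℝ} (hm : ∀ k, AEMeasurable (f k) μ)
    (ht : ∀ᵐ x ∂μ, Tendsto (f · x) atTop (𝓝 (F x)))
    (hb : ∀ k, ∫⁻ x, ENNReal.ofReal (f k x) ∂μ ≤ ENNReal.ofReal (b k))
    (hB : Tendsto b atTop (𝓝 B)) : ∫⁻ x, ENNReal.ofReal (F x) ∂μ ≤ ENNReal.ofReal B := by
  rw [lintegral_congr_ae (ht.mono fun x h => (ENNReal.tendsto_ofReal h).liminf_eq.symm),
    ← (ENNReal.tendsto_ofReal hB).liminf_eq]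
  exact (lintegral_liminf_le' fun k => (hm k).ennreal_ofReal).trans
    (liminf_le_liminf (Eventually.of_forall hb))

theorem cut : ∃ B : ℝ, ∀ κ L : ℝ, 0 < κ → κ ≤ 1 →
    |deriv Real.smoothTransition (2 + κ * L)| * κ * (1 + |L|) ≤ B ∧
    |deriv (deriv Real.smoothTransition) (2 + κ * L)| * κ ^ 2 * (1 + |L|) ≤ B := by
  have c : ContDiff ℝ ∞ (deriv Real.smoothTransition) :=
    (contDiff_infty_iff_deriv.1 Real.smoothTransition.contDiff).2
  have h1 : ∀ s ∉ Icc (0 : ℝ) 1, deriv Real.smoothTransition s = 0 := fun s hs => by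
    rcases not_and_or.1 hs with h | h
    · rw [(show _ =ᶠ[𝓝 s] fun _ => (0 : ℝ) from (gt_mem_nhds (not_le.1 h)).mono fun t ht =>
        Real.smoothTransition.zero_of_nonpos ht.le).deriv_eq, deriv_const]
    · rw [(show _ =ᶠ[𝓝 s] fun _ => (1 : ℝ) from (lt_mem_nhds (not_le.1 h)).mono fun t ht =>
        Real.smoothTransition.one_of_one_le ht.le).deriv_eq, deriv_const]
  have h2 : ∀ s ∉ Icc (0 : ℝ) 1, deriv (deriv Real.smoothTransition) s = 0 := fun s hs => by
    rw [(show _ =ᶠ[𝓝 s] fun _ => (0 : ℝ) from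
      (isClosed_Icc.isOpen_compl.eventually_mem hs).mono h1).deriv_eq, deriv_const]
  obtain ⟨A, hA⟩ := (isCompact_Icc (a := (0 : ℝ)) (b := 1)).exists_bound_of_continuousOn
    (c.continuous.prodMk (c.continuous_deriv (by simp))).continuousOn
  have hA0 := (norm_nonneg _).trans (hA 0 (by simp))
  refine ⟨A * 3, fun κ L h0 hκ => ?_⟩
  by_cases hs : 2 + κ * L ∈ Icc (0 : ℝ) 1
  · obtain ⟨a1, a2⟩ := norm_prod_le_iff.1 (hA _ hs)
    have k1 : κ * (1 + |L|) ≤ 3 := by
      have : κ * |L| ≤ 2 := by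
        rw [← abs_of_pos h0, ← abs_mul, abs_le]
        constructor <;> linarith [hs.1, hs.2]
      linarith
    have k0 : 0 ≤ κ * (1 + |L|) := by positivity
    rw [mul_assoc, mul_assoc, sq, mul_assoc]
    exact ⟨mul_le_mul a1 k1 k0 hA0, mul_le_mul a2 (by nlinarith) (by positivity) hA0⟩
  · rw [h1 _ hs, h2 _ hs]
    simpa using hA0

theorem est {B κ L C K a p q w d d' : ℝ} (ha : 0 < a) (hp : |p| ≤ K * a) (hq : |q| ≤ K * a ^ 2)
    (hw : |w| ≤ C * (1 + |L|)) (hκ : 0 ≤ κ) (h : |d| * κ * (1 + |L|) ≤ B)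
    (h' : |d'| * κ ^ 2 * (1 + |L|) ≤ B) :
    |w * (d * (κ * a⁻¹) * p + (d' * (κ * a⁻¹) * (κ * a⁻¹) + d * (κ * -(a ^ 2)⁻¹)) * q)| ≤
      |C * K * (3 * B)| := by
  have l : 0 < 1 + |L| := by positivity
  have hC : 0 ≤ C := nonneg_of_mul_nonneg_left ((abs_nonneg _).trans hw) l
  have hK : 0 ≤ K := nonneg_of_mul_nonneg_left ((abs_nonneg _).trans hp) ha
  have p1 : |p / a| ≤ K := by rwa [abs_div, abs_of_pos ha, div_le_iff₀ ha]
  have q1 : |q / a ^ 2| ≤ K := by rwa [abs_div, abs_of_pos (pow_pos ha 2), div_le_iff₀ (pow_pos ha 2)]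
  have e : d * (κ * a⁻¹) * p + (d' * (κ * a⁻¹) * (κ * a⁻¹) + d * (κ * -(a ^ 2)⁻¹)) * q =
      d * κ * (p / a) + d' * κ ^ 2 * (q / a ^ 2) - d * κ * (q / a ^ 2) := by field_simp; ring
  have b : |d * κ * (p / a) + d' * κ ^ 2 * (q / a ^ 2) - d * κ * (q / a ^ 2)| ≤
      |d| * κ * K + |d'| * κ ^ 2 * K + |d| * κ * K := by
    refine (abs_sub _ _).trans (add_le_add ((abs_add_le _ _).trans (add_le_add ?_ ?_)) ?_) <;>
      simp only [abs_mul, abs_pow, abs_of_nonneg hκ] <;> gcongr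
  rw [e, abs_mul]
  refine (mul_le_mul hw b (abs_nonneg _) (by positivity)).trans (le_trans ?_ (le_abs_self _))
  nlinarith [mul_le_mul_of_nonneg_left h (mul_nonneg hC hK),
    mul_le_mul_of_nonneg_left h' (mul_nonneg hC hK)]

variable {n r : ℕ} {M : Mf n} {G A T T' : M.Fam (Mat n)} {φ : M.Fam ℝ} {x : M.X}

theorem pa_add (c : ℝ) : pa M G A (T + c • T') x = pa M G A T x + c * pa M G A T' x := by
  simp only [pa, Mf.ev, Pi.add_apply, Pi.smul_apply, BLAP.rs, Matrix.mul_add, Matrix.trace_add,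
    Matrix.mul_smul, Matrix.trace_smul, smul_eq_mul, add_div, mul_div_assoc, add_re, re_ofReal_mul]

theorem pa_comp {u : M.X → ℝ} {ψ ψ' : ℝ → ℝ} {c : ℝ} (hu : SmAt M u x)
    (h : ∀ᶠ t in 𝓝 (u x), HasDerivAt ψ (ψ' t) t) (h' : HasDerivAt ψ' c (u x)) :
    pa M G A (M.hs fun y => ψ (u y)) x =
      ψ' (u x) * pa M G A (M.hs u) x + c * pa M G A (M.ds u u) x := by
  have s := KA.at_ch hu
  have d := BLAP.ev_diff s
  have hx : (u ∘ (M.ch x).symm) (M.ch x x) = u x := congrArg u (ch_symm x)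
  rw [← hx] at h h'
  have e : M.ev (M.hs fun y => ψ (u y)) x =
      (ψ' (u x) : ℂ) • M.ev (M.hs u) x + (c : ℂ) • M.ev (M.ds u u) x := by
    ext i j
    have := dzb_congr (j := i) ((d.and (s.continuousAt.eventually h)).mono fun w hw =>
      dz_comp_real (j := j) hw.2 hw.1)
    refine this.trans ((dzb_mul (f := fun w => (ψ' ((u ∘ (M.ch x).symm) w) : ℂ))
      (ofRealCLM.differentiableAt.comp _ (h'.differentiableAt.comp _ d.self_of_nhds))
      ((cd_dz (cd_ofReal s) j).differentiableAt (by simp))).trans ?_)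
    rw [dzb_comp_real h' d.self_of_nhds, hx, add_comm, mul_assoc]
    rfl
  simp only [pa, e, Matrix.mul_add, Matrix.trace_add,
    Matrix.mul_smul, Matrix.trace_smul, smul_eq_mul, add_div, mul_div_assoc, add_re, re_ofReal_mul]

theorem tq (h : Su M G φ r) (x : M.X) : RA28.Top r (M.ev G x) (M.ev (M.hw φ) x) :=
  RA28.top (h.kae.toMet.ev_pos x) (by simpa [Mf.ev] using AllOn.ch h.psd x) (AllOn.ch h.le x)

theorem mem (h : Su M G φ r) : x ∈ X0 M (M.hw φ) r ↔ tD M r G (M.hw φ) x ≠ 0 :=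
  (tq h x).pos.symm.trans ⟨ne_of_gt, fun q => lt_of_le_of_ne (tq h x).nonneg q.symm⟩

theorem pa_off (h : Su M G φ r) (hx : x ∉ X0 M (M.hw φ) r) : pa M G (tA M r G (M.hw φ)) T x = 0 := by
  obtain ⟨v, -, -, hv⟩ := (tq h x).ker
  have := hv (M.ev T x)
  rw [(tq h x).dA, show RA28.topA r _ _ = 0 from not_not.1 (mt (mem h).2 hx)] at this
  rw [pa, show (M.ev (tA M r G (M.hw φ)) x * M.ev T x).trace = _ from this]
  simp

theorem pa_G (h : Su M G φ r) (x : M.X) :
    pa M G (tA M r G (M.hw φ)) G x = (n - r : ℕ) * tD M r G (M.hw φ) x := by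
  rw [pa, show (M.ev (tA M r G (M.hw φ)) x * M.ev G x).trace = _ from (tq h x).tr, (tq h x).dA,
    ← mul_assoc, mul_div_cancel_right₀ _ (h.kae.toMet.ev_det x)]
  simp [tD]

theorem pa_nn (h : Su M G φ r) (hT : (M.ev T x).PosSemidef) :
    0 ≤ pa M G (tA M r G (M.hw φ)) T x := by
  have g := h.kae.toMet.ev_pos x
  rw [pa, G55.re_div (herm_det g.1)]
  exact div_nonneg (BLAP.tr_nonneg (tq h x).psd hT) (pd_det_re g).le

theorem G_nn (h : Su M G φ r) (x : M.X) : 0 ≤ pa M G (tA M r G (M.hw φ)) G x :=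
  pa_nn h (h.kae.toMet.ev_pos x).posSemidef

theorem den (h : Su M G φ r) (O : Set M.X) (hO : IsOpen O) :
    DenOn M O (tA M r G (M.hw φ)) ∧ ∀ x ∈ O, SmAt M (tD M r G (M.hw φ)) x := by
  have c := h.wt.clo
  obtain ⟨a, -, b⟩ := (st_TOP st_CH2 n 0 r M G O h.kae hO).1 (M.hw φ)
    ⟨fun x _ => KA.at_of_all c.sm x, fun e he e' he' x hx hx' _ => c.cmp e he e' he' x hx hx'⟩
    fun x _ e he hx => ⟨AllOn.at c.herm he hx, AllOn.at c.cl he hx⟩
  exact ⟨a, fun x hx => (b x hx).1⟩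

theorem sm (h : Su M G φ r) : M.Sm (tD M r G (M.hw φ)) :=
  KA.sm_of_smAt fun x => (den h univ isOpen_univ).2 x trivial

theorem op (h : Su M G φ r) : IsOpen (X0 M (M.hw φ) r) := by
  rw [show X0 M (M.hw φ) r = _ from Set.ext fun x => mem h]
  exact isOpen_ne_fun (sm h).continuous continuous_const

theorem bd [M.Cpt] (h : Su M G φ r) : ∃ K : ℝ, ∀ x,
    |pa M G (tA M r G (M.hw φ)) (M.hs (tD M r G (M.hw φ))) x| ≤ K * tD M r G (M.hw φ) x ∧
    |pa M G (tA M r G (M.hw φ)) (M.ds (tD M r G (M.hw φ)) (tD M r G (M.hw φ))) x| ≤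
      K * tD M r G (M.hw φ) x ^ 2 := by
  obtain ⟨C, c0, c1, c2⟩ := (mBD n M G h.kae.toMet).1 _ ((mHES n M).1 _ (sm h)).toForm
  obtain ⟨D, d0, -, d1⟩ := RA.st_GLA n M G _ h.kae.toMet (sm h) fun x => (tq h x).nonneg
  refine ⟨(C + D) * (n - r : ℕ), fun x => ?_⟩
  have a0 : 0 ≤ tD M r G (M.hw φ) x := (tq h x).nonneg
  have g := pa_G h x
  have g0 := G_nn h x
  have e1 := pa_nn h (T := M.hs (tD M r G (M.hw φ)) + C • G) (x := x)
    (by simpa [Mf.ev] using AllOn.ch c2 x)
  have e2 := pa_nn h (T := (0 + C • G) + (-1 : ℝ) • M.hs (tD M r G (M.hw φ))) (x := x)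
    (by simpa [Mf.ev, sub_eq_add_neg] using AllOn.ch c1 x)
  have e3 := pa_nn h (T := M.ds (tD M r G (M.hw φ)) (tD M r G (M.hw φ))) (x := x)
    (by simpa [Mf.ev] using AllOn.ch ((mHES n M).2.2.1 _ (sm h)).2 x)
  have e4 := pa_nn h (T := (0 + (D * tD M r G (M.hw φ) x) • G) +
    (-1 : ℝ) • M.ds (tD M r G (M.hw φ)) (tD M r G (M.hw φ))) (x := x)
    (by simpa [Mf.ev, sub_eq_add_neg, ch_symm] using AllOn.ch d1 x)
  have z : pa M G (tA M r G (M.hw φ)) 0 x = 0 := by simp [pa, Mf.ev]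
  simp only [pa_add, z] at e1 e2 e4
  rw [abs_le, abs_of_nonneg e3, mul_assoc, ← g, sq, ← mul_assoc, mul_assoc (C + D), ← g]
  refine ⟨⟨?_, ?_⟩, ?_⟩ <;> nlinarith [mul_nonneg g0 a0, mul_nonneg d0.le g0]

theorem cG (h : Su M G φ r) : Continuous (pa M G (tA M r G (M.hw φ)) G) := by
  rw [funext (pa_G h)]
  exact continuous_const.mul (sm h).continuous

/-- The cut-off. -/
def ct (a : M.X → ℝ) (κ : ℝ) (x : M.X) : ℝ :=
  if a x = 0 then 0 else Real.smoothTransition (2 + κ * Real.log (a x))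

theorem ct_ev {a : M.X → ℝ} (ha : Continuous a) (κ : ℝ) (hx : a x ≠ 0) :
    ct a κ =ᶠ[𝓝 x] fun y => Real.smoothTransition (2 + κ * Real.log (a y)) :=
  (ha.continuousAt.eventually_ne hx).mono fun _ hy => if_neg hy

theorem ct_ts {a : M.X → ℝ} (ha : Continuous a) (h0 : ∀ x, 0 ≤ a x) {κ : ℝ} (hκ : 0 < κ) :
    tsupport (ct a κ) ⊆ {x | a x ≠ 0} := by
  refine (closure_minimal (t := {x | Real.exp (-2 / κ) ≤ a x}) (fun y hy => ?_)
    (isClosed_le continuous_const ha)).trans fun y hy => ((Real.exp_pos _).trans_le hy).ne'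
  by_cases q : a y = 0
  · exact absurd (if_pos q) hy
  · have := mt Real.smoothTransition.zero_of_nonpos fun e => hy ((if_neg q).trans e)
    exact (Real.le_log_iff_exp_le ((h0 y).lt_of_ne' q)).1 (by rw [div_le_iff₀ hκ]; linarith)

theorem ct_one {a : M.X → ℝ} (ha : Continuous a) (hx : a x ≠ 0) :
    ∀ᶠ k : ℕ in atTop, ct a (1 / (k + 1)) =ᶠ[𝓝 x] fun _ => 1 := by
  have : Tendsto (fun k : ℕ => 2 + 1 / ((k : ℝ) + 1) * Real.log (a x)) atTop (𝓝 (2 + 0 * _)) :=
    (tendsto_one_div_add_atTop_nhds_zero_nat.mul_const _).const_add _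
  filter_upwards [this.eventually (lt_mem_nhds (show 1 < _ by norm_num))] with k hk
  filter_upwards [ct_ev ha (1 / (k + 1)) hx, (((ha.continuousAt.log hx).const_mul
    (1 / ((k : ℝ) + 1))).const_add 2).eventually (lt_mem_nhds hk)] with y h1 h2
  exact h1.trans (Real.smoothTransition.one_of_one_le h2.le)

theorem pa_congr {u u' : M.X → ℝ} (q : u =ᶠ[𝓝 x] u') :
    pa M G A (M.hs u) x = pa M G A (M.hs u') x := by
  rw [pa, pa, show M.ev (M.hs u) x = M.ev (M.hs u') x from KA.at_ch (KA.hs_congr q)]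

end A5

open A5

theorem st_A5a : St_A5a := fun n r M _ G φ w C C₁ h hC hw h0 => by
  obtain ⟨-, _, -, -, hi, -⟩ := mMU n M G h.kae.toMet
  obtain ⟨B, hB⟩ := cut
  obtain ⟨K, hK⟩ := bd h
  have ca := (sm h).continuous
  have c : ContDiff ℝ ∞ (deriv Real.smoothTransition) :=
    (contDiff_infty_iff_deriv.1 Real.smoothTransition.contDiff).2
  have k0 : ∀ k : ℕ, (0 : ℝ) < 1 / (k + 1) := fun k => by positivity
  set a := tD M r G (M.hw φ) with ha
  set S := tA M r G (M.hw φ)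
  have hs : ∀ κ, ∀ x ∈ X0 M (M.hw φ) r, SmAt M (ct a κ) x := fun κ x hx =>
    KA.smAt_congr (KA.smAt_comp (K := fun t => Real.smoothTransition (2 + κ * Real.log t))
      (Real.smoothTransition.contDiff.contDiffAt.comp _ (contDiffAt_const.add
        (contDiffAt_const.mul (Real.contDiffAt_log.2 ((mem h).1 hx)))))
      (KA.smAt_of_sm (sm h) x)) (ct_ev ca κ ((mem h).1 hx))
  have g := fun (u : M.X → ℝ) (hu : ∀ x ∈ X0 M (M.hw φ) r, SmAt M u x) (k : ℕ) =>
    ((st_GIBP n M G S _ h.kae.toMet (op h) (den h _ (op h)).1).2 u (ct a (1 / (k + 1)))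
      fun x hx => ⟨hu x hx, hs _ x hx⟩).2
      ((ct_ts ca (fun x => (tq h x).nonneg) (k0 k)).trans fun x hx => (mem h).2 hx)
  have c01 : ∀ κ x, 0 ≤ ct a κ x ∧ ct a κ x ≤ 1 := fun κ x => by
    unfold ct
    split_ifs
    exacts [⟨le_rfl, zero_le_one⟩,
      ⟨Real.smoothTransition.nonneg _, Real.smoothTransition.le_one _⟩]
  have ik : ∀ k : ℕ, Integrable (fun x => ct a (1 / (k + 1)) x * pa M G S G x) (M.mu G) :=
    fun k => hi ℝ _ ((continuous_iff_continuousAt.2 fun x => by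
      by_cases hx : a x = 0
      · exact continuousAt_const.congr (G55.off
          (ct_ts ca (fun x => (tq h x).nonneg) (k0 k)) (not_not.2 hx)).symm
      · exact KA.smAt_cont (hs _ x ((mem h).2 hx))).mul (cG h))
  have e : ∀ k : ℕ, (fun x => ct a (1 / (k + 1)) x * pa M G S (M.hs w + C • G) x) = fun x =>
      ct a (1 / (k + 1)) x * pa M G S (M.hs w) x + C * (ct a (1 / (k + 1)) x * pa M G S G x) :=
    fun k => funext fun x => by rw [pa_add]; ring
  have g1 := g w fun x hx => (hw x hx).1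
  have i1 : ∀ k : ℕ, Integrable
      (fun x => ct a (1 / (k + 1)) x * pa M G S (M.hs w + C • G) x) (M.mu G) := fun k => by
    rw [e]; exact (g1 k).1.add ((ik k).const_mul C)
  have lim : Tendsto (fun k : ℕ => ∫ x, w x * pa M G S (M.hs (ct a (1 / (k + 1)))) x ∂M.mu G)
      atTop (𝓝 (∫ _, 0 ∂M.mu G)) := by
    refine tendsto_integral_of_dominated_convergence (fun _ => |C₁ * K * (3 * B)|)
      (fun k => (g1 k).2.2.1.1) (integrable_const _) (fun k => .of_forall fun x => ?_)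
      (.of_forall fun x => ?_) <;> by_cases hx : x ∈ X0 M (M.hw φ) r
    · have a0 := (mem h).1 hx
      have d : ∀ t : ℝ, t ≠ 0 → HasDerivAt (fun t => 2 + 1 / ((k : ℝ) + 1) * Real.log t)
          (1 / (k + 1) * t⁻¹) t := fun t ht => ((Real.hasDerivAt_log ht).const_mul _).const_add _
      have hb := hB _ (Real.log (a x)) (k0 k) (by rw [div_le_one] <;> linarith [k.cast_nonneg (α := ℝ)])
      rw [pa_congr (ct_ev ca _ a0), pa_comp (KA.smAt_of_sm (sm h) x)
        (ψ := fun t => Real.smoothTransition (2 + 1 / (k + 1) * Real.log t))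
        ((eventually_ne_nhds a0).mono fun t ht => ((Real.smoothTransition.contDiff (n := 1)).differentiable
          one_ne_zero _).hasDerivAt.comp t (d t ht))
        (((c.differentiable (by simp) _).hasDerivAt.comp _ (d _ a0)).mul
          ((hasDerivAt_inv a0).const_mul _))]
      exact est ((tq h x).nonneg.lt_of_ne' a0) (hK x).1 (hK x).2 (hw x hx).2 (k0 k).le hb.1 hb.2
    · simp [pa_off h hx, S, -abs_mul]
    · refine tendsto_const_nhds.congr' ((ct_one ca ((mem h).1 hx)).mono fun k hk => ?_)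
      have : M.ev (M.hs fun _ => 1) x = 0 := BLAP.hess_const _
      simp only [pa_congr hk]
      simp [pa, this]
    · simp [pa_off h hx, S]
  refine fatou (fun k => (i1 k).aemeasurable) (.of_forall fun x => ?_) (fun k => ?_)
    (by simpa using lim.add_const (C * ∫ x, pa M G S G x ∂M.mu G))
  · by_cases hx : x ∈ X0 M (M.hw φ) r
    · exact tendsto_const_nhds.congr' ((ct_one ca ((mem h).1 hx)).mono fun k hk => by
        simp only [hk.self_of_nhds, one_mul])
    · simp [pa_off h hx, S]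
  · rw [← ofReal_integral_eq_lintegral_ofReal (i1 k)
      (h0.mono fun x hx => mul_nonneg (c01 _ x).1 hx), e, integral_add (g1 k).1
      ((ik k).const_mul C), (g1 k).2.2.2.2, integral_const_mul]
    refine ENNReal.ofReal_le_ofReal ?_
    simp only [one_div]
    gcongr with x
    · simpa using ik k
    · exact hi ℝ _ (cG h)
    · exact fun x => mul_le_of_le_one_left (G_nn h x) (c01 _ x).2

theorem st_A5b : St_A5b := fun n r m M _ G φ f C C₀ h hC f0 hf h0 => by
  have k0 : ∀ k : ℕ, (0 : ℝ) < 1 / (k + 1) := fun k => by positivity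
  set a := tD M r G (M.hw φ) with ha
  set S := tA M r G (M.hw φ)
  have e : ∀ d x, x ∈ X0 M (M.hw φ) r → f x + d ≠ 0 →
      pa M G S (M.hs (fun y => Real.log (f y + d)) + C • G) x = (f x + d)⁻¹ * pa M G S (M.hs f) x +
        -((f x + d) ^ 2)⁻¹ * pa M G S (M.ds f f) x + C * pa M G S G x := fun d x hx q => by
    rw [pa_add, pa_comp (hf x hx).1 (ψ := fun t => Real.log (t + d)) (ψ' := fun t => (t + d)⁻¹)
      (((continuous_add_const d).continuousAt.eventually_ne q).mono fun t ht =>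
        (Real.hasDerivAt_log ht).comp_add_const t d) ((hasDerivAt_inv q).comp_add_const _ d)]
  have e0 := e 0
  simp only [add_zero] at e0
  have hs : ∀ d, 0 < d → ∀ x ∈ X0 M (M.hw φ) r, SmAt M (fun y => Real.log (f y + d)) x :=
    fun d hd x hx => KA.smAt_comp (K := fun t => Real.log (t + d))
      ((contDiffAt_id.add contDiffAt_const).log (add_pos_of_nonneg_of_pos (f0 x) hd).ne') (hf x hx).1
  refine fatou (f := fun k => pa M G S (M.hs (fun y => Real.log (f y + 1 / (k + 1))) + C • G))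
    (fun k => ?_) (h0.mono fun x hx => ?_) (fun k => st_A5a n r M G φ _ C
      (|Real.log (C₀ + 1 / (k + 1))| + |Real.log (1 / (k + 1))| + m) h hC
      (fun x hx => ⟨hs _ (k0 k) x hx, ?_⟩) (h0.mono fun x hx => ?_)) tendsto_const_nhds
  · refine ((aemeasurable_indicator_iff (op h).measurableSet).2 (ContinuousOn.aemeasurable
      (fun x hx => ContinuousAt.continuousWithinAt ?_) (op h).measurableSet)).congr
      (.of_eq (indicator_eq_self.2 fun x hx => by_contra fun q => hx (pa_off h q)))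
    exact ((G55.hs_cont h.kae.toMet (op h) (den h _ (op h)).1 (hs _ (k0 k)) hx).add
      (continuous_const.mul (cG h)).continuousAt).congr (.of_forall fun y => (pa_add C).symm)
  · by_cases q : x ∈ X0 M (M.hw φ) r
    · have t : Tendsto (fun k : ℕ => f x + 1 / ((k : ℝ) + 1)) atTop (𝓝 (f x)) := by
        simpa using tendsto_one_div_add_atTop_nhds_zero_nat.const_add (f x)
      simp only [e _ x q (add_pos_of_nonneg_of_pos (f0 x) (k0 _)).ne']
      rw [hg, e0 x q hx.1]
      exact (((t.inv₀ hx.1).mul_const _).add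
        ((((t.pow 2).inv₀ (pow_ne_zero _ hx.1)).neg).mul_const _)).add_const _
    · simp [pa_off h q, S]
  · have a0 : 0 < a x := (tq h x).nonneg.lt_of_ne' ((mem h).1 hx)
    have b := (hf x hx).2
    have d0 := k0 k
    generalize 1 / ((k : ℝ) + 1) = d at d0 ⊢
    have p : 0 < f x + d := add_pos_of_nonneg_of_pos (f0 x) d0
    have am := pow_pos a0 m
    have l0 := abs_nonneg (Real.log (a x))
    have l1 := abs_nonneg (Real.log (C₀ + d))
    have l2 := abs_nonneg (Real.log d)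
    have u : Real.log (f x + d) ≤ |Real.log (C₀ + d)| + m * |Real.log (a x)| := by
      rcases le_total 1 (a x ^ m) with q | q
      · exact (Real.log_le_log p (by nlinarith [f0 x])).trans
          ((le_abs_self _).trans (le_add_of_nonneg_right (by positivity)))
      · have := Real.log_le_log (mul_pos p am) (show _ ≤ C₀ + d by nlinarith)
        rw [Real.log_mul p.ne' am.ne', Real.log_pow] at this
        nlinarith [le_abs_self (Real.log (C₀ + d)), neg_abs_le (Real.log (a x)),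
          m.cast_nonneg (α := ℝ)]
    have v := Real.log_le_log d0 (le_add_of_nonneg_left (f0 x))
    rw [abs_le]
    constructor <;> nlinarith [neg_abs_le (Real.log d), m.cast_nonneg (α := ℝ), mul_nonneg l0 l1,
      mul_nonneg l0 l2, mul_nonneg l0 (m.cast_nonneg (α := ℝ))]
  · by_cases q : x ∈ X0 M (M.hw φ) r
    · have d0 := k0 k
      generalize 1 / ((k : ℝ) + 1) = d at d0 ⊢
      have fp := (f0 x).lt_of_ne' hx.1
      have b := hx.2
      have q0 : 0 ≤ pa M G S (M.ds f f) x := ((((st_GIBP n M G S _ h.kae.toMet (op h)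
        (den h _ (op h)).1).2 f f fun x hx => ⟨(hf x hx).1, (hf x hx).1⟩).1 x q).2.2 ?_).1
      · rw [hg, e0 x q hx.1] at b
        rw [e d x q (by positivity)]
        have g0 := mul_nonneg hC (G_nn h x)
        have : (f x + d)⁻¹ * pa M G S (M.hs f) x + -((f x + d) ^ 2)⁻¹ * pa M G S (M.ds f f) x +
            C * pa M G S G x = f x / (f x + d) * ((f x)⁻¹ * pa M G S (M.hs f) x +
            -(f x ^ 2)⁻¹ * pa M G S (M.ds f f) x + C * pa M G S G x) +
            d / (f x * (f x + d) ^ 2) * pa M G S (M.ds f f) x +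
            d / (f x + d) * (C * pa M G S G x) := by field_simp; ring
        rw [this]
        positivity
      · exact fun e he hx => (RA28.top (AllOn.at h.kae.pos he hx)
          (by simpa using AllOn.at h.psd he hx) (AllOn.at h.le he hx)).psd
    · exact (pa_off h q).ge

end Pool.Agent.Lib.RAA
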