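import Pool.Agent.Lib.RYA.Blue
import Pool.Agent.Lib.RAA.T_EM2
import Pool.Agent.Lib.RY.K_At

/-! Project ra2, step A: a bounded potential has no mass. -/

open scoped Classical Topology ContDiff ComplexOrder Matrix
open Set MeasureTheory Complex Metric Filter

noncomputable section

namespace Pool.Agent.Lib.RAA

open Pool.Agent.Lib.SV (E)
open Pool.Agent.Lib.HS32 Pool.Agent.Lib.RA

namespace A6b

variable {n : ℕ}

theorem hess_sum {ι : Type} {s : Finset ι} {f : ι → E n → ℂ} {z : E n}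
    (hf : ∀ a ∈ s, ContDiffAt ℝ ∞ (f a) z) :
    hess (fun w => ∑ a ∈ s, f a w) z = ∑ a ∈ s, hess (f a) z := by
  ext i j
  rw [Matrix.sum_apply, hess_apply, dzb_congr (g := fun w => ∑ a ∈ s, dz j (f a) w)
    (((eventually_all_finset s).2 fun a ha => cd_ev_diff (hf a ha)).mono fun w hw => dz_sum hw),
    dzb_sum fun a ha => cd_diff (cd_dz (hf a ha) j)]
  rfl

theorem det_mul {G : Mat n} (hG : G.PosDef) (c : ℂ) : G.det.re * (c / G.det).re = c.re := by
  rw [← re_ofReal_mul, Mf.herm_det hG.1, mul_div_cancel₀ _ hG.det_pos.ne']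

variable {M : Mf n}

theorem tenOn {T : M.Fam (Mat n)} (h : M.Ten T) (O : Set M.X) : TenOn M O T :=
  ⟨fun x _ => KA.at_of_all h.sm x, fun e he e' he' x hx hx' _ => h.cmp e he e' he' x hx hx'⟩

theorem hs_chi [M.Cpt] (V : M.Cov) (a : Fin V.r) (x : M.X)
    (h : M.ev (M.hs fun y => V.χ a y ^ 2) x ≠ 0) :
    x ∈ (V.e a).source ∧ V.e a x ∈ bl M V a := by
  have hK : closedBall (V.c a) (2 * V.ρ a) ⊆ bl M V a :=
    closedBall_subset_ball (by linarith [V.pos a])
  have hK' := hK.trans (ball_subset_closedBall.trans (V.sub a))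
  have hc : IsClosed ((V.e a).symm '' closedBall (V.c a) (2 * V.ρ a)) :=
    ((isCompact_closedBall _ _).image_of_continuousOn
      ((V.e a).continuousOn_symm.mono hK')).isClosed
  by_cases hx : x ∈ (V.e a).symm '' closedBall (V.c a) (2 * V.ρ a)
  · obtain ⟨z, hz, rfl⟩ := hx
    exact ⟨(V.e a).map_target (hK' hz), by rw [(V.e a).right_inv (hK' hz)]; exact hK hz⟩
  · refine (h ((KA.at_ch (KA.hs_congr (u' := fun _ => 0) ?_)).trans (BLAP.hess_const _))).elim
    filter_upwards [hc.isOpen_compl.mem_nhds hx] with y hy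
    by_contra h0
    obtain ⟨h1, h2⟩ := V.supp a y fun h => h0 (by simp [h])
    exact hy ⟨_, ball_subset_closedBall h2, (V.e a).left_inv h1⟩

theorem sum_chi (V : M.Cov) (G A : M.Fam (Mat n)) (x : M.X) :
    ∑ a, pa M G A (M.hs fun y => V.χ a y ^ 2) x = 0 := by
  have : ∑ a, M.ev (M.hs fun y => V.χ a y ^ 2) x = 0 := by
    refine (hess_sum fun a _ => Mf.AllOn.ch ((V.sm a).pow 2).lc x).symm.trans ?_
    simp only [Mf.lc, ← ofReal_sum, V.sum]
    exact BLAP.hess_const _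
  simp only [pa, ← re_sum, ← Finset.sum_div, ← Matrix.trace_sum, ← Finset.mul_sum, this,
    mul_zero, Matrix.trace_zero, zero_div, zero_re]

end A6b

open A6b in
theorem st_A6b (hT : St_TOP) (hC : St_CHI) (hX : St_MIX) : St_A6b := by
  intro n M _ G T V ι _ σ ψ C hG hK hσ hψ hi
  obtain ⟨c1, -, c2⟩ := hC n M G V hG
  obtain ⟨c3, c4, -, c5, c6⟩ := c2 ι σ hσ
  have hA := (hX n M univ T T isOpen_univ hK (tenOn hK.toTen _) fun x _ =>
    KA.at_of_all (fun e he z hz => ⟨(hK.pos e he z hz).posSemidef, hK.cl e he z hz⟩) x).2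
  have ht : ∀ a, bl M V a ⊆ (V.e a).target := fun a => ball_subset_closedBall.trans (V.sub a)
  have loc : ∀ (O : Set M.X) (u : M.X → ℝ), IsOpen O → (∀ x ∈ O, SmAt M u x) → ∀ x ∈ O,
      SmAt M (fun y => M.dq G T y * pa M T (aj M T) (M.hs u) y) x ∧ At M x fun e z =>
        pa M T (aj M T) (M.hs u) x = (((T e z).adjugate * M.hs u e z).trace / (T e z).det).re := by
    intro O u hO hu x hx
    obtain ⟨t1, -, t3, t4⟩ := hT n 0 0 M T O hK hO
    obtain ⟨t5, t6⟩ := t4 _ _ (t1 T (tenOn hK.toTen _) fun x _ => KA.at_of_all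
      (fun e he z hz => ⟨hK.herm e he z hz, hK.cl e he z hz⟩) x).2.1 (t3 u hu).1 x hx
    exact ⟨fun e he hxe => (KA.smAt_of_sm ((mINV n M G hG).1 T hK.toTen).2.2.2.1 x e he hxe).mul
      (t5 e he hxe), t6⟩
  have cv : ∀ Q x, pa M G (aj M T) Q x = M.dq G T x * pa M T (aj M T) Q x := fun Q x => by
    have h1 := hG.ev_pos x
    have h2 := hK.toMet.ev_pos x
    rw [pa, pa, Mf.dq, ← Mf.herm_det h1.1, ← Mf.herm_det h2.1, ← ofReal_div, ofReal_re,
      div_ofReal_re, div_ofReal_re, div_mul_div_comm, mul_comm (M.ev G x).det.re,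
      mul_div_mul_left _ _ (Mf.pd_det_re h2).ne']
  have rep : ∀ (O : Set M.X) (u : M.X → ℝ), IsOpen O → (∀ x ∈ O, SmAt M u x) → ∀ a,
      ∀ z ∈ bl M V a, (V.e a).symm z ∈ O → (G (V.e a) z).det.re *
        pa M G (aj M T) (M.hs u) ((V.e a).symm z) =
          tp (aj M T (V.e a) z) (hr (u ∘ (V.e a).symm) z) := by
    intro O u hO hu a z hz hx
    rw [cv, ← mul_assoc, mul_comm (G (V.e a) z).det.re,
      ← (((mINV n M G hG).2.1 T hK.toMet.toForm) _ (V.mem a) z (ht a hz)).2.2,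
      KA.at_tgt (V.mem a) (ht a hz) (loc O u hO hu _ hx).2, det_mul (hK.pos _ (V.mem a) z (ht a hz))]
    rfl
  have sχ : ∀ a, ∀ x ∈ univ, SmAt M (fun y => V.χ a y ^ 2) x :=
    fun a x _ => KA.smAt_of_sm ((V.sm a).pow 2) x
  have mb : ∀ a, MeasurableSet (bl M V a ∩ {z | σ a z ≠ 0}) := fun a =>
    ((hσ.hol a).continuousOn.isOpen_inter_preimage isOpen_ball
      isOpen_compl_singleton).measurableSet
  have ae : ∀ᵐ x ∂M.mu G, x ∈ gd M V σ := c4
  have i1 : ∀ a, Integrable (fun x => ψ x * pa M G (aj M T) (M.hs fun y => V.χ a y ^ 2) x)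
      (M.mu G) := fun a => by
    refine Integrable.bdd_mul (c := C) ?_ ?_ (ae.mono fun x hx => (hψ x hx).2)
    · simp only [funext (cv _)]
      exact (mMU n M G hG).2.2.2.2.1 ℝ _ (continuous_iff_continuousAt.2 fun x =>
        KA.smAt_cont (loc univ _ isOpen_univ (sχ a) x trivial).1)
    · rw [← Measure.restrict_eq_self_of_ae_mem ae]
      exact ContinuousOn.aestronglyMeasurable
        (fun x hx => (KA.smAt_cont (hψ x hx).1).continuousWithinAt) c3.measurableSet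
  obtain ⟨d1, d2⟩ := (c6 _).2.1 hi
  rw [d1, Finset.sum_congr rfl (g := fun a =>
    ∫ x, ψ x * pa M G (aj M T) (M.hs fun y => V.χ a y ^ 2) x ∂M.mu G) fun a _ => ?_,
    ← integral_finsetSum _ fun a _ => i1 a]
  · simp only [← Finset.mul_sum, sum_chi, mul_zero, integral_zero]
  have g0 : ∀ z ∈ bl M V a, σ a z ≠ 0 → (V.e a).symm z ∈ gd M V σ :=
    fun z hz => ((c5 a).2 z hz).2
  have a0 : ∀ z ∈ bl M V a, SmM (aj M T (V.e a)) z ∧ Dvf (aj M T (V.e a)) z ∧
      (aj M T (V.e a) z).PosSemidef :=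
    fun z hz => (KA.at_tgt (V.mem a) (ht a hz) (hA _ trivial)).2.2.2
  have em := (em2' (ψ := ψ ∘ (V.e a).symm) (C := C) isOpen_ball (hσ.hol a) (fun z hz _ => a0 z hz)
    (fun L hL hs => (ContinuousOn.integrableOn_compact hL fun z hz =>
      (cd_re (a0 z (hs hz)).1.trace).continuousAt.continuousWithinAt).mono_set inter_subset_left)
    (fun z hz h0 => ⟨KA.at_tgt (V.mem a) (ht a hz) (hψ _ (g0 z hz h0)).1, (hψ _ (g0 z hz h0)).2⟩)
    (c1 a) ((((d2 a).2.mono_set inter_subset_left).congr_fun (fun z hz =>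
      rep _ ψ c3 (fun x hx => (hψ x hx).1) a z hz.1 (g0 z hz.1 hz.2)) (mb a)).mono_set
        (inter_subset_inter_left _ (c1 a).sub))).2.2
  rw [(c6 _).2.2 a fun x hx => ?_, (c6 _).2.2 a fun x hx => hs_chi V a x fun h => hx ?_]
  · refine Eq.trans (setIntegral_congr_fun (mb a) fun z hz => ?_)
      (em.trans (setIntegral_congr_fun (mb a) fun z hz => ?_))
    · rw [mul_left_comm, rep _ ψ c3 (fun x hx => (hψ x hx).1) a z hz.1 (g0 z hz.1 hz.2)]
    · rw [mul_left_comm, rep _ _ isOpen_univ (sχ a) a z hz.1 trivial]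
      rfl
  · simp [pa, h]
  · obtain ⟨h1, h2⟩ := V.supp a x fun h => hx (by simp [h])
    exact ⟨h1, ball_subset_ball (by linarith [V.pos a]) h2⟩

end Pool.Agent.Lib.RAA
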