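import Pool.Agent.Lib.RYA.Blue
import Pool.Agent.Lib.HS32.MAll
import Pool.Agent.Lib.HS.Top

/-! Project ra2, step A: a Kähler form has finite mass. -/

open scoped Topology ComplexOrder Matrix
open Set MeasureTheory Metric Filter

noncomputable section

namespace Pool.Agent.Lib.RAA

open Pool.Agent.Lib.SV (E)
open Pool.Agent.Lib.HS32 Pool.Agent.Lib.RA

namespace A6c

variable {n : ℕ} {M : Mf n}

theorem qf_kae {G : M.Fam (Mat n)} (hG : M.Kae G) (V : M.Cov) {ι : Type}
    (σ : Fin V.r → E n → ι → ℂ) : QF M V σ G where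
  ten := ⟨fun x _ e he hx => hG.sm e he _ (e.map_source hx),
    fun e he e' he' x hx hx' _ => hG.cmp e he e' he' x hx hx'⟩
  psd := fun x _ e he hx =>
    ⟨(hG.pos e he _ (e.map_source hx)).posSemidef, hG.cl e he _ (e.map_source hx)⟩
  int := fun a L hL hs i j => by
    refine (ContinuousOn.integrableOn_compact hL fun z hz => ?_).mono_set inter_subset_left
    exact (hG.sm _ (V.mem a) z (V.sub a (ball_subset_closedBall (hs hz))) i
      j).continuousAt.continuousWithinAt

end A6c

end Pool.Agent.Lib.RAA
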