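import Pool.Agent.Lib.RYA.Blue
import Pool.Agent.Lib.RY.K_At

/-! Project ra2, step A: the limit of the inequality of Aubin and Yau. -/

open scoped Classical Topology ContDiff ComplexOrder Matrix
open Set MeasureTheory Complex Metric Filter

set_option linter.unusedVariables false

noncomputable section

namespace Pool.Agent.Lib.RAA

open Pool.Agent.Lib.SV (E)
open Pool.Agent.Lib.HS32 Pool.Agent.Lib.RA Pool.Agent.Lib.RA28

namespace A6d

variable {n : ℕ}

/-- The pairing at a point. -/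
def pq (G A T : Mat n) : ℝ := ((A * T).trace / G.det).re

theorem det_re {G : Mat n} (hG : G.PosDef) : ∃ g : ℝ, 0 < g ∧ G.det = g := by
  have h := hG.det_pos
  exact ⟨G.det.re, (Complex.lt_def.1 h).1,
    Complex.ext rfl (by simpa using (Complex.lt_def.1 h).2.symm)⟩

theorem pq_nn {G A T : Mat n} (hG : G.PosDef) (hA : A.PosSemidef) (hT : T.PosSemidef) :
    0 ≤ pq G A T := by
  obtain ⟨g, g0, hg⟩ := det_re hG
  rw [pq, hg, Complex.div_ofReal_re]
  exact div_nonneg (BLAP.tr_nonneg hA hT) g0.le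

theorem pq_add (G A A' T : Mat n) : pq G (A + A') T = pq G A T + pq G A' T := by
  simp only [pq, Matrix.add_mul, Matrix.trace_add, add_div, Complex.add_re]

theorem pq_sub (G A A' T : Mat n) : pq G (A - A') T = pq G A T - pq G A' T := by
  simp only [pq, Matrix.sub_mul, Matrix.trace_sub, sub_div, Complex.sub_re]

theorem pq_smul (G A T : Mat n) (c : ℝ) : pq G ((c : ℂ) • A) T = c * pq G A T := by
  simp only [pq, Matrix.smul_mul, Matrix.trace_smul, smul_eq_mul, mul_div_assoc,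
    Complex.re_ofReal_mul]

theorem pw {r : ℕ} {G B Q : Mat n} (hG : G.PosDef) (hB : B.PosSemidef) (hr : B.rank ≤ r)
    (hn : r < n) (hQ : Q.PosSemidef) {ε K : ℝ} (h0 : 0 < ε) (h1 : ε ≤ 1)
    (hK : ((G + B).det / G.det).re ≤ K) :
    ε ^ (n - 1 - r) * pq G (topS r G B) Q ≤ pq G (B + ε • G).adjugate Q ∧
    pq G (B + ε • G).adjugate Q ≤
      ε ^ (n - 1 - r) * (pq G (topS r G B) Q + ε * K * pq G G.adjugate Q) ∧
    ((B + ε • G).det / G.det).re ≤ ε ^ (n - 1 - r) * (ε * K) := by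
  have hT := top hG hB hr
  obtain ⟨R, R0, R1, hR⟩ := hT.adj hn ε h0 h1
  have hd := hT.det ε h0 h1
  obtain ⟨g, g0, hg⟩ := det_re hG
  obtain ⟨g', g0', hg'⟩ := det_re (hG.add_posSemidef hB)
  rw [Complex.coe_smul] at hd
  rw [Complex.coe_smul, ← Complex.ofReal_pow] at hR
  have e1 : (G + B).det • G⁻¹ = ((g' / g : ℝ) : ℂ) • G.adjugate := by
    rw [Matrix.inv_def, smul_smul, Ring.inverse_eq_inv', hg, hg']
    push_cast
    rfl
  have a0 : G.adjugate.PosSemidef := by
    have : G.adjugate = (g : ℂ) • G⁻¹ := by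
      rw [Matrix.inv_def, smul_smul, Ring.inverse_eq_inv', hg,
        mul_inv_cancel₀ (by exact_mod_cast g0.ne'), one_smul]
    rw [this]
    exact hG.inv.posSemidef.smul (by exact_mod_cast g0.le)
  have p1 := pq_nn hG R0 hQ
  have p2 := pq_nn hG R1 hQ
  have p3 := pq_nn hG a0 hQ
  rw [e1, pq_sub, pq_smul] at p2
  rw [hg, hg', ← Complex.ofReal_div, Complex.ofReal_re] at hK
  have p4 : pq G R Q ≤ K * pq G G.adjugate Q := by nlinarith
  have e0 : 0 < ε ^ (n - 1 - r) := by positivity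
  refine ⟨?_, ?_, ?_⟩
  · rw [hR, pq_smul, pq_add, pq_smul]
    exact mul_le_mul_of_nonneg_left (by nlinarith) e0.le
  · rw [hR, pq_smul, pq_add, pq_smul]
    exact mul_le_mul_of_nonneg_left (by nlinarith) e0.le
  · rw [hg, Complex.div_ofReal_re, div_le_iff₀ g0]
    rw [hg', Complex.ofReal_re, show n - r = n - 1 - r + 1 by omega, pow_succ] at hd
    rw [div_le_iff₀ g0] at hK
    calc _ ≤ ε ^ (n - 1 - r) * ε * g' := hd
      _ ≤ ε ^ (n - 1 - r) * ε * (K * g) := by gcongr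
      _ = _ := by ring

end A6d

open A6d KA

theorem st_A6d (hc : St_A6c) (hm : St_A6m) (hχ : St_CHI) (hT : St_TOP) : St_A6d := by
  intro n r ρ M _ G q φ V σ C hn hS hC hL hq hQ
  have hG := hS.kae
  have hμ := mMU n M G hG.toMet
  have := hμ.2.1
  have hη := hS.wt.clo
  obtain ⟨gO, g0, -⟩ := (hχ n M G V hG.toMet).2.2 _ σ hL.toAn
  have Gp : ∀ x, (M.ev G x).PosDef := fun x => at_ch (at_of_all hG.pos x)
  have ηp : ∀ x, (M.ev (M.hw φ) x).PosSemidef := fun x => by
    simpa [Mf.ev] using at_ch (at_of_all hS.psd x)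
  have ηr : ∀ x, (M.ev (M.hw φ) x).rank ≤ r := fun x => at_ch (at_of_all hS.le x)
  have Qp : ∀ x ∈ gd M V σ, (M.ev (C • G + q) x).PosSemidef := fun x hx => (at_ch (hQ.psd x hx)).1
  have ae : ∀ᵐ x ∂M.mu G, x ∈ gd M V σ := g0
  have ten : ∀ {T} (O : Set M.X), M.Ten T → TenOn M O T := fun O h =>
    ⟨fun x _ => at_of_all h.sm x, fun e he e' he' x hx hx' _ => h.cmp e he e' he' x hx hx'⟩
  have den : ∀ {T} (O : Set M.X), IsOpen O → M.Clo T →
      DenOn M O (tA M r G T) ∧ DenOn M O (aj M T) := fun O hO h =>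
    have := (hT n 0 r M G O hG hO).1 _ (ten O h.toTen) fun x _ e he hx =>
      ⟨at_of_all h.herm x e he hx, at_of_all h.cl x e he hx⟩
    ⟨this.1, this.2.1⟩
  have intG : ∀ A, DenOn M univ A → Integrable (pa M G A G) (M.mu G) := fun A hA =>
    hμ.2.2.2.2.1 ℝ _ (continuous_iff_continuousAt.2 fun x => smAt_cont
      ((hT n 0 r M G univ hG isOpen_univ).2.2.2 A G hA (ten _ hG.toTen) x trivial).1)
  have cdq : ∀ T, M.Ten T → Continuous (M.dq G T) := fun T h =>
    ((mTR n M).2.2.2.1 ℝ _).1 ((mINV n M G hG.toMet).1 T h).2.2.2.1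
  have hc' := fun ε hε => hc n ρ M G q φ V σ C ε (by omega) hG hS.wt hS.psd hL hq hQ hε
  have : CompactSpace M.X := Mf.Cpt.cpt
  obtain ⟨K, hK⟩ := (isCompact_range (cdq _ (hc' 1 one_pos).1.toTen)).bddAbove
  have hK' : ∀ x, ((M.ev G x + M.ev (M.hw φ) x).det / (M.ev G x).det).re ≤ K := fun x => by
    have := hK ⟨x, rfl⟩
    simpa [Mf.dq, Mf.ev, add_comm] using this
  have P := fun (Q : M.Fam (Mat n)) x (h : (M.ev Q x).PosSemidef) (ε : ℝ) h0 h1 =>
    pw (ε := ε) (Gp x) (ηp x) (ηr x) hn h h0 h1 (hK' x)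
  have iT := fun T (h : M.Kae T) => (hm n M G T _ V _ σ hG.toMet h hL.toAn hQ).1
  have nn : ∀ x ∈ gd M V σ, 0 ≤ pa M G (tA M r G (M.hw φ)) (C • G + q) x := fun x hx =>
    pq_nn (Gp x) (top (Gp x) (ηp x) (ηr x)).psd (Qp x hx)
  have i1 : Integrable (pa M G (tA M r G (M.hw φ)) (C • G + q)) (M.mu G) := by
    refine (iT _ (hc' 1 one_pos).1).mono' ?_ ?_
    · rw [← Measure.restrict_eq_self_of_ae_mem ae]
      exact ContinuousOn.aestronglyMeasurable (fun x hx => (smAt_cont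
        ((hT n 0 r M G _ hG gO).2.2.2 _ _ (den _ gO hη).1 hQ.ten x hx).1).continuousWithinAt)
        gO.measurableSet
    · filter_upwards [ae] with x hx
      rw [Real.norm_of_nonneg (nn x hx)]
      have := (P _ x (Qp x hx) 1 one_pos le_rfl).1
      rwa [one_pow, one_mul] at this
  refine ⟨i1, fun x hx => ⟨nn x hx, fun h0 => ?_⟩, ?_⟩
  · have t := top (Gp x) (ηp x) (ηr x)
    obtain ⟨v, -, -, hv⟩ := t.ker
    have a0 : topA r (M.ev G x) (M.ev (M.hw φ) x) = 0 :=
      le_antisymm (not_lt.1 fun h => h0 (t.pos.1 h)) t.nonneg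
    have := hv (M.ev (C • G + q) x)
    rw [t.dA, a0] at this
    change ((topS r (M.ev G x) (M.ev (M.hw φ) x) * _).trace / _).re = 0
    rw [this]
    simp
  set L : ℝ := K * ∫ x, pa M G (aj M G) (C • G + q) x ∂M.mu G + ρ * (K * (M.mu G).real univ)
  have key : ∀ ε : ℝ, 0 < ε → ε ≤ 1 → C * ∫ x, pa M G (tA M r G (M.hw φ)) G x ∂M.mu G ≤
      ∫ x, pa M G (tA M r G (M.hw φ)) (C • G + q) x ∂M.mu G + ε * L := by
    intro ε h0 h1
    obtain ⟨hk, hi⟩ := hc' ε h0
    have e0 : 0 < ε ^ (n - 1 - r) := by positivity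
    have b1 : ε ^ (n - 1 - r) * ∫ x, pa M G (tA M r G (M.hw φ)) G x ∂M.mu G ≤
        ∫ x, pa M G (aj M (M.hw φ + ε • G)) G x ∂M.mu G := by
      rw [← integral_const_mul]
      exact integral_mono ((intG _ (den _ isOpen_univ hη).1).const_mul _)
        (intG _ (den _ isOpen_univ hk.toClo).2) fun x => (P G x (Gp x).posSemidef ε h0 h1).1
    have b2 : ∫ x, M.dq G (M.hw φ + ε • G) x ∂M.mu G ≤
        (M.mu G).real univ * (ε ^ (n - 1 - r) * (ε * K)) := by
      rw [← smul_eq_mul, ← integral_const]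
      exact integral_mono (hμ.2.2.2.2.1 ℝ _ (cdq _ hk.toTen)) (integrable_const _)
        fun x => (P G x (Gp x).posSemidef ε h0 h1).2.2
    have b3 : ∫ x, pa M G (aj M (M.hw φ + ε • G)) (C • G + q) x ∂M.mu G ≤
        ε ^ (n - 1 - r) * (∫ x, pa M G (tA M r G (M.hw φ)) (C • G + q) x ∂M.mu G +
          ε * K * ∫ x, pa M G (aj M G) (C • G + q) x ∂M.mu G) := by
      rw [← integral_const_mul, ← integral_add i1 ((iT _ hG).const_mul _), ← integral_const_mul]
      refine integral_mono_ae (iT _ hk) ((i1.add ((iT _ hG).const_mul _)).const_mul _) ?_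
      filter_upwards [ae] with x hx using (P _ x (Qp x hx) ε h0 h1).2.1
    refine le_of_mul_le_mul_left ?_ e0
    have c1 := mul_le_mul_of_nonneg_left b1 hC.le
    have c2 := mul_le_mul_of_nonneg_left b2 (Nat.cast_nonneg (α := ℝ) ρ)
    simp only [L]
    linarith
  refine le_of_forall_pos_le_add fun δ hδ => ?_
  have h1 : 0 < |L| + 1 := by positivity
  refine (key (min 1 (δ / (|L| + 1))) (by positivity) (min_le_left _ _)).trans ?_
  gcongr
  calc min 1 (δ / (|L| + 1)) * L ≤ min 1 (δ / (|L| + 1)) * (|L| + 1) := by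
        gcongr
        linarith [le_abs_self L]
    _ ≤ δ / (|L| + 1) * (|L| + 1) := by gcongr; exact min_le_right _ _
    _ = δ := by field_simp

end Pool.Agent.Lib.RAA
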