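import Pool.Agent.Lib.RYA.Blue
import Pool.Agent.Lib.RAA.T_EM2
import Pool.Agent.Lib.RAA.T_TOP
import Pool.Agent.Lib.RY.B_TOP
import Pool.Agent.Lib.RY.K_At

/-! Project ra2, step A: the mass is finite and the mixed density kills Hessians. -/

open scoped Classical Topology ContDiff ComplexOrder Matrix
open Set MeasureTheory Complex Metric Filter

set_option linter.unusedVariables false

noncomputable section

namespace Pool.Agent.Lib.RAA

open Pool.Agent.Lib.SV (E)
open Pool.Agent.Lib.HS32 Pool.Agent.Lib.RA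

namespace A6m

variable {n : ℕ} {M : Mf n} {O : Set M.X} {G A T : M.Fam (Mat n)} {x : M.X} {e : M.Ch}

/-- The law of densities. -/
def Dc (M : Mf n) (O : Set M.X) (A : M.Fam (Mat n)) : Prop :=
  M.Ov fun e e' x => x ∈ O → M.J e e' x * A e' (e' x) * (M.J e e' x)ᴴ =
    (normSq (M.J e e' x).det : ℂ) • A e (e x)

/-- The law of tensors. -/
def Tc (M : Mf n) (O : Set M.X) (T : M.Fam (Mat n)) : Prop :=
  M.Ov fun e e' x => x ∈ O → T e' (e' x) = (M.J e e' x)ᴴ * T e (e x) * M.J e e' x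

theorem dc_aj (hT : M.Ten T) : Dc M O (aj M T) := fun e he e' he' x hs hs' _ => by
  simp only [aj]
  rw [hT.cmp e he e' he' x hs hs', Matrix.adjugate_mul_distrib, Matrix.adjugate_mul_distrib,
    ← Matrix.adjugate_conjTranspose, ← Matrix.mul_assoc (M.J e e' x).adjugate, BTop.adj_den]

theorem tc_ten (hT : M.Ten T) : Tc M O T := fun e he e' he' x hs hs' _ => hT.cmp e he e' he' x hs hs'

/-- The pairing in a chart. -/
theorem pa_at (hG : M.Met G) (hA : Dc M O A) (hT : Tc M O T) (hx : x ∈ O) (he : e ∈ M.C)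
    (hs : x ∈ e.source) : (G e (e x)).det.re * pa M G A T x = tp (A e (e x)) (T e (e x)) := by
  have h0 := Mf.ch_mem (M := M) x
  have h1 := Mf.mem_ch (M := M) x
  have h2 := KA.det_J he h0 hs h1
  have h3 : (M.J e (M.ch x) x)ᴴ.det ≠ 0 := by
    rw [Matrix.det_conjTranspose]; exact star_ne_zero.mpr h2
  have h4 := Mf.pd_det_re (hG.pos.at he hs)
  simp only [pa, Mf.ev, tp]
  rw [hG.cmp e he _ h0 x hs h1, hT e he _ h0 x hs h1 hx, ← Matrix.mul_assoc, Matrix.trace_mul_comm,
    ← Matrix.mul_assoc, ← Matrix.mul_assoc, hA e he _ h0 x hs h1 hx, Matrix.smul_mul,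
    Matrix.trace_smul, BTop.nsq, Matrix.det_mul, Matrix.det_mul, smul_eq_mul,
    mul_right_comm _ (G e _).det, mul_div_mul_left _ _ (mul_ne_zero h3 h2),
    ← Mf.herm_det (hG.herm.at he hs), div_ofReal_re, ofReal_re, mul_div_cancel₀ _ h4.ne']

theorem pa_tgt (hG : M.Met G) (hA : Dc M O A) (hT : Tc M O T) {z : E n} (hz : z ∈ e.target)
    (hx : e.symm z ∈ O) (he : e ∈ M.C) :
    (G e z).det.re * pa M G A T (e.symm z) = tp (A e z) (T e z) := by
  have := pa_at hG hA hT hx he (e.map_target hz)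
  rwa [e.right_inv hz] at this

theorem int_tr {S R : E n → Mat n} {L N : Set (E n)} (hL : IsCompact L) (hN : MeasurableSet N)
    (hs : N ⊆ L) (hS : ∀ i j, IntegrableOn (fun z => S z i j) N) (hR : ∀ z ∈ L, SmM R z) :
    IntegrableOn (fun z => (S z * R z).trace) N := by
  simp only [GIBE.tr_eq]
  exact integrable_finsetSum _ fun j _ => integrable_finsetSum _ fun i _ =>
    (hS j i).mul_continuousOn_of_subset (fun z hz => (hR z hz i j).continuousAt.continuousWithinAt)
      hN hL hs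

theorem hess_sum {ι : Type} (s : Finset ι) {f : ι → E n → ℂ} {z : E n}
    (hf : ∀ a, ContDiffAt ℝ ∞ (f a) z) :
    hess (fun w => ∑ a ∈ s, f a w) z = ∑ a ∈ s, hess (f a) z := by
  induction s using Finset.induction_on with
  | empty => simp
  | insert a s ha ih =>
    simp only [Finset.sum_insert ha]
    rw [hess_add (hf a) (ContDiffAt.sum fun b _ => hf b), ih]

theorem tr_cf {T c : Mat n} (hT : T.PosDef) (hc : c.PosSemidef) (i j : Fin n) :
    ‖cf 1 T c i j‖ ≤ (c * (T⁻¹.trace • T.adjugate)).trace.re := by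
  obtain ⟨h1, h2⟩ := (st_TOP2 n).1 T c hT hc
  have h3 := (Complex.le_def.1 h2.trace_nonneg).1
  rw [Matrix.trace_sub, sub_re, Matrix.trace_smul, zero_re, sub_nonneg] at h3
  rw [Matrix.mul_smul, Matrix.trace_smul, Matrix.trace_mul_comm, smul_eq_mul, mul_comm]
  exact (EM.entry_le h1 i j).trans h3

end A6m

open A6m

theorem st_A6m (hM : St_MIX) (hC : St_CHI) : St_A6m := by
  intro n M _ G T Q V ι _ σ hG hT hσ hQ
  obtain ⟨c1, -, c2⟩ := hC n M G V hG
  obtain ⟨hO, -, -, c3, c4⟩ := c2 ι σ hσ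
  obtain ⟨m1, m2⟩ := hM n M _ T Q hO hT hQ.ten hQ.psd
  set A : M.Fam (Mat n) := fun e z => cf 1 (T e z) (Q e z) with hA
  have tg : ∀ a, ∀ z ∈ bl M V a, z ∈ (V.e a).target := fun a z hz =>
    V.sub a (ball_subset_closedBall hz)
  have op : ∀ a, IsOpen (bl M V a ∩ {z | σ a z ≠ 0}) := fun a =>
    (hσ.hol a).continuousOn.isOpen_inter_preimage isOpen_ball isOpen_compl_singleton
  have ms : ∀ a L, IsCompact L → L ⊆ bl M V a → MeasurableSet (L ∩ {z | σ a z ≠ 0}) :=
    fun a L hL hs => by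
      rw [show L ∩ {z | σ a z ≠ 0} = L ∩ (bl M V a ∩ {z | σ a z ≠ 0}) by
        rw [← inter_assoc, inter_eq_left.2 hs]]
      exact hL.measurableSet.inter (op a).measurableSet
  have mx := fun a z (hz : z ∈ bl M V a) (h0 : σ a z ≠ 0) =>
    KA.at_tgt (V.mem a) (tg a z hz) (m2 _ (((c3 a).2 z hz).2 h0))
  have iA : ∀ a L, IsCompact L → L ⊆ bl M V a → ∀ i j,
      IntegrableOn (fun z => A (V.e a) z i j) (L ∩ {z | σ a z ≠ 0}) := fun a L hL hs i j => by
    have h1 := int_tr (R := fun z => (T (V.e a) z)⁻¹.trace • (T (V.e a) z).adjugate) hL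
      (ms a L hL hs) inter_subset_left (hQ.int a L hL hs) fun z hz => by
        have h := hT.sm _ (V.mem a) z (tg a z (hs hz))
        exact SmM.smul (h.inv (hT.toMet.det_ne _ (V.mem a) z (tg a z (hs hz)))).trace h.adjugate
    refine Integrable.mono' h1.re (ContinuousOn.aestronglyMeasurable (fun z hz =>
      ((mx a z (hs hz.1) hz.2).1 i j).continuousAt.continuousWithinAt) (ms a L hL hs))
      (ae_restrict_of_forall_mem (ms a L hL hs) fun z hz => ?_)
    exact tr_cf (hT.pos _ (V.mem a) z (tg a z (hs hz.1)))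
      (KA.at_tgt (V.mem a) (tg a z (hs hz.1)) (hQ.psd _ (((c3 a).2 z (hs hz.1)).2 hz.2))).1 i j
  have hh : ∀ u, M.Sm u → Tc M (gd M V σ) (M.hs u) := fun u hu =>
    tc_ten ((mHES n M).1 u hu).toTen
  have iu : ∀ u, M.Sm u → Integrable (pa M G A (M.hs u)) (M.mu G) := fun u hu =>
    (c4 _).1 fun a => by
      have hm := ms a _ (c1 a).cpt (c1 a).sub
      refine IntegrableOn.congr_fun (int_tr (R := M.hs u (V.e a)) (c1 a).cpt hm inter_subset_left
        (iA a _ (c1 a).cpt (c1 a).sub) fun z hz =>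
          smM_hess (hu.lc _ (V.mem a) z (tg a z ((c1 a).sub hz)))).re (fun z hz => ?_) hm
      exact (pa_tgt hG m1.cmp (hh u hu) (tg a z ((c1 a).sub hz.1))
        (((c3 a).2 z ((c1 a).sub hz.1)).2 hz.2) (V.mem a)).symm
  refine ⟨(c4 _).1 fun a => ?_, fun u hu => ⟨iu u hu, ?_⟩⟩
  · have hm := ms a _ (c1 a).cpt (c1 a).sub
    refine IntegrableOn.congr_fun (int_tr (R := aj M T (V.e a)) (c1 a).cpt hm inter_subset_left
      (hQ.int a _ (c1 a).cpt (c1 a).sub) fun z hz =>
        (hT.sm _ (V.mem a) z (tg a z ((c1 a).sub hz))).adjugate).re (fun z hz => ?_) hm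
    rw [pa_tgt hG (dc_aj hT.toTen) hQ.ten.cmp (tg a z ((c1 a).sub hz.1))
      (((c3 a).2 z ((c1 a).sub hz.1)).2 hz.2) (V.mem a), tp, Matrix.trace_mul_comm]
    rfl
  · set w : Fin V.r → M.X → ℝ := fun a x => V.χ a x ^ 2 * u x with hw
    have sw : ∀ a, M.Sm (w a) := fun a => ((V.sm a).pow 2).mul hu
    have e1 : pa M G A (M.hs u) = fun x => ∑ a, pa M G A (M.hs (w a)) x := by
      funext x
      have h1 : M.ev (M.hs u) x = ∑ a, M.ev (M.hs (w a)) x := by
        simp only [Mf.ev, Mf.hs]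
        rw [← hess_sum _ fun a => (sw a).lc.ch x]
        congr 1
        funext z
        simp only [Mf.lc, hw, ← ofReal_sum, ← Finset.sum_mul, V.sum, one_mul]
      simp only [pa, h1, Matrix.mul_sum, Matrix.trace_sum, Finset.sum_div, re_sum]
    rw [e1, integral_finsetSum _ fun a _ => iu _ (sw a)]
    refine Finset.sum_eq_zero fun a _ => ?_
    have hK : IsClosed ((V.e a).symm '' closedBall (V.c a) (2 * V.ρ a)) :=
      ((c1 a).cpt.image_of_continuousOn ((V.e a).continuousOn_symm.mono fun z hz =>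
        tg a z ((c1 a).sub hz))).isClosed
    rw [(c4 _).2.2 a fun x hx => ?_]
    · have hβ : Tst (bl M V a) (closedBall (V.c a) (2 * V.ρ a)) (w a ∘ (V.e a).symm) :=
        ⟨(c1 a).cpt, (c1 a).sub, fun z hz => sw a _ (V.mem a) z (tg a z hz), fun z hz h => by
          simp only [Function.comp, hw, (c1 a).zero z hz h, zero_mul]⟩
      have h0 : ∀ z, tp (A (V.e a) z) (hr (fun _ => (1 : ℝ)) z) = 0 := fun z => by
        simp only [tp, hr, hess_const, Matrix.mul_zero, Matrix.trace_zero, zero_re]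
      have h1 := (em2' (A := A (V.e a)) (ψ := fun _ => 1) (C := 1) isOpen_ball (hσ.hol a)
        (fun z hz h => ⟨(mx a z hz h).1, (mx a z hz h).2.1, (mx a z hz h).2.2.1⟩)
        (fun L hL hs => (integrable_finsetSum _ fun i _ => iA a L hL hs i i).re)
        (fun z _ _ => ⟨contDiffAt_const, by simp⟩) hβ (by simp only [h0]; exact integrableOn_zero)).2.2
      simp only [h0, mul_zero, integral_zero, one_mul] at h1
      rw [h1]
      exact setIntegral_congr_fun (op a).measurableSet fun z hz =>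
        pa_tgt hG m1.cmp (hh _ (sw a)) (tg a z hz.1) (((c3 a).2 z hz.1).2 hz.2) (V.mem a)
    · by_cases hx' : x ∈ (V.e a).symm '' closedBall (V.c a) (2 * V.ρ a)
      · obtain ⟨z, hz, rfl⟩ := hx'
        have h := (c1 a).sub hz
        exact ⟨(V.e a).map_target (tg a z h), by rwa [(V.e a).right_inv (tg a z h)]⟩
      · refine absurd ?_ hx
        have h1 : w a =ᶠ[𝓝 x] fun _ => 0 := by
          filter_upwards [hK.isOpen_compl.mem_nhds hx'] with y hy
          have : V.χ a y = 0 := by_contra fun h => hy ⟨_, ball_subset_closedBall (V.supp a y h).2,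
            (V.e a).left_inv (V.supp a y h).1⟩
          simp only [hw, this, ne_eq, OfNat.ofNat_ne_zero, not_false_eq_true, zero_pow, zero_mul]
        have h2 : M.ev (M.hs (w a)) x = 0 :=
          (KA.at_ch (KA.hs_congr h1)).trans (hess_const _)
        simp only [pa, h2, Matrix.mul_zero, Matrix.trace_zero, zero_div, zero_re]

end Pool.Agent.Lib.RAA
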