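import Pool.Agent.Lib.RYA.Blue
import Pool.Agent.Lib.RY.K_At
import Pool.Agent.Lib.HS32.MKit

/-! Project ra2, step A: the inequality for one metric with Ricci curvature bounded below. -/

open scoped Classical Topology ContDiff ComplexOrder Matrix
open Set MeasureTheory Complex Metric Filter

set_option linter.unusedVariables false

noncomputable section

namespace Pool.Agent.Lib.RAA

open Pool.Agent.Lib.SV (E)
open Pool.Agent.Lib.HS32 Pool.Agent.Lib.RA

namespace A6r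

variable {n : ℕ} {M : Mf n}

lemma pa_lin (G A S T : M.Fam (Mat n)) (c : ℝ) (x : M.X) :
    pa M G A (c • S + T) x = c * pa M G A S x + pa M G A T x := by
  simp only [pa, Mf.ev, Pi.add_apply, Pi.smul_apply, Matrix.mul_add, Matrix.mul_smul,
    Matrix.trace_add, Matrix.trace_smul, add_div, add_re, real_smul, mul_div_assoc, re_ofReal_mul]

lemma pa_sub (G A S T : M.Fam (Mat n)) (x : M.X) :
    pa M G A (S - T) x = pa M G A S x - pa M G A T x := by
  simp only [pa, Mf.ev, Pi.sub_apply, Matrix.mul_sub, Matrix.trace_sub, sub_div, sub_re]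

lemma tenOn {T : M.Fam (Mat n)} (h : M.Ten T) (O : Set M.X) : TenOn M O T :=
  ⟨fun x _ => KA.at_of_all h.sm x, fun e he e' he' x hx hx' _ => h.cmp e he e' he' x hx hx'⟩

lemma den (hTOP : RA.St_TOP) {G T : M.Fam (Mat n)} (hG : M.Kae G) (hT : M.Kae T) {O : Set M.X}
    (hO : IsOpen O) : DenOn M O (aj M T) :=
  ((hTOP n 0 0 M G O hG hO).1 T (tenOn hT.toTen O) fun x _ =>
    KA.at_of_all (hT.herm.and hT.cl) x).2.1

lemma int_sm (hTOP : RA.St_TOP) [M.Cpt] {G T S : M.Fam (Mat n)} (hG : M.Kae G) (hT : M.Kae T)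
    (hS : M.Ten S) : Integrable (pa M G (aj M T) S) (M.mu G) :=
  (mMU n M G hG.toMet).2.2.2.2.1 ℝ _ (continuous_iff_continuousAt.2 fun x => KA.smAt_cont
    ((hTOP n 0 0 M G univ hG isOpen_univ).2.2.2 _ _ (den hTOP hG hT isOpen_univ) (tenOn hS _) x
      (mem_univ x)).1)

end A6r

open A6r in
theorem st_A6r (hTOP : RA.St_TOP) (hCHI : St_CHI) (hA4 : St_A4) (hCQ : St_CQ) (hPSI : St_PSI)
    (hm : St_A6m) (hb : St_A6b) : St_A6r := by
  intro n ρ M _ G T q V σ C hG hT hR hL hq hQ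
  obtain ⟨q', C', -, hq', hQ'⟩ := hCQ n ρ M V σ T hL hT
  obtain ⟨ψ, C₁, hψ⟩ := hPSI n ρ M V σ G T q q' hL hG.toMet hT.toMet hq hq'
  obtain ⟨hO, h0, -⟩ := (hCHI n M G V hG.toMet).2.2 _ σ hL.toAn
  have hae : ∀ᵐ x ∂M.mu G, x ∈ gd M V σ := h0
  have i1 := (hm n M G T _ V _ σ hG.toMet hT hL.toAn hQ).1
  have i2 := (hm n M G T _ V _ σ hG.toMet hT hL.toAn hQ').1
  have iG := int_sm hTOP hG hT hG.toTen
  have iT := int_sm hTOP hG hT hT.toTen
  have j1 : Integrable (pa M G (aj M T) q) (M.mu G) :=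
    (i1.sub (iG.const_mul C)).congr (ae_of_all _ fun x => by simp [pa_lin])
  have j2 : Integrable (pa M G (aj M T) q') (M.mu G) :=
    (i2.sub (iT.const_mul C')).congr (ae_of_all _ fun x => by simp [pa_lin])
  have e1 : (fun x => pa M G (aj M T) q' x - pa M G (aj M T) q x) =ᵐ[M.mu G]
      pa M G (aj M T) (M.hs ψ) := hae.mono fun x hx => by
    have := KA.at_ch (hψ x hx).2.2
    beta_reduce
    rw [← pa_sub]
    simp only [pa, Mf.ev, this]
  have z := hb n M G T V _ σ ψ C₁ hG.toMet hT hL.toAn (fun x hx => ⟨(hψ x hx).1, (hψ x hx).2.1⟩)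
    ((j2.sub j1).congr e1)
  rw [← integral_congr_ae e1, integral_sub j2 j1] at z
  obtain ⟨-, -, rq, sq, -⟩ := (mINV n M G hG.toMet).1 T hT.toTen
  have iq : Integrable (M.dq G T) (M.mu G) :=
    (mMU n M G hG.toMet).2.2.2.2.1 ℝ _ sq.continuous
  have le : ∫ x, -(ρ * M.dq G T x) ∂M.mu G ≤ ∫ x, pa M G (aj M T) q' x ∂M.mu G := by
    refine integral_mono_ae (iq.const_mul _).neg j2 (hae.mono fun x hx => ?_)
    obtain ⟨a, h1, h2, h3⟩ := id hx
    have he := V.mem a
    have ht := (V.e a).map_source h1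
    have k := (((hA4 n ρ).1 (T (V.e a)) (σ a) _ (hT.sm.at he h1) (hT.pos.ev he ht)
      (KA.holN_of_on isOpen_ball (hL.hol a) h2)).2.2.2 h3 (hT.cl.ev he ht)
      (by simpa [Mf.ric, sub_eq_add_neg] using hR.at he h1))
    have p := ((hTOP n 0 0 M G _ hG hO).2.2.2 _ _ (den hTOP hG hT hO) hq'.ten x hx).2 _ he h1
    have g := hG.pos.at he h1
    beta_reduce at p ⊢
    rw [p, rq.at he h1, hq'.eq a _ h2 h3, ← Mf.herm_det g.1, div_ofReal_re, div_ofReal_re,
      ← mul_div_assoc, ← neg_div]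
    exact div_le_div_of_nonneg_right k (Mf.pd_det_re g).le
  rw [integral_neg, integral_const_mul] at le
  simp only [pa_lin]
  rw [integral_add (iG.const_mul C) j1, integral_const_mul]
  linarith

end Pool.Agent.Lib.RAA
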