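import Pool.Agent.Lib.RYA.Blue
import Pool.Agent.Lib.RY.K_At
import Pool.Agent.Lib.RY.B_TOP
import Pool.Agent.Lib.RY.B_CH2
import Pool.Agent.Lib.RY.B_X0

/-! Project ra2, step A: equality in the key inequality. -/

open scoped Classical Topology ContDiff ComplexOrder Matrix ENNReal
open Set MeasureTheory Complex Metric Filter

noncomputable section

namespace Pool.Agent.Lib.RAA

open Pool.Agent.Lib.SV (E)
open Pool.Agent.Lib.HS32 Pool.Agent.Lib.RA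

namespace Q81

theorem eq_of_le {X : Type} [TopologicalSpace X] [MeasurableSpace X] [BorelSpace X]
    {μ : Measure X} [μ.IsOpenPosMeasure] {W : Set X} (hW : IsOpen W) (ha : ∀ᵐ x ∂μ, x ∈ W)
    {g₁ g₂ : X → ℝ} (c₁ : ContinuousOn g₁ W) (c₂ : ContinuousOn g₂ W) (h0 : ∀ x ∈ W, 0 ≤ g₂ x)
    (hle : ∀ x ∈ W, g₂ x ≤ g₁ x) (hi : Integrable g₂ μ)
    (h : ∫⁻ x, ENNReal.ofReal (g₁ x) ∂μ ≤ ENNReal.ofReal (∫ x, g₂ x ∂μ)) : EqOn g₁ g₂ W := by
  rw [ofReal_integral_eq_lintegral_ofReal hi (ha.mono h0)] at h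
  have hm : AEMeasurable g₁ μ := by
    have := c₁.aemeasurable (μ := μ) hW.measurableSet
    rwa [Measure.restrict_eq_self_of_ae_mem ha] at this
  have h1 := ae_eq_of_ae_le_of_lintegral_le
    (ha.mono fun x hx => ENNReal.ofReal_le_ofReal (hle x hx))
    hi.lintegral_lt_top.ne hm.ennreal_ofReal h
  refine Measure.eqOn_open_of_ae_eq (μ := μ) (ae_restrict_of_ae ?_) hW c₁ c₂
  filter_upwards [h1, ha] with x hx hw
  exact ((ENNReal.ofReal_eq_ofReal_iff (h0 x hw) ((h0 x hw).trans (hle x hw))).1 hx).symm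

variable {n : ℕ} {M : Mf n} {O O' : Set M.X} {G A S T : M.Fam (Mat n)}

theorem pa_add (x : M.X) : pa M G A (S + T) x = pa M G A S x + pa M G A T x := by
  simp only [pa, Mf.ev, Pi.add_apply, Matrix.mul_add, Matrix.trace_add, add_div, add_re]

theorem pa_sub (x : M.X) : pa M G A (S - T) x = pa M G A S x - pa M G A T x := by
  simp only [pa, Mf.ev, Pi.sub_apply, Matrix.mul_sub, Matrix.trace_sub, sub_div, sub_re]

theorem ten_mono (h : TenOn M O T) (s : O' ⊆ O) : TenOn M O' T :=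
  ⟨fun x hx => h.sm x (s hx), fun e he e' he' x a b c => h.cmp e he e' he' x a b (s c)⟩

theorem ten_of (h : M.Ten T) : TenOn M O T :=
  ⟨fun x _ => KA.at_of_all h.sm x, fun e he e' he' x a b _ => h.cmp e he e' he' x a b⟩

theorem den_top [M.Cpt] {φ : M.Fam ℝ} {r : ℕ} (h : Su M G φ r) (hO : IsOpen O) :
    DenOn M O (tA M r G (M.hw φ)) :=
  have c := h.wt.clo
  ((st_TOP st_CH2 n r r M G O h.kae hO).1 _ (ten_of c.toTen)
    fun _ _ _ he hx => ⟨c.herm.at he hx, c.cl.at he hx⟩).1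

/-- The good set. -/
def gs (M : Mf n) (φ : M.Fam ℝ) (r : ℕ) (f : M.X → ℝ) (V : M.Cov) {ι : Type}
    (σ : Fin V.r → E n → ι → ℂ) : Set M.X := {x | x ∈ gd M V σ ∧ x ∈ X0 M (M.hw φ) r ∧ f x ≠ 0}

theorem gs_good [M.Cpt] (hC : St_CHI) (h1 : St_FB1) {φ : M.Fam ℝ} {r ρ m : ℕ} {f : M.X → ℝ}
    {V : M.Cov} {ι : Type} [Fintype ι] {σ : Fin V.r → E n → ι → ℂ} (h : Su M G φ r)
    (ho : Od M φ ρ m) (hf : Fn M G φ r ρ m f) (ha : An M V σ) :
    IsOpen (gs M φ r f V σ) ∧ ∀ᵐ x ∂M.mu G, x ∈ gs M φ r f V σ := by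
  obtain ⟨o1, o2, -⟩ := (hC n M G V h.kae.toMet).2.2 ι σ ha
  obtain ⟨-, s, a⟩ := h1 n r ρ m M G φ f h ho hf
  have o3 := (st_X0 n M φ r h.wt h.an h.le).1
  refine ⟨isOpen_iff_mem_nhds.2 fun x hx => ?_, ?_⟩
  · filter_upwards [o1.mem_nhds hx.1, o3.mem_nhds hx.2.1,
      (KA.smAt_cont (s x hx.2.1)).eventually_ne hx.2.2] with y a b c using ⟨a, b, c⟩
  · filter_upwards [a, (mem_ae_iff.2 o2 : ∀ᵐ x ∂M.mu G, x ∈ gd M V σ)] with x a b using ⟨b, a⟩

end Q81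

open Q81

theorem st_EQ (hP : St_POS) (h5 : St_A5b) (h6 : St_A6d) (h1 : St_FB1) (h2 : St_FB2)
    (hC : St_CHI) : St_EQ := by
  intro n r ρ m M _ G q φ f V F σ C hr h ho hf hl hC0 hq hQ x₀ a₀ b₀ c₀
  obtain ⟨hW, ha⟩ := gs_good hC h1 h ho hf hl.toAn
  obtain ⟨i6, p6, l6⟩ := h6 n r ρ M G q φ V σ C hr h hC0 hl.toLn hq hQ
  obtain ⟨C₀, b2⟩ := h2 n r ρ m M G φ f h ho hf
  have sf := (h1 n r ρ m M G φ f h ho hf).2.1
  have T := st_TOP st_CH2 n r r M G _ h.kae hW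
  have dA := den_top h hW
  have tg : TenOn M (gs M φ r f V σ) (hg M f) := (T.2.2.1 _ fun x hx =>
    KA.smAt_comp (K := Real.log) (Real.contDiffAt_log.2 hx.2.2) (sf x hx.2.1)).1
  have ct : ∀ S, TenOn M (gs M φ r f V σ) S →
      ContinuousOn (pa M G (tA M r G (M.hw φ)) S) (gs M φ r f V σ) := fun S hS x hx =>
    (KA.smAt_cont (T.2.2.2 _ S dA hS x hx).1).continuousWithinAt
  have df : ∀ x, pa M G (tA M r G (M.hw φ)) (hg M f + C • G) x =
      pa M G (tA M r G (M.hw φ)) (hg M f - q) x + pa M G (tA M r G (M.hw φ)) (C • G + q) x :=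
    fun x => by rw [← pa_add, sub_add_add_cancel]
  have ps : ∀ x ∈ gs M φ r f V σ, 0 ≤ pa M G (tA M r G (M.hw φ)) (hg M f - q) x := by
    rintro x ⟨⟨a, s, b, c⟩, d, e⟩
    have := hP n r ρ m M G q φ f V F σ h ho hf hl hq a _ b c
    rw [(V.e a).left_inv s] at this
    exact (this d e).1
  have le : ∀ x ∈ gs M φ r f V σ, pa M G (tA M r G (M.hw φ)) (C • G + q) x ≤
      pa M G (tA M r G (M.hw φ)) (hg M f + C • G) x := fun x hx => by
    rw [df]; exact le_add_of_nonneg_left (ps x hx)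
  have i5 := h5 n r m M G φ f C C₀ h hC0.le hf.nn (fun x hx => ⟨sf x hx, b2 x hx⟩)
    (ha.mono fun x hx => ⟨hx.2.2, (p6 x hx.1).1.trans (le x hx)⟩)
  have c2 := ct _ (ten_mono hQ.ten fun x hx => hx.1)
  have c1 : ContinuousOn (pa M G (tA M r G (M.hw φ)) (hg M f + C • G)) (gs M φ r f V σ) :=
    (((ct _ tg).sub (ct _ (ten_mono hq.ten fun x hx => hx.1))).add c2).congr fun x _ => by
      rw [df, pa_sub]; rfl
  have := (mMU n M G h.kae.toMet).2.2.1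
  have e := eq_of_le hW ha c1 c2 (fun x hx => (p6 x hx.1).1) le i6
    (i5.trans (ENNReal.ofReal_le_ofReal l6)) ⟨a₀, b₀, c₀⟩
  rwa [df, add_eq_right] at e

end Pool.Agent.Lib.RAA
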