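import Pool.Agent.Lib.RYA.Blue
import Pool.Agent.Lib.RAA.T_TOP
import Pool.Agent.Lib.RY.B_PCOV
import Pool.Agent.Lib.RY.K_At

/-! Project ra2, step A, row FB2: the bound for the squared norm. -/

open scoped Classical Topology ContDiff ComplexOrder Matrix
open Set Complex Metric Filter

set_option linter.unusedVariables false

noncomputable section

namespace Pool.Agent.Lib.RAA

open Pool.Agent.Lib.SV (E)
open Pool.Agent.Lib.HS32 Pool.Agent.Lib.RA

theorem st_FB2 (hXI : St_XI) (hFL : St_FL) : St_FB2 := by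
  intro n r ρ m M G φ f _ hS hO hF
  have hG := hS.kae.toMet
  have hC := hS.wt.clo
  obtain ⟨K₀, K0, hK, -⟩ := (mBD n M G hG).1 _ hC.toForm
  have hK' := hK.trans (hG.le_smul (le_max_left K₀ 1))
  obtain ⟨V, hV, -⟩ := st_PCOV n M φ (fun _ => univ) hS.an fun _ => univ_mem
  choose F hP using hV
  have sb : ∀ a, closedBall (V.c a) (V.ρ a) ⊆ ball (V.c a) (4 * V.ρ a) := fun a =>
    closedBall_subset_ball (by linarith [V.pos a])
  have st : ∀ a, ball (V.c a) (4 * V.ρ a) ⊆ (V.e a).target := fun a =>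
    ball_subset_closedBall.trans (V.sub a)
  choose B B0 hB using fun a => BBD.up (isCompact_closedBall (V.c a) (V.ρ a))
    (f := fun w => fl ρ m (G (V.e a) w)⁻¹ (G (V.e a) w)⁻¹ (bt ρ m (F a) (dg w))) fun z hz => by
      have h1 := (hG.sm _ (V.mem a) z (st a (sb a hz))).inv (hG.det_ne _ (V.mem a) z (st a (sb a hz)))
      exact ((hFL n ρ m _ (Fin n)).2.2.2.2 _ _ _ z h1 h1 fun i j => PK.cd_dg (PK.hn_of_on isOpen_ball
        ((hXI n ρ _ _ _ (hP a).hol).2.1 m i j) (PK.dg_mem_ball.2 (sb a hz)))).continuousAt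
  refine ⟨(max K₀ 1 ^ r) ^ m * ∑ a, B a, fun x hx => ?_⟩
  obtain ⟨a, h1, h2, -⟩ := V.cov x
  have he := V.mem a
  have h3 := ball_subset_closedBall h2
  have pd := hG.pos.at he h1
  have ps : (M.hw φ (V.e a) (V.e a x)).PosSemidef := by simpa using hS.psd.at he h1
  have rk : (M.hw φ (V.e a) (V.e a x)).rank = r := (KA.rank_ev hC.toTen he h1).symm.trans hx
  have tp := RA28.top pd ps rk.le
  have e1 : tD M r G (M.hw φ) x = RA28.topA r (G (V.e a) (V.e a x)) (M.hw φ (V.e a) (V.e a x)) := by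
    rw [tD, Mf.ev, Mf.ev, hG.cmp _ he _ (Mf.ch_mem x) x h1 (Mf.mem_ch x),
      hC.cmp _ he _ (Mf.ch_mem x) x h1 (Mf.mem_ch x),
      RA28.topA_conj _ _ _ (KA.det_J he (Mf.ch_mem x) h1 (Mf.mem_ch x))]
  obtain ⟨Y, y1, y2, y3⟩ := ((st_TOP1 n r _ _ pd ps rk.le).2.2.2.2.2.2.2 _ (le_max_right K₀ 1)
    (hK'.at he h1)).1 rk
  have a0 := tp.pos.2 rk
  have d0 := Mf.pd_det_re pd
  rw [(TTop.cd_eq pd ps rk.le).1, tp.dA, re_ofReal_mul, mul_div_mul_right _ _ d0.ne'] at y3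
  have e2 := hF.rep _ _ _ _ ⟨he, st a, hP a⟩ _ (sb a h3) rk Y y2
  rw [(V.e a).left_inv h1] at e2
  have e3 := ((hFL n ρ m _ (Fin n)).2.2.1 Y _ (bt ρ m (F a) (dg (V.e a x))) pd.inv.posSemidef
    y1).2.1 _ _ (by positivity) y3
  rw [← e2, div_pow, div_mul_eq_mul_div, le_div_iff₀ (by positivity)] at e3
  rw [e1]
  refine e3.trans (mul_le_mul_of_nonneg_left ((hB a _ h3).trans ?_) (by positivity))
  exact Finset.single_le_sum (fun b _ => (B0 b).le) (Finset.mem_univ a)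

end Pool.Agent.Lib.RAA
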