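import Pool.Agent.Lib.RYA.Blue
import Pool.Agent.Lib.HS32.MAll

open scoped Classical Topology ContDiff ComplexOrder Matrix Kronecker ENNReal
open Set MeasureTheory Complex Metric Filter Module

set_option linter.unusedVariables false

noncomputable section

namespace Pool.Agent.Lib.RAA

open Pool.Agent.Lib.SV (E)
open Pool.Agent.Lib.HS32 Pool.Agent.Lib.RA

namespace FG

theorem one (hNF : St_NF) (hFL : St_FL) (hSPN : St_SPN) {n r ρ m : ℕ} {F : E n × E n → ℂ}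
    {c : E n} {R : ℝ} {z : E n} (hL : Loc F c R r ρ m) (hz : z ∈ ball c R)
    (hr : (Gm F (dg z)).rank = r) {W : Mat n} (hW : W.PosSemidef) :
    ∃ v : ℝ, 0 ≤ v ∧ ∀ Y : Mat n, Gm F (dg z) * Y * Gm F (dg z) = Gm F (dg z) →
      fl ρ m Y W (bt ρ m F (dg z)) = v := by
  have hp := hL.psd z hz
  obtain ⟨J, hJ0⟩ := (hSPN n).2.1 r _ hp.1 hr
  obtain ⟨B, hB⟩ := hNF n r ρ m F c R z J hL hz hJ0
  refine ⟨fl ρ m (hJ F J z) W (B (pJ F J z)),
    ((hFL n ρ m (Fin r) (Fin r)).2.2.1 _ _ _ hW (hp.submatrix J)).1, fun Y hY => ?_⟩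
  rw [hB.eq.self_of_nhds, (hFL n ρ m (Fin n) (Fin r)).1]
  congr 1
  have e : ((Gm F (dg z)).submatrix id J)ᴴ = (Gm F (dg z)).submatrix J id := by
    rw [Matrix.conjTranspose_submatrix, hp.1.eq]
  rw [e]
  have e2 : (Gm F (dg z)).submatrix J id * Y * (Gm F (dg z)).submatrix id J =
      (Gm F (dg z) * Y * Gm F (dg z)).submatrix J J := by
    ext i l
    simp [Matrix.mul_apply]
  rw [e2, hY]
  rfl

theorem inv {n : ℕ} {J K G : Mat n} (h1 : J * K = 1) (h2 : K * J = 1) (hG : IsUnit G.det) :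
    J * (Jᴴ * G * J)⁻¹ * Jᴴ = G⁻¹ := by
  have h3 : Jᴴ * Kᴴ = 1 := by rw [← Matrix.conjTranspose_mul, h2, Matrix.conjTranspose_one]
  have h4 : Kᴴ * Jᴴ = 1 := by rw [← Matrix.conjTranspose_mul, h1, Matrix.conjTranspose_one]
  have e : (Jᴴ * G * J)⁻¹ = K * G⁻¹ * Kᴴ := by
    apply Matrix.inv_eq_right_inv
    calc Jᴴ * G * J * (K * G⁻¹ * Kᴴ) = Jᴴ * (G * ((J * K) * G⁻¹)) * Kᴴ := by
          simp only [Matrix.mul_assoc]
      _ = 1 := by rw [h1, Matrix.one_mul, Matrix.mul_nonsing_inv _ hG, Matrix.mul_one, h3]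
  rw [e]
  calc J * (K * G⁻¹ * Kᴴ) * Jᴴ = (J * K) * G⁻¹ * (Kᴴ * Jᴴ) := by simp only [Matrix.mul_assoc]
    _ = G⁻¹ := by rw [h1, h4, Matrix.one_mul, Matrix.mul_one]

theorem gen {n : ℕ} {J K H Y : Mat n} (h1 : J * K = 1)
    (h : Jᴴ * H * J * Y * (Jᴴ * H * J) = Jᴴ * H * J) : H * (J * Y * Jᴴ) * H = H := by
  have h4 : Kᴴ * Jᴴ = 1 := by rw [← Matrix.conjTranspose_mul, h1, Matrix.conjTranspose_one]
  calc H * (J * Y * Jᴴ) * H = (Kᴴ * Jᴴ) * (H * (J * Y * Jᴴ) * H) * (J * K) := by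
        rw [h1, h4, Matrix.one_mul, Matrix.mul_one]
    _ = Kᴴ * (Jᴴ * H * J * Y * (Jᴴ * H * J)) * K := by simp only [Matrix.mul_assoc]
    _ = (Kᴴ * Jᴴ) * H * (J * K) := by rw [h]; simp only [Matrix.mul_assoc]
    _ = H := by rw [h1, h4, Matrix.one_mul, Matrix.mul_one]

end FG

theorem st_FG (hORD : St_ORD) (hNF : St_NF) (hPT : St_PT) (hFL : St_FL) (hSPN : St_SPN) :
    St_FG := by
  intro n r ρ m M G φ _ hS hO
  have hG : M.Met G := hS.kae.toMet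
  obtain ⟨-, -, h3⟩ := hORD n r M G φ hS
  let P : M.X → ℝ → Prop := fun x v => ∃ e c R F z Y, Po M φ e c R F ∧ z ∈ ball c R ∧
    e.symm z = x ∧ (M.hw φ e z).rank = r ∧ M.hw φ e z * Y * M.hw φ e z = M.hw φ e z ∧
    v = fl ρ m Y (G e z)⁻¹ (bt ρ m F (dg z))
  have k1 : ∀ e c R F, Po M φ e c R F → ∀ z ∈ ball c R, (M.hw φ e z).rank = r →
      ∃ v : ℝ, 0 ≤ v ∧ ∀ Y : Mat n, M.hw φ e z * Y * M.hw φ e z = M.hw φ e z →
        fl ρ m Y (G e z)⁻¹ (bt ρ m F (dg z)) = v := by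
    intro e c R F hP z hz hr
    obtain ⟨a1, a2⟩ := h3 e c R F hP
    rw [← a1 z hz] at hr ⊢
    exact FG.one hNF hFL hSPN (a2 ρ m hO) hz hr
      (hG.pos e hP.mem z (hP.sub hz)).inv.posSemidef
  have k2 : ∀ x v v', P x v → P x v' → v = v' := by
    rintro x v v' ⟨e, c, R, F, z, Y, hP, hz, hx, hr, hY, rfl⟩
      ⟨e', c', R', F', z', Y', hP', hz', hx', hr', hY', rfl⟩
    have s1 : x ∈ e.source := hx ▸ e.map_target (hP.sub hz)
    have s2 : x ∈ e'.source := hx' ▸ e'.map_target (hP'.sub hz')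
    have z1 : e x = z := hx ▸ e.right_inv (hP.sub hz)
    have z2 : e' x = z' := hx' ▸ e'.right_inv (hP'.sub hz')
    subst z1 z2
    obtain ⟨w, -, hw⟩ := k1 e c R F hP _ hz hr
    have t1 := ((mTR n M).2.1 e hP.mem e' hP'.mem x s1 s2).2.2.1
    have t2 := ((mTR n M).2.1 e' hP'.mem e hP.mem x s2 s1).2.2.1
    have c1 := (hS.wt.clo).cmp e hP.mem e' hP'.mem x s1 s2
    have c2 := hG.cmp e hP.mem e' hP'.mem x s1 s2
    have b := ((hPT n M φ e e' c c' R R' F F' x hS.wt hP hP' s1 s2 hz hz').2 ρ m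
      (hO.low e c R F hP _ ?_)).2
    · rw [hw Y hY, b, (hFL n ρ m (Fin n) (Fin n)).2.1, (hFL n ρ m (Fin n) (Fin n)).1, c2,
        FG.inv t1 t2 ((Matrix.isUnit_iff_isUnit_det _).1 (hG.pos e hP.mem _ (hP.sub hz)).isUnit),
        Matrix.conjTranspose_conjTranspose]
      rw [c1] at hY'
      exact (hw _ (FG.gen t1 hY')).symm
    · exact PK.dg_mem_ball.2 hz
  refine ⟨fun x => if h : ∃ v, P x v then h.choose else 0, fun x => ?_, ?_⟩
  · show 0 ≤ (if h : ∃ v, P x v then h.choose else 0)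
    split_ifs with h
    · obtain ⟨e, c, R, F, z, Y, hP, hz, hx, hr, hY, hv⟩ := h.choose_spec
      obtain ⟨w, w0, hw⟩ := k1 e c R F hP z hz hr
      rw [hv, hw Y hY]
      exact w0
    · exact le_rfl
  · intro e c R F hP z hz hr Y hY
    have p : P (e.symm z) (fl ρ m Y (G e z)⁻¹ (bt ρ m F (dg z))) :=
      ⟨e, c, R, F, z, Y, hP, hz, rfl, hr, hY, rfl⟩
    have h : ∃ v, P (e.symm z) v := ⟨_, p⟩
    show (if h : ∃ v, P (e.symm z) v then h.choose else 0) = _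
    rw [dif_pos h]
    exact k2 _ _ _ h.choose_spec p

end Pool.Agent.Lib.RAA
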