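import Pool.Agent.Lib.RYA.Blue
import Pool.Agent.Lib.RAA.K21

/-! The key inequality along the kernel. -/

open scoped Classical Topology ContDiff ComplexOrder Matrix Kronecker
open Set Complex Metric Filter

set_option linter.unusedVariables false

noncomputable section

namespace Pool.Agent.Lib.RAA

open Pool.Agent.Lib.SV (E)
open Pool.Agent.Lib.HS32 Pool.Agent.Lib.RA

namespace KEY

theorem hl_mul {n : ℕ} {f g h : E n → ℝ} {z : E n} (e : ∀ᶠ w in 𝓝 z, f w = g w * h w)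
    (hg : ContDiffAt ℝ ∞ g z) (hh : ContDiffAt ℝ ∞ h z) (h0 : f z ≠ 0) :
    hl f z - hl h z = hl g z := by
  rw [e.self_of_nhds] at h0
  have g0 := left_ne_zero_of_mul h0
  have k0 := right_ne_zero_of_mul h0
  rw [sub_eq_iff_eq_add, hl, hl, hl, ← hess_add (cd_ofReal (hg.log g0)) (cd_ofReal (hh.log k0))]
  refine hess_congr ?_
  filter_upwards [e, hg.continuousAt.eventually_ne g0, hh.continuousAt.eventually_ne k0]
    with w h1 h2 h3
  rw [h1, Real.log_mul h2 h3, ofReal_add]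

theorem zero_of {r : ℕ} {α P : Mat r} (hP : P.PosDef) (h : α * P * αᴴ = 0) : α = 0 := by
  ext i j
  have e : (fun l => star (α i l)) = 0 := by
    by_contra hne
    have := hP.dotProduct_mulVec_pos hne
    refine this.ne' (Eq.trans ?_ (congrFun (congrFun h i) i))
    rw [Matrix.mul_assoc, Matrix.mul_apply]
    refine Finset.sum_congr rfl fun l _ => ?_
    simp [Matrix.mulVec, dotProduct, Matrix.mul_apply]
  exact star_eq_zero.1 (congrFun e j)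

end KEY

theorem st_KEY (hRIC : St_RIC) (hFL : St_FL) (hA4 : St_A4) : St_KEY := by
  intro n r ρ m F c R z₀ J B T s f hL hz hd hN hT hTp hs hs0 hx hf hf0
  obtain ⟨K, hK⟩ := Function.ne_iff.1 hs0
  have hK : s z₀ K ≠ 0 := hK
  have hz' := PK.dg_mem_ball.2 hz
  have hsa : AnalyticAt ℂ (fun w => s w K) z₀ := analyticAt_pi_iff.1 (R21.an_of_hn hs) K
  have hb : ∀ g, AnalyticAt ℂ (fun q : E n × E r => B q g K / s q.1 K) (pJ F J z₀) := fun g =>
    (hN.an g K).div (AnalyticAt.comp (g := fun w => s w K) hsa analyticAt_fst) hK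
  have ric := fun v => hRIC n r F z₀ v J (PK.hn_of_on isOpen_ball hL.hol hz')
    ((isOpen_ball.eventually_mem hz).mono hL.real) ((isOpen_ball.eventually_mem hz').mono hL.rk) hd
  obtain ⟨b, hbe⟩ : ∃ b : E n → (Fin m → Fin ρ × Fin r) → ℂ,
    b = fun w g => B (pJ F J w) g K / s w K := ⟨_, rfl⟩
  have hsm : SmI (hJ F J) z₀ := (ric 0 (Matrix.mulVec_zero _)).1
  have hbs : ∀ g, ContDiffAt ℝ ∞ (fun w => b w g) z₀ := fun g => by
    rw [hbe]
    exact ((ric 0 (Matrix.mulVec_zero _)).2.2 _ (hb g)).1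
  have hdet : ∀ᶠ w in 𝓝 z₀, (hJ F J w).det ≠ 0 := by
    refine ContinuousAt.eventually_ne ?_ hd
    exact (Continuous.matrix_det continuous_id).continuousAt.comp
      (continuousAt_pi.2 fun i => continuousAt_pi.2 fun j => (hsm i j).continuousAt)
  have hpd : ∀ᶠ w in 𝓝 z₀, (hJ F J w).PosDef := by
    filter_upwards [isOpen_ball.eventually_mem hz, hdet] with w h1 h2
    exact K21.pd_of_det ((hL.psd w h1).submatrix J) h2
  have hpd1 : ∀ᶠ w in 𝓝 z₀, ((1 : Matrix (Fin ρ) (Fin ρ) ℂ) ⊗ₖ hJ F J w).PosDef :=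
    hpd.mono fun w hw => Matrix.PosDef.one.kronecker hw
  have hpd2 : ∀ᶠ w in 𝓝 z₀, (kp m ((1 : Matrix (Fin ρ) (Fin ρ) ℂ) ⊗ₖ hJ F J w)).PosDef :=
    hpd1.mono fun w hw => ((st_KQ m _ (Fin r) (Fin r)).2.2.2.2.1 _).2 fun _ => hw
  have hfe : ∀ᶠ w in 𝓝 z₀, f w =
      hq (kp m ((1 : Matrix (Fin ρ) (Fin ρ) ℂ) ⊗ₖ hJ F J w)) (b w) * un ρ T s w := by
    filter_upwards [hf, hx, hN.line, hpd, hTp, hsa.continuousAt.eventually_ne hK]
      with w h1 h2 h3 h4 h5 h6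
    obtain ⟨x, h7, h8⟩ := h2
    have h9 : B (pJ F J w) = Matrix.vecMulVec (b w) (s w) := by
      ext g K'
      obtain ⟨μ, hμ⟩ := h3 x h7 (fun e => h6 (by rw [h8, e]; rfl)) g
      rw [← h8] at hμ
      rw [Matrix.vecMulVec_apply, hbe]
      simp only [hμ, Pi.smul_apply, smul_eq_mul]
      rw [mul_div_cancel_right₀ _ h6]
    rw [h1, h9, (hFL n ρ m (Fin r) (Fin r)).2.2.2.1 _ _ _ _ h4.1 h5.inv.1, un,
      Matrix.transpose_nonsing_inv]
    rfl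
  have ten := fun v => st_TEN0 n _ _ b z₀ v (st_TEN1 n m ρ (Fin ρ × Fin r)
    (fun w => (1 : Matrix (Fin ρ) (Fin ρ) ℂ) ⊗ₖ hJ F J w) z₀ v
    (st_TEN1 n m ρ (Fin r) _ z₀ v hsm hd).2.2.1 hpd1.self_of_nhds.det_pos.ne').1 hpd2 hbs
  have hN0 := hfe.self_of_nhds ▸ hf0
  have hN1 := left_ne_zero_of_mul hN0
  have hb0 : b z₀ ≠ 0 := fun e => hN1 (by simp [e, hq])
  rw [KEY.hl_mul hfe (ten 0).1 ((hA4 n ρ).1 T s z₀ hT hTp hs).1 hf0]
  refine ⟨hess_herm ((ten 0).1.log hN1), fun v hv => ?_⟩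
  obtain ⟨-, hc, hr⟩ := ric v hv
  have t3 := (ten v).2 (fun g => by rw [hbe]; exact (hr _ (hb g)).2) hb0
  obtain ⟨-, -, s1, c1⟩ := st_TEN1 n m ρ (Fin r) _ z₀ v hsm hd
  rw [(st_TEN1 n m ρ (Fin ρ × Fin r) (fun w => (1 : Matrix (Fin ρ) (Fin ρ) ℂ) ⊗ₖ hJ F J w) z₀ v s1
    hpd1.self_of_nhds.det_pos.ne').2.1, c1] at t3
  have hP : (((hJ F J z₀)⁻¹)ᵀ).PosDef := hpd.self_of_nhds.inv.transpose
  have hT0 : (cv (hJ F J) v z₀).PosSemidef := by
    rw [hc]; exact hP.posSemidef.mul_mul_conjTranspose_same _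
  have hA : ((1 : Matrix (Fin ρ) (Fin ρ) ℂ) ⊗ₖ cv (hJ F J) v z₀).PosSemidef :=
    Matrix.PosSemidef.one.kronecker hT0
  have p1 := K21.hq_pos hpd2.self_of_nhds hb0
  have p2 := K21.hq_nonneg (K21.der_psd (m := m) hpd1.self_of_nhds hA) (b z₀)
  refine ⟨(div_nonneg p2 p1.le).trans t3, fun h0 => KEY.zero_of hP (hc ▸ ?_)⟩
  have p3 := t3.trans h0.le
  rw [div_le_iff₀ p1, zero_mul] at p3
  by_contra hne
  refine hb0 (K21.tensor_zero _ _ hne (fun ξ hξ t ht => ?_)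
    ((st_KQ m _ (Fin r) (Fin r)).2.2.2.2.2.2.2.2 _ _ _ hpd1.self_of_nhds hA (le_antisymm p3 p2)))
  simp only [hbe, div_mul_eq_mul_div, ← Finset.sum_div]
  rw [hN.hyp ξ hξ t ht K, zero_div]

end Pool.Agent.Lib.RAA
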