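import Pool.Agent.Lib.RYA.Blue
import Pool.Agent.Lib.RY.B_PCOV

/-! The field of lines. -/

open scoped Classical Topology ContDiff ComplexOrder Matrix Kronecker ENNReal
open Set MeasureTheory Complex Metric Filter Module

set_option linter.unusedVariables false

noncomputable section

namespace Pool.Agent.Lib.RAA

open Pool.Agent.Lib.SV (E)
open Pool.Agent.Lib.HS32 Pool.Agent.Lib.RA Pool.Agent.Lib.RA.PK
open Pool.Agent.Lib.MP_7fcda1_ag (pl)

namespace LN

variable {n ρ : ℕ}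

theorem diff_pl {x : E n → Fin ρ → E n} {z : E n} (h : ∀ i l, DifferentiableAt ℂ (x · i l) z) :
    DifferentiableAt ℂ (fun w => pl (x w)) z := by
  refine differentiableAt_pi.2 fun K => ?_
  simp only [pl, Matrix.det_apply', Matrix.of_apply]
  exact DifferentiableAt.fun_sum fun s _ => (differentiableAt_const _).mul
    (HasFDerivAt.finsetProd fun i _ => (h _ _).hasFDerivAt).differentiableAt

theorem diff_pz {F : E n × E n → ℂ} {c z u : E n} {R : ℝ}
    (h : DifferentiableOn ℂ F (ball (dg c) R)) (hz : z ∈ ball c R) (hu : u ∈ ball (star c) R)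
    (l : Fin n) : DifferentiableAt ℂ (fun w => pz F (w, u) l) z :=
  DifferentiableAt.comp (g := fun y => pz F y l) (f := fun w => (w, u)) z
    (hn_at (hn_pz (hn_of_on isOpen_ball h (mk_mem_ball.2 ⟨hz, hu⟩)) l)) (by fun_prop)

end LN

theorem st_LN (hXI : St_XI) (hPT : St_PT) (hSPN : St_SPN) : St_LN := by
  intro n r ρ m M _ G φ hS hO
  obtain ⟨V, hV, -⟩ := st_PCOV n M φ (fun _ => univ) hS.an fun _ => univ_mem
  choose F hF using hV
  have po : ∀ a, Po M φ (V.e a) (V.c a) (4 * V.ρ a) (F a) := fun a =>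
    ⟨V.mem a, ball_subset_closedBall.trans (V.sub a), hF a⟩
  choose z hz hb using fun a => hO.ex _ _ _ _ (po a) (by linarith [V.pos a])
  choose t ht hx using fun a => (hXI n ρ (F a) _ _ (hF a).hol).2.2.2.2.2 m (z a) (hz a) (hb a)
  have hz' : ∀ a, star (z a) ∈ ball (star (V.c a)) (4 * V.ρ a) := fun a => star_mem_ball.2 (hz a)
  set x : Fin V.r → E n → Fin ρ → E n :=
    fun a w i => pz (F a) (w, star (z a) + t a i) - pz (F a) (w, star (z a)) with hx'
  have mem : ∀ a w i, x a w i ∈ Ee (F a) (V.c a) (4 * V.ρ a) w := fun a w i =>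
    Submodule.subset_span ⟨_, ht a i, _, hz' a, rfl⟩
  refine ⟨V, F, fun a w => pl (x a w), ⟨⟨fun a w hw => ?_, fun a => ⟨z a, hz a, hx a⟩⟩,
    fun a b y ha hb ha' hb' h0 => ?_⟩, po, fun a w _ => ⟨x a w, mem a w, rfl⟩⟩
  · exact (LN.diff_pl fun i l => (LN.diff_pz (hF a).hol hw (ht a i) l).sub
      (LN.diff_pz (hF a).hol hw (hz' a) l)).differentiableWithinAt
  · choose w hw e using fun i =>
      (hPT n M φ _ _ _ _ _ _ _ _ y hS.wt (po a) (po b) ha hb ha' hb').1 _ (mem b (V.e b y) i)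
    obtain ⟨μ, hμ⟩ := ((hSPN n).2.2.2 ρ _ _ (mem a (V.e a y)) h0).2 (hO.dim _ _ _ _ (po a) _ ha')
      w hw
    refine ⟨μ, ?_⟩
    rw [show x b (V.e b y) = fun i => w i ᵥ* M.J (V.e a) (V.e b) y from funext e,
      (hSPN n).2.2.1, hμ, Matrix.smul_vecMul]

end Pool.Agent.Lib.RAA
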