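import Pool.Agent.Lib.RYA.Blue
import Pool.Agent.Lib.RAA.T_LO
import Pool.Agent.Lib.RA.T_FIB
import Pool.Agent.Lib.RA.T_DV
import Pool.Agent.Lib.RY.B_PZ

/-! Project ra2, step A, row NF: the normal form of the exterior product. -/

open scoped Classical Topology ContDiff ComplexOrder Matrix Kronecker ENNReal
open Set MeasureTheory Complex Metric Filter Module

set_option linter.unusedVariables false
set_option linter.unusedSectionVars false

noncomputable section

namespace Pool.Agent.Lib.RAA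

open Pool.Agent.Lib.SV (E)
open Pool.Agent.Lib.HS32 Pool.Agent.Lib.RA
open Pool.Agent.Lib.MP_7fcda1_ag (pl)

namespace NF

variable {n r ρ m : ℕ}

theorem an_pl {X : Type} [NormedAddCommGroup X] [NormedSpace ℂ X] {x : X → Fin ρ → E n} {p : X}
    (h : ∀ b, AnalyticAt ℂ (fun q => x q b) p) : AnalyticAt ℂ (fun q => pl (x q)) p := by
  refine analyticAt_pi_iff.2 fun K => ?_
  simp only [pl, Matrix.det_apply', Matrix.of_apply]
  exact Finset.analyticAt_fun_sum _ fun σ _ => analyticAt_const.fun_mul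
    (Finset.analyticAt_fun_prod _ fun i _ => analyticAt_pi_iff.1 (h _) _)

theorem sum_sl (t : Fin ρ × Fin r → ℂ) : (fun b l => t (b, l)) = ∑ p, t p • sl p := by
  funext b l
  simp only [Finset.sum_apply, Pi.smul_apply, sl, smul_eq_mul]
  rw [Finset.sum_eq_single (b, l)]
  · simp
  · rintro ⟨b', l'⟩ _ h
    by_cases hb : b = b'
    · subst hb
      have : l ≠ l' := fun e => h (by rw [e])
      simp [Pi.single_eq_of_ne this]
    · simp [Pi.single_eq_of_ne hb]
  · simp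

section gen

variable {X V : Type} [NormedAddCommGroup X] [NormedSpace ℂ X] [CompleteSpace X]
  [NormedAddCommGroup V] [NormedSpace ℂ V] [CompleteSpace V]

theorem expand (T : ContinuousMultilinearMap ℂ (fun _ : Fin m => Fin ρ → E r) V)
    (t : Fin m → Fin ρ × Fin r → ℂ) : T (fun i b l => t i (b, l)) =
      ∑ f : Fin m → Fin ρ × Fin r, (∏ i, t i (f i)) • T fun i => sl (f i) := by
  rw [show (fun i b l => t i (b, l)) = fun i => ∑ p, t i p • sl p from funext fun i => sum_sl _,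
    T.map_sum]
  simp only [T.map_smul_univ]

theorem iter_zero {g : X → V} {x : X} (h : ∀ᶠ y in 𝓝 x, g y = 0) (k : ℕ) :
    iteratedFDeriv ℂ k g x = 0 := by
  rw [(Filter.EventuallyEq.iteratedFDeriv ℂ (f₂ := fun _ => (0 : V)) h k).self_of_nhds,
    iteratedFDeriv_fun_zero]
  rfl

/-- The derivative of the lowest order vanishes on a subspace on which the map vanishes. -/
theorem restrict {g : X → V} (hg : AnalyticAt ℂ g 0) (h : ∀ k < m, iteratedFDeriv ℂ k g 0 = 0)
    (v : Fin m → X) (h0 : ∀ᶠ s : Fin m → ℂ in 𝓝 0, g (∑ i, s i • v i) = 0) :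
    iteratedFDeriv ℂ m g 0 v = 0 := by
  let L : (Fin m → ℂ) →L[ℂ] X := ∑ i, (ContinuousLinearMap.proj i).smulRight (v i)
  have hL : ∀ s, L s = ∑ i, s i • v i := fun s => by simp [L]
  have h1 := ((st_LO (Fin m → ℂ) X V m).1 L g 0 (L.analyticAt 0) (by rwa [L.map_zero])
    (by rwa [L.map_zero])).2 fun i => Pi.single i 1
  rw [iter_zero (g := g ∘ L) (h0.mono fun s hs => by rwa [Function.comp, hL]), L.map_zero,
    L.fderiv] at h1
  have h2 : (fun i => L (Pi.single i 1)) = v := funext fun i => by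
    rw [hL]; simp [Pi.single_apply]
  rw [h2] at h1
  exact h1.symm

/-- The derivatives of a map with values in a line have their values in the line. -/
theorem line {ι : Type} [Fintype ι] {g : X → ι → ℂ} {q : ι → ℂ} (hg : AnalyticAt ℂ g 0)
    (hq : q ≠ 0) (h : ∀ᶠ x in 𝓝 0, ∃ μ : ℂ, g x = μ • q) (v : Fin m → X) :
    ∃ μ : ℂ, iteratedFDeriv ℂ m g 0 v = μ • q := by
  obtain ⟨K, hK⟩ := Function.ne_iff.1 hq
  have hK' : q K ≠ 0 := hK
  let L : (ι → ℂ) →L[ℂ] ι → ℂ :=
    ContinuousLinearMap.id ℂ _ - (ContinuousLinearMap.proj K).smulRight ((q K)⁻¹ • q)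
  have hL : ∀ u, L u = u - (u K * (q K)⁻¹) • q := fun u => by simp [L, smul_smul]
  have h1 := L.iteratedFDeriv_comp_left (hg.contDiffAt (n := m)) (i := m) le_rfl
  rw [iter_zero (g := L ∘ g) (h.mono ?_)] at h1
  · have h2 : L (iteratedFDeriv ℂ m g 0 v) = 0 := (DFunLike.congr_fun h1 v).symm
    rw [hL, sub_eq_zero] at h2
    exact ⟨_, h2⟩
  · rintro x ⟨μ, hμ⟩
    rw [Function.comp, hμ, hL, Pi.smul_apply, smul_eq_mul, mul_inv_cancel_right₀ hK', sub_self]

end gen

theorem onto {G : Mat n} {J : Fin r → Fin n} (h : (G.submatrix J J).det ≠ 0) (b : E r) :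
    ∃ w : E n, w ᵥ* G.submatrix id J = b := by
  refine ⟨(b ᵥ* (G.submatrix J J)⁻¹) ᵥ* (1 : Mat n).submatrix J id, ?_⟩
  have e : (1 : Mat n).submatrix J id * G.submatrix id J = G.submatrix J J := by
    rw [← Matrix.submatrix_mul _ _ _ id _ Function.bijective_id, Matrix.one_mul]
  rw [Matrix.vecMul_vecMul, e, Matrix.vecMul_vecMul,
    Matrix.nonsing_inv_mul _ (isUnit_iff_ne_zero.2 h), Matrix.vecMul_one]

/-- The point and `r` components of the gradient. -/
def Hm (F : E n × E n → ℂ) (J : Fin r → Fin n) (y : E n × E n) : E n × E r := (y.1, pz F y ∘ J)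

/-- The exterior product in the quotient. -/
def XP (ρ : ℕ) (P : E n × E r → E n) (a : E n × E r) (t : Fin ρ → E r) : (Fin ρ → Fin n) → ℂ :=
  pl fun b => P (a.1, a.2 + t b) - P a

/-- Restriction to the components in `J`. -/
def rs (J : Fin r → Fin n) : E n →L[ℂ] E r :=
  ContinuousLinearMap.pi fun i => ContinuousLinearMap.proj (J i)

variable {F : E n × E n → ℂ} {c : E n} {R : ℝ} {J : Fin r → Fin n} {P : E n × E r → E n}
  {y : E n × E n}

theorem an_Hm (h : Hn F y) : AnalyticAt ℂ (Hm F J) y :=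
  analyticAt_fst.prod (((rs J).analyticAt _).comp (ANB.analyticAt (PK.hn_pzv h)))

theorem fd_Hm (h : Hn F y) (v : E n × E n) :
    fderiv ℂ (Hm F J) y v = (v.1, fderiv ℂ (pz F) y v ∘ J) :=
  DFunLike.congr_fun (hasFDerivAt_fst.prodMk
    ((rs J).hasFDerivAt.comp y (PK.hn_at (PK.hn_pzv h)).hasFDerivAt)).fderiv v

theorem an_XP {a : E n × E r} (h : AnalyticAt ℂ P a) :
    AnalyticAt ℂ (fun q : (E n × E r) × (Fin ρ → E r) => XP ρ P q.1 q.2) (a, 0) := by
  refine an_pl fun b => AnalyticAt.sub (AnalyticAt.comp (g := P) (by simpa using h) ?_)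
    (AnalyticAt.comp (g := P) h analyticAt_fst)
  exact (analyticAt_fst.comp analyticAt_fst).prod ((analyticAt_snd.comp analyticAt_fst).add
    (((ContinuousLinearMap.proj b : (Fin ρ → E r) →L[ℂ] E r).analyticAt _).comp analyticAt_snd))

theorem an_XP0 {a : E n × E r} (h : AnalyticAt ℂ P a) : AnalyticAt ℂ (XP ρ P a) 0 :=
  AnalyticAt.comp (g := fun q : (E n × E r) × (Fin ρ → E r) => XP ρ P q.1 q.2)
    (f := fun t => (a, t)) (an_XP h) (analyticAt_const.prod analyticAt_id)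

/-- The gradient factors through the quotient near `y`. -/
structure Good (F : E n × E n → ℂ) (c : E n) (R : ℝ) (J : Fin r → Fin n) (P : E n × E r → E n)
    (y : E n × E n) : Prop where
  hn : Hn F y
  det : ((Gm F y).submatrix J J).det ≠ 0
  fac : ∀ᶠ x in 𝓝 y, pz F x = P (Hm F J x)
  an : AnalyticAt ℂ P (Hm F J y)
  sec : ∀ᶠ a in 𝓝 (Hm F J y), P a ∘ J = a.2 ∧ ∃ u ∈ ball (star c) R, P a = pz F (a.1, u)

theorem exists_good (hF : DifferentiableOn ℂ F (ball (dg c) R))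
    (hr : ∀ y ∈ ball (dg c) R, (Gm F y).rank ≤ r) (hy : y ∈ ball (dg c) R)
    (hd : ((Gm F y).submatrix J J).det ≠ 0) : ∃ P, ∀ᶠ x in 𝓝 y, Good F c R J P x := by
  have hn : Hn F y := PK.hn_of_on isOpen_ball hF hy
  have hdet : ∀ᶠ x in 𝓝 y, ((Gm F x).submatrix J J).det ≠ 0 := by
    have : ContinuousAt (fun x => ((Gm F x).submatrix J J).det) y :=
      (continuous_id.matrix_det.continuousAt (x := (Gm F y).submatrix J J)).comp
        (f := fun x => (Gm F x).submatrix J J) (continuousAt_pi.2 fun i => continuousAt_pi.2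
          fun l => (PK.hn_at (PK.hn_Gm hn _ _)).continuousAt)
    exact this.eventually_ne hd
  obtain ⟨s, hs, s0, s1, -, s2⟩ := st_FIB _ _ (Hm F J) y (an_Hm hn) (by
    rintro ⟨v, b⟩
    obtain ⟨w, hw⟩ := onto hd (b - fderiv ℂ (pz F) y (v, 0) ∘ J)
    refine ⟨(v, w), ?_⟩
    rw [fd_Hm hn, show (v, w) = (v, 0) + (0, w) by simp, map_add, PZ38.fd_pz hn]
    refine Prod.ext (by simp) ?_
    exact (congrArg (fderiv ℂ (pz F) y (v, 0) ∘ J + ·) hw).trans (add_sub_cancel _ _))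
  have fac := s2 _ (pz F) (by
    filter_upwards [PK.hn_ev hn, hdet, isOpen_ball.mem_nhds hy] with x h1 h2 h3
    refine ⟨PK.hn_at (PK.hn_pzv h1), fun ⟨v, w⟩ hv => ?_⟩
    rw [fd_Hm h1] at hv
    obtain rfl : v = 0 := congrArg Prod.fst hv
    have h4 : w ᵥ* (Gm F x).submatrix id J = 0 := by
      have := congrArg Prod.snd hv
      rwa [PZ38.fd_pz h1] at this
    rw [PZ38.fd_pz h1, R21.schur (Gm F x) J J (hr x h3) h2, ← Matrix.vecMul_vecMul,
      ← Matrix.vecMul_vecMul, h4, Matrix.zero_vecMul, Matrix.zero_vecMul])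
  have hP : AnalyticAt ℂ (pz F ∘ s) (Hm F J y) :=
    AnalyticAt.comp (by rw [s0]; exact ANB.analyticAt (PK.hn_pzv hn)) hs
  have sec : ∀ᶠ a in 𝓝 (Hm F J y), (pz F ∘ s) a ∘ J = a.2 ∧
      ∃ u ∈ ball (star c) R, (pz F ∘ s) a = pz F (a.1, u) := by
    filter_upwards [s1, hs.continuousAt.eventually
      (isOpen_ball.eventually_mem (by rwa [s0] : s (Hm F J y) ∈ ball (dg c) R))] with a h1 h2
    refine ⟨congrArg Prod.snd h1, (s a).2, (PK.mem_ball_dg.1 h2).2, ?_⟩
    rw [← show (s a).1 = a.1 from congrArg Prod.fst h1]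
    rfl
  have hc := (an_Hm (J := J) hn).continuousAt
  refine ⟨pz F ∘ s, ?_⟩
  filter_upwards [PK.hn_ev hn, hdet, fac.eventually_nhds, hc.eventually hP.eventually_analyticAt,
    hc.eventually sec.eventually_nhds] with x h1 h2 h3 h4 h5 using ⟨h1, h2, h3, h4, h5⟩

theorem Good.dif (h : Good F c R J P y) : ∀ᶠ τ : E r in 𝓝 0,
    P (y.1, (Hm F J y).2 + τ) - P (Hm F J y) ∈ Ee F c R y.1 ∧
      (P (y.1, (Hm F J y).2 + τ) - P (Hm F J y)) ∘ J = τ := by
  have ht : Tendsto (fun τ : E r => (y.1, (Hm F J y).2 + τ)) (𝓝 0) (𝓝 (Hm F J y)) :=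
    Continuous.tendsto' (by fun_prop) _ _ (by simp [Hm])
  obtain ⟨a1, u', hu', a2⟩ := h.sec.self_of_nhds
  filter_upwards [ht.eventually h.sec] with τ ⟨b1, u, hu, b2⟩
  refine ⟨Submodule.subset_span ⟨u, hu, u', hu', by rw [b2, a2]; rfl⟩, ?_⟩
  exact (congrArg₂ (· - ·) b1 a1).trans (add_sub_cancel_left _ _)

theorem Good.difs (h : Good F c R J P y) : ∀ᶠ t : Fin ρ → E r in 𝓝 0, ∀ b,
    P (y.1, (Hm F J y).2 + t b) - P (Hm F J y) ∈ Ee F c R y.1 ∧
      (P (y.1, (Hm F J y).2 + t b) - P (Hm F J y)) ∘ J = t b :=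
  eventually_all.2 fun b => ((continuous_apply b).tendsto (0 : Fin ρ → E r)).eventually h.dif

theorem Good.low (h : Good F c R J P y) (hl : Low ρ m F y) :
    (∀ k < m, iteratedFDeriv ℂ k (XP ρ P (Hm F J y)) 0 = 0) ∧ ∀ v,
      iteratedFDeriv ℂ m (xi ρ F y) 0 v = iteratedFDeriv ℂ m (XP ρ P (Hm F J y)) 0
        fun i b => v i b ᵥ* (Gm F y).submatrix id J := by
  let A : Fin ρ → (Fin ρ → E n) → E n × E n := fun b t => (y.1, y.2 + t b)
  have A0 : ∀ b, A b 0 = y := fun b => by simp [A]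
  have dA : ∀ b, HasFDerivAt (A b) ((ContinuousLinearMap.inr ℂ _ _).comp
      (ContinuousLinearMap.proj b)) 0 := fun b =>
    (hasFDerivAt_const _ _).prodMk ((hasFDerivAt_apply b _).const_add _) |>.congr_fderiv
      (by ext <;> simp)
  have aA : ∀ b, AnalyticAt ℂ (A b) 0 := fun b => analyticAt_const.prod (analyticAt_const.add
    ((ContinuousLinearMap.proj b : (Fin ρ → E n) →L[ℂ] E n).analyticAt _))
  have aP : ∀ b, AnalyticAt ℂ (fun t => pz F (A b t) - pz F y) 0 := fun b =>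
    (AnalyticAt.comp (g := pz F) (by rw [A0]; exact ANB.analyticAt (PK.hn_pzv h.hn))
      (aA b)).sub analyticAt_const
  let θ : (Fin ρ → E n) → Fin ρ → E r := fun t b => rs J (pz F (A b t) - pz F y)
  have θ0 : θ 0 = 0 := funext fun b => by simp [θ, A0]
  have aθ : AnalyticAt ℂ θ 0 :=
    analyticAt_pi_iff.2 fun b => ((rs J).analyticAt _).comp (aP b)
  have dθ : ∀ v, fderiv ℂ θ 0 v = fun b => v b ᵥ* (Gm F y).submatrix id J := by
    intro v
    have h1 : ∀ b, HasFDerivAt (pz F) (fderiv ℂ (pz F) y) (A b 0) := fun b => by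
      rw [A0]; exact (PK.hn_at (PK.hn_pzv h.hn)).hasFDerivAt
    have h2 := (hasFDerivAt_pi.2 fun b =>
      (rs J).hasFDerivAt.comp 0 (((h1 b).comp 0 (dA b)).sub_const (pz F y))).fderiv
    refine (DFunLike.congr_fun h2 v).trans (funext fun b => ?_)
    show rs J (fderiv ℂ (pz F) y (0, v b)) = _
    rw [PZ38.fd_pz h.hn]
    rfl
  have aX : AnalyticAt ℂ (xi ρ F y) 0 := an_pl aP
  have aG : AnalyticAt ℂ (XP ρ P (Hm F J y)) 0 := an_XP0 h.an
  have e : xi ρ F y =ᶠ[𝓝 0] XP ρ P (Hm F J y) ∘ θ := by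
    filter_upwards [eventually_all.2 fun b =>
      (aA b).continuousAt.eventually (by rw [A0]; exact h.fac)] with t ht
    refine congrArg pl (funext fun b => ?_)
    rw [← h.fac.self_of_nhds]
    refine congrArg (· - pz F y) ((ht b).trans (congrArg P (Prod.ext rfl ?_)))
    funext i
    simp [Hm, θ, rs]
  obtain ⟨κ, aκ, κ0, κ1, -⟩ := st_FIB _ _ θ 0 aθ fun t => by
    choose w hw using fun b => onto h.det (t b)
    exact ⟨w, (dθ w).trans (funext hw)⟩
  rw [θ0] at aκ κ0 κ1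
  have e' : XP ρ P (Hm F J y) =ᶠ[𝓝 0] xi ρ F y ∘ κ := by
    filter_upwards [κ1, aκ.continuousAt.eventually (by rw [κ0]; exact e)] with t h1 h2
    rw [Function.comp, h2, Function.comp, h1]
  have l1 : ∀ k < m, iteratedFDeriv ℂ k (XP ρ P (Hm F J y)) 0 = 0 := fun k hk => by
    rw [(e'.iteratedFDeriv ℂ k).self_of_nhds]
    exact ((st_LO _ _ _ m).1 κ _ 0 aκ (by rwa [κ0]) (by rwa [κ0])).1 k hk
  refine ⟨l1, fun v => ?_⟩
  rw [(e.iteratedFDeriv ℂ m).self_of_nhds,
    ((st_LO _ _ _ m).1 θ _ 0 aθ (by rwa [θ0]) (by rwa [θ0])).2, θ0]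
  simp only [dθ]

end NF

open NF in
theorem st_NF (hS : St_SPN) : St_NF := by
  intro n r ρ m F c R z₀ J hL hz hd
  obtain ⟨P, hP⟩ := exists_good hL.hol hL.rk (PK.dg_mem_ball.2 hz) hd
  have hw : ∀ᶠ w in 𝓝 z₀, Good F c R J P (dg w) ∧ w ∈ ball c R :=
    ((PK.tendsto_dg z₀).eventually hP).and (isOpen_ball.eventually_mem hz)
  have g0 := hP.self_of_nhds
  refine ⟨fun a => Matrix.of fun f K => iteratedFDeriv ℂ m (XP ρ P a) 0 (fun i => sl (f i)) K,
    fun f K => ?_, hw.mono fun w h => ?_, fun l hl t ht K => ?_,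
    hw.mono fun w h x hx hx0 f => ?_⟩
  · exact analyticAt_pi_iff.1 ((st_LO _ _ _ m).2.1
      (fun q : (E n × E r) × (Fin ρ → E r) => XP ρ P q.1 q.2) _ 0 _ (an_XP g0.an)) K
  · ext f K
    have h1 := (h.1.low (hL.low _ (PK.dg_mem_ball.2 h.2))).2 fun i => sl (f i)
    have h2 : (fun i b => sl (f i) b ᵥ* (Gm F (dg w)).submatrix id J) =
        fun i b l => bk ρ ((Gm F (dg w)).submatrix id J) (f i) (b, l) := by
      funext i b l
      by_cases hb : (f i).1 = b
      · subst hb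
        simp [sl, bk, Matrix.kroneckerMap, Matrix.vecMul, dotProduct, Pi.single_apply]
      · simp [sl, bk, Matrix.kroneckerMap, Pi.single_eq_of_ne' hb, Matrix.one_apply_ne hb]
    rw [h2, expand] at h1
    refine (congrFun h1 K).trans ?_
    simp only [Finset.sum_apply, Pi.smul_apply, smul_eq_mul, Matrix.mul_apply, kp, kq,
      Matrix.of_apply]
    rfl
  · let lam : E n →ₗ[ℂ] ℂ := (dotProductBilin ℂ ℂ l).comp (rs J).toLinearMap
    have hlam : ∀ x, lam x = l ⬝ᵥ x ∘ J := fun x => rfl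
    have lt : finrank ℂ ↥(Ee F c R z₀ ⊓ LinearMap.ker lam) < ρ := by
      refine (Submodule.finrank_lt_finrank_of_lt (inf_lt_left.2 fun hle => ?_)).trans_le
        (hL.dim z₀ hz)
      obtain ⟨i, hi⟩ := Function.ne_iff.1 hl
      have h1 : Tendsto (fun ε : ℂ => (Pi.single i ε : E r)) (𝓝[≠] 0) (𝓝 0) :=
        (Continuous.tendsto' (continuous_single i) _ _ (by simp)).mono_left nhdsWithin_le_nhds
      obtain ⟨ε, ⟨h2, h3⟩, h4⟩ := ((h1.eventually g0.dif).and self_mem_nhdsWithin).exists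
      have h5 := LinearMap.mem_ker.1 (hle h2)
      rw [hlam, h3, dotProduct_single] at h5
      exact mul_ne_zero hi h4 h5
    have h0 := restrict (an_XP0 g0.an) (g0.low (hL.low _ (PK.dg_mem_ball.2 hz))).1
      (fun i b l => t i (b, l)) (by
        have h1 : Tendsto (fun s : Fin m → ℂ => ∑ i, s i • fun b l => t i (b, l)) (𝓝 0)
            (𝓝 (0 : Fin ρ → E r)) := Continuous.tendsto' (by fun_prop) _ _ (by simp)
        filter_upwards [h1.eventually g0.difs] with s hs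
        by_contra hne
        refine ((hS n).2.2.2 ρ _ _ (fun b => Submodule.mem_inf.2 ⟨(hs b).1, ?_⟩) hne).1.not_gt lt
        rw [LinearMap.mem_ker, hlam, (hs b).2, Finset.sum_apply, dotProduct_sum]
        refine Finset.sum_eq_zero fun i _ => ?_
        rw [Pi.smul_apply, dotProduct_smul, show l ⬝ᵥ (fun l => t i (b, l)) = 0 from ht i b,
          smul_zero])
    rw [expand] at h0
    refine Eq.trans ?_ (congrFun h0 K)
    simp only [Finset.sum_apply, Pi.smul_apply, smul_eq_mul, Matrix.of_apply]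
    exact Finset.sum_congr rfl fun f _ => mul_comm _ _
  · exact line (an_XP0 h.1.an) hx0 (h.1.difs.mono fun t ht =>
      ((hS n).2.2.2 ρ _ x hx hx0).2 (hL.dim w h.2) _ fun b => (ht b).1) _

end Pool.Agent.Lib.RAA
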