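import Pool.Agent.Lib.RYA.Blue
import Pool.Agent.Lib.RY.B_PZ
import Pool.Agent.Lib.RA.T_POL

/-! Step A: the generic dimension and the least order. -/

open scoped Classical Topology ContDiff ComplexOrder Matrix
open Set MeasureTheory Complex Metric Filter Module

set_option linter.unusedVariables false

noncomputable section

namespace Pool.Agent.Lib.RAA

open Pool.Agent.Lib.SV (E)
open Pool.Agent.Lib.HS32 Pool.Agent.Lib.RA

namespace ORD

variable {n r : ℕ} {M : Mf n} {φ : M.Fam ℝ}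

theorem exists_po (h : M.All fun e z => AnalyticAt ℝ (φ e) z) {e : M.Ch} (he : e ∈ M.C) {z : E n}
    (hz : z ∈ e.target) : ∃ R F, 0 < R ∧ Po M φ e z R F := by
  obtain ⟨R, hR, F, h1, h2⟩ := st_POL.1 n (φ e) z (h e he z hz)
  obtain ⟨R', hR', h3⟩ := Metric.isOpen_iff.1 e.open_target z hz
  exact ⟨min R R', F, lt_min hR hR', he, (ball_subset_ball (min_le_right _ _)).trans h3,
    h1.mono (ball_subset_ball (min_le_left _ _)),
    fun w hw => h2 w (ball_subset_ball (min_le_left _ _) hw)⟩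

theorem gm_eq {e : M.Ch} {c : E n} {R : ℝ} {F : E n × E n → ℂ} (h : Po M φ e c R F) {z : E n}
    (hz : z ∈ ball c R) : Gm F (dg z) = M.hw φ e z :=
  (((st_PZ n F c R h.plz.hol).2.1 (φ e) h.plz z hz).2.1).symm

theorem loc {G : M.Fam (Mat n)} (hS : Su M G φ r) {e : M.Ch} {c : E n} {R : ℝ}
    {F : E n × E n → ℂ} (h : Po M φ e c R F) {ρ m : ℕ} (ho : Od M φ ρ m) : Loc F c R r ρ m := by
  refine ⟨h.plz.hol, fun z hz => by rw [h.plz.eq z hz, ofReal_im], fun z hz => ?_, fun y hy => ?_,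
    ho.dim e c R F h, ho.low e c R F h⟩
  · have := hS.psd e h.mem z (h.sub hz)
    rw [gm_eq h hz]
    simpa using this
  · have hR : 0 < R := pos_of_mem_ball hy
    refine (st_PZ n F c R h.plz.hol).2.2.2 r c (mem_ball_self hR) ?_ y hy
    filter_upwards [ball_mem_nhds c hR] with z hz
    rw [gm_eq h hz]
    exact hS.le e h.mem z (h.sub hz)

/-- A property of polar balls that does not depend on the ball and propagates. -/
theorem spread [M.Cpt] (han : M.All fun e z => AnalyticAt ℝ (φ e) z)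
    (Z : (E n × E n → ℂ) → E n → Prop)
    (h1 : ∀ e e' c c' R R' F F' x, Po M φ e c R F → Po M φ e' c' R' F' → x ∈ e.source →
      x ∈ e'.source → e x ∈ ball c R → e' x ∈ ball c' R' → Z F (e x) → Z F' (e' x))
    (h2 : ∀ e c R F, Po M φ e c R F → ∀ z ∈ ball c R, (∀ᶠ w in 𝓝 z, Z F w) →
      ∀ w ∈ ball c R, Z F w)
    {e : M.Ch} {c : E n} {R : ℝ} {F : E n × E n → ℂ} (h : Po M φ e c R F) (hR : 0 < R)
    (h0 : ∀ z ∈ ball c R, Z F z) :
    ∀ e' c' R' F', Po M φ e' c' R' F' → ∀ z ∈ ball c' R', Z F' z := by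
  let P : Set M.X := {x | ∀ e' c' R' F', Po M φ e' c' R' F' → x ∈ e'.source →
    e' x ∈ ball c' R' → Z F' (e' x)}
  have key : ∀ e c R F, Po M φ e c R F → (∀ z ∈ ball c R, Z F z) →
      e.source ∩ e ⁻¹' ball c R ⊆ interior P := fun e c R F h h0 =>
    interior_maximal (fun x hx e' c' R' F' h' a b =>
      h1 e e' c c' R R' F F' x h h' hx.1 a hx.2 b (h0 _ hx.2))
      (e.isOpen_inter_preimage isOpen_ball)
  have hcl : IsClosed (interior P) := by
    refine closure_subset_iff_isClosed.1 fun x hx => ?_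
    obtain ⟨e', he', hx'⟩ := M.cov x
    obtain ⟨R', F', hR', h'⟩ := exists_po han he' (e'.map_source hx')
    have hm : x ∈ e'.source ∩ e' ⁻¹' ball (e' x) R' := ⟨hx', mem_ball_self hR'⟩
    obtain ⟨y, hy, hyP⟩ := mem_closure_iff.1 hx _ (e'.isOpen_inter_preimage isOpen_ball) hm
    refine key e' _ R' F' h' (h2 e' _ R' F' h' (e' y) hy.2 ?_) hm
    have t1 : ∀ᶠ w in 𝓝 (e' y), e'.symm w ∈ P :=
      (e'.tendsto_symm hy.1).eventually (mem_interior_iff_mem_nhds.1 hyP)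
    filter_upwards [t1, isOpen_ball.mem_nhds hy.2] with w a b
    have := a e' _ R' F' h' (e'.map_target (h'.sub b)) (by rwa [e'.right_inv (h'.sub b)])
    rwa [e'.right_inv (h'.sub b)] at this
  have hc := h.sub (mem_ball_self hR)
  have hall : interior P = univ := IsClopen.eq_univ ⟨hcl, isOpen_interior⟩
    ⟨e.symm c, key e c R F h h0 ⟨e.map_target hc, by
      rw [mem_preimage, e.right_inv hc]; exact mem_ball_self hR⟩⟩
  intro e' c' R' F' h' z hz
  have hz' := h'.sub hz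
  have hP : e'.symm z ∈ P := interior_subset (hall ▸ mem_univ _)
  have := hP e' c' R' F' h' (e'.map_target hz') (by rwa [e'.right_inv hz'])
  rwa [e'.right_inv hz'] at this

end ORD

open ORD in
theorem st_ORD (XI : St_XI) (PT : St_PT) : St_ORD := by
  intro n r M _ G φ hS
  refine ⟨?_, fun e he z hz => exists_po hS.an he hz,
    fun e c R F h => ⟨fun z hz => gm_eq h hz, fun ρ m ho => loc hS h ho⟩⟩
  let S : Set ℕ := {d | ∃ e c R F, Po M φ e c R F ∧ ∃ z ∈ ball c R, finrank ℂ (Ee F c R z) = d}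
  have hne : S.Nonempty := by
    obtain ⟨x⟩ : Nonempty M.X := inferInstance
    obtain ⟨e, he, hx⟩ := M.cov x
    obtain ⟨R, F, hR, h⟩ := exists_po hS.an he (e.map_source hx)
    exact ⟨_, e, _, R, F, h, _, mem_ball_self hR, rfl⟩
  have hbd : BddAbove S := ⟨finrank ℂ (E n), by
    rintro _ ⟨e, c, R, F, -, z, -, rfl⟩
    exact Submodule.finrank_le _⟩
  obtain ⟨e₀, c₀, R₀, F₀, h₀, z₀, hz₀, hρ⟩ := Nat.sSup_mem hne hbd
  have hdim : ∀ e c R F, Po M φ e c R F → ∀ z ∈ ball c R, finrank ℂ (Ee F c R z) ≤ sSup S :=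
    fun e c R F h z hz => le_csSup hbd ⟨e, c, R, F, h, z, hz, rfl⟩
  generalize sSup S = ρ at hρ hdim
  have hex : ∃ m, ∃ e c R F, Po M φ e c R F ∧ ∃ z ∈ ball c R, bt ρ m F (dg z) ≠ 0 := by
    obtain ⟨m, hm⟩ := (XI n ρ F₀ c₀ R₀ h₀.plz.hol).2.2.2.2.1 z₀ hz₀ hρ.ge
    exact ⟨m, e₀, c₀, R₀, F₀, h₀, z₀, hz₀, hm⟩
  have hlow : ∀ e c R F, Po M φ e c R F → ∀ y ∈ ball (dg c) R, Low ρ (Nat.find hex) F y := by
    intro e c R F h y hy k hk
    have hR : 0 < R := pos_of_mem_ball hy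
    obtain ⟨-, -, x3, x4, -⟩ := XI n ρ F c R h.plz.hol
    refine (x3 k y).1 (x4 k c (mem_ball_self hR) ?_ y hy)
    filter_upwards [ball_mem_nhds c hR] with z hz
    by_contra hn
    exact Nat.find_min hex hk ⟨e, c, R, F, h, z, hz, hn⟩
  refine ⟨ρ, Nat.find hex, hdim, hlow, fun e c R F h hR => ?_⟩
  by_contra hn
  push Not at hn
  obtain ⟨e₁, c₁, R₁, F₁, h₁, z₁, hz₁, hb⟩ := Nat.find_spec hex
  refine hb (spread hS.an (fun F z => bt ρ (Nat.find hex) F (dg z) = 0) ?_ ?_ h hR hn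
    e₁ c₁ R₁ F₁ h₁ z₁ hz₁)
  · intro e e' c c' R R' F F' x h h' a a' b b' hz
    have := ((PT n M φ e e' c c' R R' F F' x hS.wt h h' a a' b b').2 ρ _
      (hlow e c R F h _ (PK.dg_mem_ball.2 b))).2
    rw [this, hz, Matrix.mul_zero, Matrix.zero_mul]
  · intro e c R F h z hz hw w hw'
    exact (XI n ρ F c R h.plz.hol).2.2.2.1 _ z hz hw _ (PK.dg_mem_ball.2 hw')

end Pool.Agent.Lib.RAA
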