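import Pool.Agent.Lib.RYA.Blue
import Pool.Agent.Lib.RY.K_At

/-! Project ra2, step A: change of metric. -/

open scoped Classical Topology ContDiff ComplexOrder Matrix Kronecker ENNReal
open Set MeasureTheory Complex Metric Filter Module

set_option linter.unusedVariables false

noncomputable section

namespace Pool.Agent.Lib.RAA

open Pool.Agent.Lib.SV (E)
open Pool.Agent.Lib.HS32 Pool.Agent.Lib.RA

namespace PSI

variable {n ρ : ℕ} {M : Mf n} {V : M.Cov} {σ : Fin V.r → E n → (Fin ρ → Fin n) → ℂ}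
  {G : M.Fam (Mat n)} {a : Fin V.r} {z : E n}

theorem bl_tgt (hz : z ∈ bl M V a) : z ∈ (V.e a).target := V.sub a (ball_subset_closedBall hz)

theorem un_at (hA4 : St_A4) (hL : Ln M V ρ σ) (hG : M.Met G) (hz : z ∈ bl M V a)
    (h : σ a z ≠ 0) : un ρ (G (V.e a)) (σ a) z ≠ 0 ∧
      ContDiffAt ℝ ∞ (fun w => Real.log (un ρ (G (V.e a)) (σ a) w)) z := by
  have t := (hA4 n ρ).1 (G (V.e a)) (σ a) z (hG.sm _ (V.mem a) z (bl_tgt hz))
    (by
      filter_upwards [(V.e a).open_target.mem_nhds (bl_tgt hz)] with w hw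
      exact hG.pos _ (V.mem a) w hw)
    (KA.holN_of_on isOpen_ball (hL.hol a) hz)
  exact ⟨t.2.2.1.2 h, t.1.log (t.2.2.1.2 h)⟩

end PSI

open PSI in
theorem st_PSI (hLNT : St_LNT) (hA4 : St_A4) : St_PSI := by
  intro n ρ M _ V σ G G' q q' hL hG hG' hq hq'
  obtain ⟨C, hC⟩ := ((hA4 n ρ).2 M G hG).2 G' hG'
  let d : Fin V.r → E n → ℝ := fun a w =>
    Real.log (un ρ (G' (V.e a)) (σ a) w) - Real.log (un ρ (G (V.e a)) (σ a) w)
  let p : Fin V.r → M.X → Prop := fun a x =>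
    x ∈ (V.e a).source ∧ V.e a x ∈ bl M V a ∧ σ a (V.e a x) ≠ 0
  have ind : ∀ a b x, p a x → p b x → d b (V.e b x) = d a (V.e a x) := by
    intro a b x ha hb
    obtain ⟨μ, -, h0, h1⟩ := (hLNT n ρ M V σ a b x hL ha.1 hb.1 ha.2.1 hb.2.1 ha.2.2 hb.2.2).1
    have h2 := h1.self_of_nhds
    rw [(V.e b).left_inv hb.1] at h2
    have h3 : normSq (μ (V.e b x)) ≠ 0 := by simpa using h0
    simp only [d]
    rw [h2 G hG, h2 G' hG', Real.log_mul h3 (un_at hA4 hL hG ha.2.1 ha.2.2).1,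
      Real.log_mul h3 (un_at hA4 hL hG' ha.2.1 ha.2.2).1]
    ring
  let ψ : M.X → ℝ := fun x => if h : ∃ a, p a x then d h.choose (V.e h.choose x) else 0
  have val : ∀ a x, p a x → ψ x = d a (V.e a x) := by
    intro a x ha
    have h : ∃ a, p a x := ⟨a, ha⟩
    simp only [ψ, dif_pos h]
    exact ind _ _ x ha h.choose_spec
  refine ⟨ψ, C, fun x hx => ?_⟩
  obtain ⟨a, ha⟩ : ∃ a, p a x := hx
  have ev : ψ ∘ (V.e a).symm =ᶠ[𝓝 (V.e a x)] d a := by
    have c := (KA.holN_of_on isOpen_ball (hL.hol a) ha.2.1).self_of_nhds.continuousAt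
    filter_upwards [c.eventually_ne ha.2.2, isOpen_ball.mem_nhds ha.2.1] with w h1 h2
    have h3 := bl_tgt h2
    have h4 := val a ((V.e a).symm w) ⟨(V.e a).map_target h3, by rwa [(V.e a).right_inv h3],
      by rwa [(V.e a).right_inv h3]⟩
    rwa [(V.e a).right_inv h3] at h4
  have s := (un_at hA4 hL hG ha.2.1 ha.2.2).2
  have s' := (un_at hA4 hL hG' ha.2.1 ha.2.2).2
  have sm : SmAt M ψ x := KA.smAt_of (V.mem a) ha.1 ((s'.sub s).congr_of_eventuallyEq ev)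
  refine ⟨sm, ?_, fun e he hxe => ?_⟩
  · rw [val a x ha]
    exact hC _ (V.mem a) _ (bl_tgt ha.2.1) _ ha.2.2
  · have e1 : M.hs ψ (V.e a) (V.e a x) = q' (V.e a) (V.e a x) - q (V.e a) (V.e a x) := by
      rw [hq.eq a _ ha.2.1 ha.2.2, hq'.eq a _ ha.2.1 ha.2.2, KA.hs_eq, KA.hr_congr ev]
      refine Eq.trans ?_ (hess_sub (cd_ofReal s') (cd_ofReal s))
      exact hess_congr (Eventually.of_forall fun w => ofReal_sub _ _)
    show M.hs ψ e (e x) = q' e (e x) - q e (e x)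
    rw [KA.hs_cmp sm (V.mem a) he ha.1 hxe, e1, hq.ten.cmp _ (V.mem a) e he x ha.1 hxe ⟨a, ha⟩,
      hq'.ten.cmp _ (V.mem a) e he x ha.1 hxe ⟨a, ha⟩, Matrix.mul_sub, Matrix.sub_mul]

end Pool.Agent.Lib.RAA
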