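import Pool.Agent.Lib.RYA.Blue
import Pool.Agent.Lib.RY.K_At

/-! Project ra2, step A: change of polar ball. -/

open scoped Classical Topology ContDiff ComplexOrder Matrix Kronecker
open Set MeasureTheory Complex Metric Filter Module

set_option linter.unusedVariables false

noncomputable section

namespace Pool.Agent.Lib.RAA

open Pool.Agent.Lib.SV (E)
open Pool.Agent.Lib.HS32 Pool.Agent.Lib.RA
open Pool.Agent.Lib.MP_7fcda1_ag (pl)

namespace PT

variable {n ρ m : ℕ}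

theorem sl_mul (A : Mat n) (p : Fin ρ × Fin n) :
    (fun a => sl p a ᵥ* A) = ∑ q, bk ρ A p q • sl q := by
  funext a l
  obtain ⟨b, i⟩ := p
  simp only [Finset.sum_apply, Pi.smul_apply, smul_eq_mul, Fintype.sum_prod_type, bk, sl,
    Matrix.kroneckerMap_apply, Matrix.one_apply]
  rw [Finset.sum_eq_single b (fun b' _ h => by simp [h.symm]) (by simp)]
  by_cases h : a = b
  · subst h
    simp [Pi.single_apply]
  · simp [Pi.single_eq_of_ne h]

/-- The lowest derivative after a change of the parameters and a linear map on the values. -/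
theorem low (hLO : St_LO) {g g' : (Fin ρ → E n) → (Fin ρ → Fin n) → ℂ} {θ : E n → E n}
    {A : Mat n} {P : Matrix (Fin ρ → Fin n) (Fin ρ → Fin n) ℂ} (hg : AnalyticAt ℂ g 0)
    (hθ : AnalyticAt ℂ θ 0) (h0 : θ 0 = 0) (hd : ∀ t, fderiv ℂ θ 0 t = t ᵥ* A)
    (e : ∀ᶠ t in 𝓝 (0 : Fin ρ → E n), g' t = g (fun a => θ (t a)) ᵥ* P)
    (hl : ∀ k < m, iteratedFDeriv ℂ k g 0 = 0) :
    (∀ k < m, iteratedFDeriv ℂ k g' 0 = 0) ∧
    (Matrix.of fun (f : Fin m → Fin ρ × Fin n) K => iteratedFDeriv ℂ m g' 0 (fun a => sl (f a)) K) =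
      kp m (bk ρ A) * (Matrix.of fun (f : Fin m → Fin ρ × Fin n) K =>
        iteratedFDeriv ℂ m g 0 (fun a => sl (f a)) K) * P := by
  set Θ : (Fin ρ → E n) → Fin ρ → E n := fun t a => θ (t a) with hΘ
  have z0 : Θ 0 = 0 := funext fun a => h0
  have aΘ : AnalyticAt ℂ Θ 0 := AnalyticAt.pi fun a =>
    AnalyticAt.comp (g := θ) (f := fun t : Fin ρ → E n => t a) hθ
      ((ContinuousLinearMap.proj (R := ℂ) (φ := fun _ : Fin ρ => E n) a).analyticAt 0)
  have dΘ : ∀ v, fderiv ℂ Θ 0 v = fun a => v a ᵥ* A := fun v => by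
    have : HasFDerivAt Θ (ContinuousLinearMap.pi fun a => (fderiv ℂ θ 0).comp
        (ContinuousLinearMap.proj (R := ℂ) (φ := fun _ : Fin ρ => E n) a)) 0 :=
      hasFDerivAt_pi.2 fun a => HasFDerivAt.comp (g := θ) (f := fun t : Fin ρ → E n => t a) 0
        hθ.differentiableAt.hasFDerivAt
        (ContinuousLinearMap.proj (R := ℂ) (φ := fun _ : Fin ρ => E n) a).hasFDerivAt
    rw [this.fderiv]
    funext a
    exact hd _
  obtain ⟨l1, l2⟩ := (hLO _ _ _ m).1 Θ g 0 aΘ (by rwa [z0]) (by rwa [z0])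
  set L := LinearMap.toContinuousLinearMap (Matrix.vecMulLinear P) with hL
  have key : ∀ k, iteratedFDeriv ℂ k g' 0 =
      L.compContinuousMultilinearMap (iteratedFDeriv ℂ k (g ∘ Θ) 0) := fun k => by
    have e' : g' =ᶠ[𝓝 0] L ∘ (g ∘ Θ) := e
    rw [(e'.iteratedFDeriv ℂ k).self_of_nhds]
    exact L.iteratedFDeriv_comp_left (n := ⊤)
      (AnalyticAt.comp (g := g) (f := Θ) (by rwa [z0]) aΘ).contDiffAt le_top
  refine ⟨fun k hk => ?_, ?_⟩
  · rw [key, l1 k hk]
    ext v K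
    simp
  · ext f K
    rw [Matrix.of_apply, key, ContinuousLinearMap.compContinuousMultilinearMap_coe,
      Function.comp_apply, l2, z0]
    simp only [dΘ, sl_mul]
    rw [ContinuousMultilinearMap.map_sum]
    simp only [ContinuousMultilinearMap.map_smul_univ]
    show (_ ᵥ* P) K = _
    simp only [Matrix.vecMul, dotProduct, Matrix.mul_apply, Finset.sum_apply, Pi.smul_apply,
      smul_eq_mul, Matrix.of_apply, kp, kq]

end PT

theorem st_PT (hPTE : St_PTE) (hSPN : St_SPN) (hXI : St_XI) (hLO : St_LO) (hPZ : St_PZ) :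
    St_PT := by
  intro n M φ e e' c c' R R' F F' x hφ h h' hx hx' hb hb'
  have pt : (e ∘ e'.symm) (e' x) = e x := KA.tr_pt hx'
  have gm : ∀ᶠ w in 𝓝 (e' x), Gm F' (dg w) =
      (jm (e ∘ e'.symm) w)ᴴ * Gm F (dg ((e ∘ e'.symm) w)) * jm (e ∘ e'.symm) w := by
    have a : ∀ᶠ y in 𝓝 x, y ∈ e.source ∧ e y ∈ ball c R :=
      (e.open_source.eventually_mem hx).and
        ((e.continuousAt hx).eventually (isOpen_ball.eventually_mem hb))
    filter_upwards [(KA.ev_iff hx').1 a, isOpen_ball.mem_nhds hb'] with w h1 h2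
    have t := h'.sub h2
    have b := KA.hw_cmp hφ h.mem h'.mem h1.1 (e'.map_target t)
    rw [Mf.J, e'.right_inv t, KA.hw_eq, KA.hw_eq,
      ((hPZ n F' c' R' h'.plz.hol).2.1 _ h'.plz w h2).2.1,
      ((hPZ n F c R h.plz.hol).2.1 _ h.plz _ h1.2).2.1] at b
    exact b
  obtain ⟨θ, t1, t2, t3, t4⟩ := hPTE n (e ∘ e'.symm) F F' (e' x) (KA.hol_tr h.mem h'.mem hx hx')
    (by rw [pt]; exact PK.hn_of_on isOpen_ball h.plz.hol (PK.dg_mem_ball.2 hb))
    (PK.hn_of_on isOpen_ball h'.plz.hol (PK.dg_mem_ball.2 hb')) gm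
  rw [pt] at t4
  refine ⟨fun w hw => ?_, fun ρ m hl => ?_⟩
  · have t5 : ∀ᶠ t in 𝓝 (0 : E n), star (e x) + θ t ∈ ball (star c) R :=
      (continuousAt_const.add t1.continuousAt).eventually (isOpen_ball.eventually_mem
        (by rw [Pi.add_apply, t2, add_zero]; exact PK.star_mem_ball.2 hb))
    have a := ((hSPN n).1 F' c' R' h'.plz.hol).1 _ hb' _ (PK.star_mem_ball.2 hb') _ (t4.and t5) hw
    have b := Submodule.span_le.2 (show _ ⊆ ((Ee F c R (e x)).map
      (Matrix.vecMulLinear (M.J e e' x)) : Set (E n)) from ?_) a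
    · obtain ⟨w₀, b1, b2⟩ := b
      exact ⟨w₀, b1, b2.symm⟩
    · rintro _ ⟨t, ⟨b1, b2⟩, -, rfl⟩
      exact ⟨_, Submodule.subset_span ⟨_, b2, _, PK.star_mem_ball.2 hb, rfl⟩, b1.symm⟩
  · refine PT.low hLO ((hXI n ρ F c R h.plz.hol).1 _ (PK.dg_mem_ball.2 hb)).1 t1 t2 t3 ?_ hl
    have : ∀ᶠ t in 𝓝 (0 : Fin ρ → E n), ∀ a, _ := eventually_all.2 fun a =>
      ((continuous_apply a).tendsto (0 : Fin ρ → E n)).eventually t4
    filter_upwards [this] with t ht
    exact (congrArg pl (funext ht)).trans ((hSPN n).2.2.1 ρ _ _)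

end Pool.Agent.Lib.RAA
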