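import Pool.Agent.Lib.RYA.Blue
import Pool.Agent.Lib.RA.T_KER

/-! Project ra2, step A: the span is local; linear algebra. -/

open scoped Classical Topology ContDiff ComplexOrder Matrix
open Set MeasureTheory Complex Metric Filter Module

noncomputable section

namespace Pool.Agent.Lib.RAA

open Pool.Agent.Lib.SV (E)
open Pool.Agent.Lib.HS32 Pool.Agent.Lib.RA
open Pool.Agent.Lib.MP_7fcda1_ag (pl pl_ne_zero_iff lin_exists_matrix pl_mul)

namespace SPN

variable {n : ℕ} {F : E n × E n → ℂ} {c : E n} {R : ℝ}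

theorem diff_pz (hF : DifferentiableOn ℂ F (ball (dg c) R)) {z u : E n} (hz : z ∈ ball c R)
    (hu : u ∈ ball (star c) R) : DifferentiableAt ℂ (pz F) (z, u) :=
  PK.hn_at (PK.hn_pzv (PK.hn_of_on isOpen_ball hF (PK.mk_mem_ball.2 ⟨hz, hu⟩)))

theorem diff_sl (hF : DifferentiableOn ℂ F (ball (dg c) R)) {z u : E n} (hz : z ∈ ball c R)
    (hu : u ∈ ball (star c) R) : DifferentiableAt ℂ (fun u => pz F (z, u)) u :=
  (diff_pz hF hz hu).comp u (hasFDerivAt_prodMk_right z u).differentiableAt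

theorem loc (hF : DifferentiableOn ℂ F (ball (dg c) R)) {z u : E n} (hz : z ∈ ball c R)
    (hu : u ∈ ball (star c) R) {N : Set (E n)} (hN : N ∈ 𝓝 (0 : E n)) :
    Ee F c R z ≤ Submodule.span ℂ
      {w | ∃ t ∈ N, u + t ∈ ball (star c) R ∧ w = pz F (z, u + t) - pz F (z, u)} := by
  refine Submodule.span_le.2 ?_
  rintro _ ⟨u₁, h₁, u₂, h₂, rfl⟩
  refine (Subspace.forall_mem_dualAnnihilator_apply_eq_zero_iff _ _).1 fun φ hφ => ?_
  have hφ' := (Submodule.mem_dualAnnihilator φ).1 hφ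
  have hd : DifferentiableOn ℂ (fun u' => φ (pz F (z, u') - pz F (z, u))) (ball (star c) R) :=
    fun u' hu' => ((LinearMap.toContinuousLinearMap φ).differentiableAt.comp u'
      ((diff_sl hF hz hu').sub_const _)).differentiableWithinAt
  have h0 : (fun u' => φ (pz F (z, u') - pz F (z, u))) =ᶠ[𝓝 u] 0 := by
    have ht : Tendsto (fun u' => u' - u) (𝓝 u) (𝓝 0) :=
      (continuous_id.sub continuous_const).tendsto' u 0 (sub_self u)
    filter_upwards [ht hN, isOpen_ball.mem_nhds hu] with u' h1 h2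
    exact hφ' _ (Submodule.subset_span ⟨u' - u, h1, by rwa [add_sub_cancel],
      by rw [add_sub_cancel]⟩)
  have h := (ANB.analyticOnNhd isOpen_ball hd).eqOn_zero_of_preconnected_of_eventuallyEq_zero
    (convex_ball _ _).isPreconnected hu h0
  have e1 : φ (pz F (z, u₁) - pz F (z, u)) = 0 := h h₁
  have e2 : φ (pz F (z, u₂) - pz F (z, u)) = 0 := h h₂
  rw [← sub_sub_sub_cancel_right _ _ (pz F (z, u)), map_sub, e1, e2, sub_zero]

theorem ck (hF : DifferentiableOn ℂ F (ball (dg c) R)) {r : ℕ}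
    (h : ∀ z ∈ ball c R, finrank ℂ (Ee F c R z) ≤ r) : CK F c R r := by
  intro z hz
  have h1 := h z hz
  rw [Ee, ← Subtype.range_coe (s := {w | ∃ u ∈ ball (star c) R, ∃ u' ∈ ball (star c) R,
    w = pz F (z, u) - pz F (z, u')})] at h1
  obtain ⟨K, hK, hK'⟩ := (R21.span_le_iff _).1 h1
  refine ⟨K, hK, fun v hv u hu => funext fun i => ?_⟩
  have hj : ∀ j, DifferentiableAt ℂ (fun x => pz F x j) (z, u) :=
    differentiableAt_pi.1 (diff_pz hF hz hu)
  have h2 : HasFDerivAt (fun u' => ∑ j, pz F (z, u') j * v j)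
      (∑ j, v j • fderiv ℂ (fun u' => pz F (z, u') j) u) u :=
    HasFDerivAt.fun_sum fun j _ =>
      ((differentiableAt_pi.1 (diff_sl hF hz hu) j).hasFDerivAt).mul_const (v j)
  have h3 : HasFDerivAt (fun u' => ∑ j, pz F (z, u') j * v j) (0 : E n →L[ℂ] ℂ) u := by
    refine (hasFDerivAt_const (pz F (z, u) ⬝ᵥ v) u).congr_of_eventuallyEq ?_
    filter_upwards [isOpen_ball.mem_nhds hu] with u' hu'
    have h4 : (pz F (z, u') - pz F (z, u)) ⬝ᵥ v = 0 := hK' v hv ⟨_, u', hu', u, hu, rfl⟩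
    rw [sub_dotProduct, sub_eq_zero] at h4
    exact h4
  have h5 := congrArg (fun L : E n →L[ℂ] ℂ => L (Pi.single i 1)) (h2.unique h3)
  simp only [sum_apply, smul_apply, smul_eq_mul, zero_apply] at h5
  have h6 : ∑ j, Gm F (z, u) i j * v j =
      ∑ j, v j * fderiv ℂ (fun u' => pz F (z, u') j) u (Pi.single i 1) := by
    refine Finset.sum_congr rfl fun j _ => ?_
    rw [mul_comm, ← PK.pu_slice (hj j)]
    rfl
  exact h6.trans h5

/-- A Hermitian matrix of rank `r` has an invertible principal block of size `r`. -/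
theorem princ {r : ℕ} {A : Mat n} (hA : A.IsHermitian) (hr : A.rank = r) :
    ∃ J : Fin r → Fin n, (A.submatrix J J).det ≠ 0 := by
  have hr' := hr
  rw [Matrix.rank_eq_finrank_span_cols] at hr'
  obtain ⟨κ, a, ha, hsp, hli⟩ := exists_linearIndependent' ℂ A.col
  have : Finite κ := Finite.of_injective a ha
  cases nonempty_fintype κ
  have hc : Fintype.card κ = r := by
    rw [← hr', ← hsp]
    exact (finrank_span_eq_card hli).symm
  let q : Fin r ≃ κ := (Fintype.equivFinOfCardEq hc).symm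
  let J : Fin r → Fin n := fun j => a (q j)
  have h1 : ∀ k, A.col k ∈ Submodule.span ℂ (range fun j => A.col (J j)) := fun k => by
    have e : (range fun j => A.col (J j)) = range (A.col ∘ a) := q.surjective.range_comp (A.col ∘ a)
    rw [e, hsp]
    exact Submodule.subset_span ⟨k, rfl⟩
  choose p hp using fun k => (Submodule.mem_span_range_iff_exists_fun ℂ).1 (h1 k)
  let P : Matrix (Fin r) (Fin n) ℂ := Matrix.of fun j k => p k j
  have e1 : A = A.submatrix id J * P := by
    ext l k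
    have := congrFun (hp k) l
    simp only [Finset.sum_apply, Pi.smul_apply, smul_eq_mul, Matrix.col_apply] at this
    rw [← this, Matrix.mul_apply]
    exact Finset.sum_congr rfl fun j _ => mul_comm _ _
  have e2 : A = Pᴴ * A.submatrix J id := by
    have := congrArg Matrix.conjTranspose e1
    rwa [Matrix.conjTranspose_mul, Matrix.conjTranspose_submatrix, hA.eq] at this
  have e3 : A.submatrix id J = Pᴴ * A.submatrix J J := by
    ext l k
    have := congrFun (congrFun e2 l) (J k)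
    rw [Matrix.submatrix_apply, id, this]
    rfl
  have h2 : r ≤ (A.submatrix J J).rank := by
    calc r = (Pᴴ * A.submatrix J J * P).rank := by rw [← e3, ← e1, hr]
      _ ≤ _ := (Matrix.rank_mul_le_left _ _).trans (Matrix.rank_mul_le_right _ _)
  have h3 : LinearMap.range (A.submatrix J J).mulVecLin = ⊤ :=
    Submodule.eq_top_of_finrank_eq (by
      rw [finrank_fin_fun]
      exact le_antisymm (Matrix.rank_le_width _) h2)
  have h4 : IsUnit (A.submatrix J J) :=
    Matrix.mulVec_surjective_iff_isUnit.1 (LinearMap.range_eq_top.1 h3)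
  exact ⟨J, ((Matrix.isUnit_iff_isUnit_det _).1 h4).ne_zero⟩

theorem pl_vecMul {ρ : ℕ} (x : Fin ρ → E n) (J : Mat n) :
    pl (fun a => x a ᵥ* J) = pl x ᵥ* kp ρ J := by
  funext K
  simp only [pl, kp, kq, Matrix.det_apply', Matrix.of_apply, Matrix.vecMul, dotProduct,
    Finset.prod_univ_sum, Fintype.piFinset_univ, Finset.mul_sum, Finset.sum_mul,
    Finset.prod_mul_distrib, mul_assoc]
  exact Finset.sum_comm

theorem line {ρ : ℕ} {W : Submodule ℂ (E n)} {x : Fin ρ → E n} (hx : ∀ a, x a ∈ W)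
    (h0 : pl x ≠ 0) : ρ ≤ finrank ℂ W ∧ (finrank ℂ W ≤ ρ → ∀ x' : Fin ρ → E n, (∀ a, x' a ∈ W) →
      ∃ μ : ℂ, pl x' = μ • pl x) := by
  have h1 : Submodule.span ℂ (range x) ≤ W := Submodule.span_le.2 (by rintro _ ⟨a, rfl⟩; exact hx a)
  have h2 : finrank ℂ (Submodule.span ℂ (range x)) = ρ := by
    rw [finrank_span_eq_card (pl_ne_zero_iff.1 h0), Fintype.card_fin]
  refine ⟨h2.ge.trans (Submodule.finrank_mono h1), fun hW x' hx' => ?_⟩
  have h3 := Submodule.eq_of_le_of_finrank_le h1 (hW.trans h2.ge)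
  obtain ⟨A, hA⟩ := lin_exists_matrix (w := x') (w' := x) fun s => h3 ▸ hx' s
  exact ⟨A.det, by rw [← pl_mul, ← hA]⟩

end SPN

theorem st_SPN : St_SPN := fun _ =>
  ⟨fun _ _ _ hF => ⟨fun _ hz _ hu _ hN => SPN.loc hF hz hu hN, fun _ h => SPN.ck hF h⟩,
    fun _ _ hA hr => SPN.princ hA hr, fun _ x J => SPN.pl_vecMul x J,
    fun _ _ _ hx h0 => SPN.line hx h0⟩

end Pool.Agent.Lib.RAA
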