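import Pool.Agent.Lib.RYA.Blue
import Pool.Agent.Lib.RAA.T_LO
import Pool.Agent.Lib.RA.T_AN

/-! Analytic properties of the exterior product. -/

open scoped Classical Topology ContDiff ComplexOrder Matrix
open Set Complex Metric Filter Module

noncomputable section

namespace Pool.Agent.Lib.RAA

open Pool.Agent.Lib.SV (E)
open Pool.Agent.Lib.HS32 Pool.Agent.Lib.RA
open Pool.Agent.Lib.MP_7fcda1_ag (pl pl_ne_zero_iff)

namespace XI

variable {n ρ : ℕ} {F : E n × E n → ℂ} {c : E n} {R : ℝ}

theorem diff_pl {V : Type} [NormedAddCommGroup V] [NormedSpace ℂ V] {x : V → Fin ρ → E n} {v : V}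
    (h : ∀ a, DifferentiableAt ℂ (fun w => x w a) v) :
    DifferentiableAt ℂ (fun w => pl (x w)) v := by
  refine differentiableAt_pi.2 fun K => ?_
  simp only [pl, Matrix.det_apply', Matrix.of_apply]
  exact DifferentiableAt.fun_sum fun σ _ => (differentiableAt_const _).fun_mul
    (HasFDerivAt.finsetProd fun i _ =>
      (differentiableAt_pi.1 (h (σ i)) (K i)).hasFDerivAt).differentiableAt

theorem joint (hF : DifferentiableOn ℂ F (ball (dg c) R)) {y : E n × E n}
    (hy : y ∈ ball (dg c) R) :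
    AnalyticAt ℂ (fun q : (E n × E n) × (Fin ρ → E n) => xi ρ F q.1 q.2) (y, 0) := by
  have h := PK.hn_pzv (PK.hn_of_on isOpen_ball hF hy)
  have h1 : ∀ a, Hn (fun q : (E n × E n) × (Fin ρ → E n) => pz F (q.1.1, q.1.2 + q.2 a)) (y, 0) :=
    fun a => PK.hn_comp (f := pz F) (by simpa using h) (Eventually.of_forall fun q => by fun_prop)
  have h2 : Hn (fun q : (E n × E n) × (Fin ρ → E n) => pz F q.1) (y, 0) :=
    PK.hn_comp (f := pz F) h (Eventually.of_forall fun q => by fun_prop)
  refine ANB.analyticAt ?_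
  filter_upwards [eventually_all.2 h1, h2] with q a1 a2
  exact diff_pl fun a => (a1 a).fun_sub a2

theorem slice (hF : DifferentiableOn ℂ F (ball (dg c) R)) {y : E n × E n}
    (hy : y ∈ ball (dg c) R) : AnalyticAt ℂ (xi ρ F y) 0 :=
  (joint hF hy).comp_of_eq (f := fun t : Fin ρ → E n => (y, t))
    (analyticAt_const.prod analyticAt_id) rfl

theorem expand (t : Fin ρ → E n) : t = ∑ f : Fin ρ × Fin n, t f.1 f.2 • sl f := by
  funext a i
  simp only [sl, Finset.sum_apply, Pi.smul_apply, Fintype.sum_prod_type, Pi.single_apply,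
    smul_eq_mul]
  rw [Finset.sum_eq_single a (fun b _ hb => by simp [Ne.symm hb]) (by simp)]
  simp [Pi.single_apply]

theorem bt_iff (m : ℕ) (y : E n × E n) :
    bt ρ m F y = 0 ↔ iteratedFDeriv ℂ m (xi ρ F y) 0 = 0 := by
  refine ⟨fun h => ?_, fun h => ?_⟩
  · refine ContinuousMultilinearMap.ext fun v => ?_
    have e : v = fun a => ∑ f : Fin ρ × Fin n, v a f.1 f.2 • sl f := funext fun a => expand (v a)
    rw [e, ContinuousMultilinearMap.map_sum]
    refine Finset.sum_eq_zero fun g _ => ?_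
    rw [ContinuousMultilinearMap.map_smul_univ]
    have : iteratedFDeriv ℂ m (xi ρ F y) 0 (fun a => sl (g a)) = 0 :=
      funext fun K => congrFun (congrFun h g) K
    rw [this, smul_zero]
  · ext f K
    simp [bt, h]

end XI

open XI in
theorem st_XI (hS : St_SPN) : St_XI := by
  intro n ρ F c R hF
  have h2 : ∀ m f K, DifferentiableOn ℂ (fun y => bt ρ m F y f K) (ball (dg c) R) :=
    fun m f K y hy => (differentiableAt_pi.1 ((st_LO (E n × E n) (Fin ρ → E n) _ m).2.1 _ y 0
      (fun a => sl (f a)) (joint hF hy)).differentiableAt K).differentiableWithinAt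
  refine ⟨fun y hy => ⟨slice hF hy, joint hF hy⟩, h2, bt_iff, fun m z hz h y hy => ?_,
    fun z hz h => ?_, fun m z hz h => ?_⟩
  · ext f K
    exact PK.id2_ball (h2 m f K) (differentiableOn_const 0) hz
      (h.mono fun w hw => by rw [hw]; rfl) hy
  · by_contra h0
    push Not at h0
    have e := (st_LO (E n) (Fin ρ → E n) _ 0).2.2 _ 0 (slice hF (PK.dg_mem_ball.2 hz))
      fun k => (bt_iff k _).1 (h0 k)
    obtain ⟨ε, hε, hb⟩ := Metric.eventually_nhds_iff_ball.1 e
    have s := ((hS n).1 F c R hF).1 z hz (star z) (PK.star_mem_ball.2 hz) _ (ball_mem_nhds 0 hε)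
    obtain ⟨x, x1, -, x3⟩ := Submodule.exists_fun_fin_finrank_span_eq ℂ
      {w | ∃ t ∈ ball (0 : E n) ε, star z + t ∈ ball (star c) R ∧
        w = pz F (z, star z + t) - pz F (z, star z)}
    have le := h.trans (Submodule.finrank_mono s)
    choose t t1 t2 t3 using fun a : Fin ρ => x1 (Fin.castLE le a)
    refine pl_ne_zero_iff.2 (x3.comp _ (Fin.castLE_injective le)) ?_
    rw [← hb t ((mem_ball_zero_iff.2 ((pi_norm_lt_iff hε).2 fun a => mem_ball_zero_iff.1 (t1 a))))]
    exact congrArg pl (funext t3)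
  · by_contra h0
    push Not at h0
    have a : ∀ᶠ t : Fin ρ → E n in 𝓝 0, ∀ a, star z + t a ∈ ball (star c) R :=
      eventually_all.2 fun a => ContinuousAt.eventually_mem
        (f := fun t : Fin ρ → E n => star z + t a)
        (continuous_const.add (continuous_apply a)).continuousAt
        (isOpen_ball.mem_nhds (by simpa using PK.star_mem_ball.2 hz))
    have e : xi ρ F (dg z) =ᶠ[𝓝 0] fun _ => 0 := a.mono h0
    refine h ((bt_iff m _).2 ?_)
    rw [(e.iteratedFDeriv ℂ m).eq_of_nhds]
    simp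

end Pool.Agent.Lib.RAA
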