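import Pool.Agent.Lib.RY.Blue0
import Pool.Agent.Lib.RA.T_PK
import Pool.Agent.Lib.RAA.Tools
import Pool.Agent.Lib.MP_7fcda1_ag.Lin

/-! Project ra2, step A: objects and statements of the blocks. -/

open scoped Classical Topology ContDiff ComplexOrder Matrix Kronecker ENNReal
open Set MeasureTheory Complex Metric Filter Module

set_option linter.unusedVariables false

noncomputable section

namespace Pool.Agent.Lib.RAA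

open Pool.Agent.Lib.SV (E)
open Pool.Agent.Lib.HS32 Pool.Agent.Lib.RA
open Pool.Agent.Lib.MP_7fcda1_ag (pl)

/-! ### Objects in coordinates -/

section euc
variable {n r ρ m : ℕ}

/-- The span of the differences of the polarised gradients. -/
def Ee (F : E n × E n → ℂ) (c : E n) (R : ℝ) (z : E n) : Submodule ℂ (E n) :=
  Submodule.span ℂ
    {w | ∃ u ∈ ball (star c) R, ∃ u' ∈ ball (star c) R, w = pz F (z, u) - pz F (z, u')}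

/-- The exterior product of `ρ` differences. -/
def xi (ρ : ℕ) (F : E n × E n → ℂ) (y : E n × E n) (t : Fin ρ → E n) : (Fin ρ → Fin n) → ℂ :=
  pl fun a => pz F (y.1, y.2 + t a) - pz F y

/-- A basis vector. -/
def sl (f : Fin ρ × Fin n) : Fin ρ → E n := Pi.single f.1 (Pi.single f.2 1)

/-- The derivative of order `m` of the exterior product. -/
def bt (ρ m : ℕ) (F : E n × E n → ℂ) (y : E n × E n) :
    Matrix (Fin m → Fin ρ × Fin n) (Fin ρ → Fin n) ℂ :=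
  Matrix.of fun f K => iteratedFDeriv ℂ m (xi ρ F y) 0 (fun a => sl (f a)) K

/-- The derivatives of order less than `m` vanish. -/
def Low (ρ m : ℕ) (F : E n × E n → ℂ) (y : E n × E n) : Prop :=
  ∀ k < m, iteratedFDeriv ℂ k (xi ρ F y) 0 = 0

/-- The same matrix in `ρ` diagonal blocks. -/
def bk (ρ : ℕ) {ι κ : Type} (Y : Matrix ι κ ℂ) : Matrix (Fin ρ × ι) (Fin ρ × κ) ℂ :=
  (1 : Matrix (Fin ρ) (Fin ρ) ℂ) ⊗ₖ Y

/-- The squared norm of a tensor. -/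
def fl (ρ m : ℕ) {ι : Type} [Fintype ι] (Y : Matrix ι ι ℂ) (W : Mat n)
    (B : Matrix (Fin m → Fin ρ × ι) (Fin ρ → Fin n) ℂ) : ℝ :=
  (Bᴴ * kp m (bk ρ Y) * B * kp ρ W).trace.re

/-- The squared norm of a covariant tensor for the metric `T`. -/
def un (ρ : ℕ) (T : E n → Mat n) (s : E n → (Fin ρ → Fin n) → ℂ) (w : E n) : ℝ :=
  hq (kp ρ (T w)ᵀ⁻¹) (s w)

/-- The twist of the kernel. -/
def al (F : E n × E n → ℂ) (J : Fin r → Fin n) (w v : E n) : Mat r :=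
  Matrix.of fun i l => ∑ a, v a * pu (fun x => Gm F x (J l) a) (dg w) (J i)

/-- The principal block on the diagonal. -/
def hJ (F : E n × E n → ℂ) (J : Fin r → Fin n) (w : E n) : Mat r := (Gm F (dg w)).submatrix J J

/-- The point together with `r` components of the gradient. -/
def pJ (F : E n × E n → ℂ) (J : Fin r → Fin n) (w : E n) : E n × E r := (w, pz F (dg w) ∘ J)

/-- The local setting. -/
structure Loc (F : E n × E n → ℂ) (c : E n) (R : ℝ) (r ρ m : ℕ) : Prop where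
  hol : DifferentiableOn ℂ F (ball (dg c) R)
  real : ∀ z ∈ ball c R, (F (dg z)).im = 0
  psd : ∀ z ∈ ball c R, (Gm F (dg z)).PosSemidef
  rk : ∀ y ∈ ball (dg c) R, (Gm F y).rank ≤ r
  dim : ∀ z ∈ ball c R, finrank ℂ (Ee F c R z) ≤ ρ
  low : ∀ y ∈ ball (dg c) R, Low ρ m F y

/-- The normal form. -/
structure Nf (F : E n × E n → ℂ) (c : E n) (R : ℝ) (ρ m : ℕ) (z₀ : E n) (J : Fin r → Fin n)
    (B : E n × E r → Matrix (Fin m → Fin ρ × Fin r) (Fin ρ → Fin n) ℂ) : Prop where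
  an : ∀ f K, AnalyticAt ℂ (fun q => B q f K) (pJ F J z₀)
  eq : ∀ᶠ w in 𝓝 z₀, bt ρ m F (dg w) = kp m (bk ρ ((Gm F (dg w)).submatrix id J)) * B (pJ F J w)
  hyp : ∀ l : E r, l ≠ 0 → ∀ t : Fin m → Fin ρ × Fin r → ℂ, (∀ a b, ∑ i, l i * t a (b, i) = 0) →
    ∀ K, ∑ f, B (pJ F J z₀) f K * ∏ a, t a (f a) = 0
  line : ∀ᶠ w in 𝓝 z₀, ∀ x : Fin ρ → E n, (∀ a, x a ∈ Ee F c R w) → pl x ≠ 0 →
    ∀ f, ∃ μ : ℂ, B (pJ F J w) f = μ • pl x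

end euc

/-! ### Objects on the manifold -/

section mf
variable {n : ℕ} (M : Mf n)

/-- A polar ball. -/
structure Po (φ : M.Fam ℝ) (e : M.Ch) (c : E n) (R : ℝ) (F : E n × E n → ℂ) : Prop where
  mem : e ∈ M.C
  sub : ball c R ⊆ e.target
  plz : Plz (φ e) F c R

/-- The generic dimension of the span and the least order of the exterior product. -/
structure Od (φ : M.Fam ℝ) (ρ m : ℕ) : Prop where
  dim : ∀ e c R F, Po M φ e c R F → ∀ z ∈ ball c R, finrank ℂ (Ee F c R z) ≤ ρ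
  low : ∀ e c R F, Po M φ e c R F → ∀ y ∈ ball (dg c) R, Low ρ m F y
  ex : ∀ e c R F, Po M φ e c R F → 0 < R → ∃ z ∈ ball c R, bt ρ m F (dg z) ≠ 0

/-- The balls of a covering. -/
def bl (V : M.Cov) (a : Fin V.r) : Set (E n) := ball (V.c a) (4 * V.ρ a)

/-- The points at which one of the maps does not vanish. -/
def gd (V : M.Cov) {ι : Type} (σ : Fin V.r → E n → ι → ℂ) : Set M.X :=
  {x | ∃ a, x ∈ (V.e a).source ∧ V.e a x ∈ bl M V a ∧ σ a (V.e a x) ≠ 0}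

/-- Holomorphic maps on the balls, not identically zero. -/
structure An (V : M.Cov) {ι : Type} [Fintype ι] (σ : Fin V.r → E n → ι → ℂ) : Prop where
  hol : ∀ a, DifferentiableOn ℂ (σ a) (bl M V a)
  nz : ∀ a, ∃ z ∈ bl M V a, σ a z ≠ 0

/-- Local generators of a field of lines in the covariant tensors. -/
structure Ln (V : M.Cov) (ρ : ℕ) (σ : Fin V.r → E n → (Fin ρ → Fin n) → ℂ) : Prop
    extends An M V σ where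
  par : ∀ a b x, x ∈ (V.e a).source → x ∈ (V.e b).source → V.e a x ∈ bl M V a →
    V.e b x ∈ bl M V b → σ a (V.e a x) ≠ 0 →
    ∃ μ : ℂ, σ b (V.e b x) = μ • (σ a (V.e a x) ᵥ* kp ρ (M.J (V.e a) (V.e b) x))

/-- The generators come from the span. -/
structure Hl (φ : M.Fam ℝ) (V : M.Cov) (ρ : ℕ) (F : Fin V.r → E n × E n → ℂ)
    (σ : Fin V.r → E n → (Fin ρ → Fin n) → ℂ) : Prop extends Ln M V ρ σ where
  po : ∀ a, Po M φ (V.e a) (V.c a) (4 * V.ρ a) (F a)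
  mem : ∀ a, ∀ z ∈ bl M V a, ∃ x : Fin ρ → E n,
    (∀ i, x i ∈ Ee (F a) (V.c a) (4 * V.ρ a) z) ∧ σ a z = pl x

/-- A closed semi-positive form off the zeros, of finite mass. -/
structure QF (V : M.Cov) {ι : Type} (σ : Fin V.r → E n → ι → ℂ) (Q : M.Fam (Mat n)) : Prop where
  ten : TenOn M (gd M V σ) Q
  psd : ∀ x ∈ gd M V σ, At M x fun e z => (Q e z).PosSemidef ∧ ClM (Q e) z
  int : ∀ a L, IsCompact L → L ⊆ bl M V a → ∀ i j,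
    IntegrableOn (fun z => Q (V.e a) z i j) (L ∩ {z | σ a z ≠ 0})

/-- Minus the curvature of the field of lines for the metric `G`. -/
structure Cq (V : M.Cov) (ρ : ℕ) (σ : Fin V.r → E n → (Fin ρ → Fin n) → ℂ)
    (G q : M.Fam (Mat n)) : Prop where
  ten : TenOn M (gd M V σ) q
  eq : ∀ a, ∀ z ∈ bl M V a, σ a z ≠ 0 → q (V.e a) z = hl (un ρ (G (V.e a)) (σ a)) z

/-- The adjugate. -/
def aj (T : M.Fam (Mat n)) : M.Fam (Mat n) := fun e z => (T e z).adjugate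

/-- The squared norm of the tensor of order `m`. -/
structure Fn (G : M.Fam (Mat n)) (φ : M.Fam ℝ) (r ρ m : ℕ) (f : M.X → ℝ) : Prop where
  nn : ∀ x, 0 ≤ f x
  rep : ∀ e c R F, Po M φ e c R F → ∀ z ∈ ball c R, (M.hw φ e z).rank = r → ∀ Y : Mat n,
    M.hw φ e z * Y * M.hw φ e z = M.hw φ e z →
      f (e.symm z) = fl ρ m Y (G e z)⁻¹ (bt ρ m F (dg z))

/-- The Hessian of the logarithm. -/
def hg (f : M.X → ℝ) : M.Fam (Mat n) := M.hs fun x => Real.log (f x)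

end mf

/-! ### Coordinates -/

/-- The span is local; linear algebra. -/
def St_SPN : Prop := ∀ n : ℕ,
  (∀ (F : E n × E n → ℂ) (c : E n) (R : ℝ), DifferentiableOn ℂ F (ball (dg c) R) →
    (∀ z ∈ ball c R, ∀ u ∈ ball (star c) R, ∀ N ∈ 𝓝 (0 : E n), Ee F c R z ≤ Submodule.span ℂ
      {w | ∃ t ∈ N, u + t ∈ ball (star c) R ∧ w = pz F (z, u + t) - pz F (z, u)}) ∧
    ∀ r, (∀ z ∈ ball c R, finrank ℂ (Ee F c R z) ≤ r) → CK F c R r) ∧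
  (∀ (r : ℕ) (A : Mat n), A.IsHermitian → A.rank = r →
    ∃ J : Fin r → Fin n, (A.submatrix J J).det ≠ 0) ∧
  (∀ (ρ : ℕ) (x : Fin ρ → E n) (J : Mat n), pl (fun a => x a ᵥ* J) = pl x ᵥ* kp ρ J) ∧
  ∀ (ρ : ℕ) (W : Submodule ℂ (E n)) (x : Fin ρ → E n), (∀ a, x a ∈ W) → pl x ≠ 0 →
    ρ ≤ finrank ℂ W ∧ (finrank ℂ W ≤ ρ → ∀ x' : Fin ρ → E n, (∀ a, x' a ∈ W) →
      ∃ μ : ℂ, pl x' = μ • pl x)

/-- Analytic properties of the exterior product. -/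
def St_XI : Prop := ∀ (n ρ : ℕ) (F : E n × E n → ℂ) (c : E n) (R : ℝ),
  DifferentiableOn ℂ F (ball (dg c) R) →
  (∀ y ∈ ball (dg c) R, AnalyticAt ℂ (xi ρ F y) 0 ∧
    AnalyticAt ℂ (fun q : (E n × E n) × (Fin ρ → E n) => xi ρ F q.1 q.2) (y, 0)) ∧
  (∀ m f K, DifferentiableOn ℂ (fun y => bt ρ m F y f K) (ball (dg c) R)) ∧
  (∀ m y, bt ρ m F y = 0 ↔ iteratedFDeriv ℂ m (xi ρ F y) 0 = 0) ∧
  (∀ m, ∀ z ∈ ball c R, (∀ᶠ w in 𝓝 z, bt ρ m F (dg w) = 0) →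
    ∀ y ∈ ball (dg c) R, bt ρ m F y = 0) ∧
  (∀ z ∈ ball c R, ρ ≤ finrank ℂ (Ee F c R z) → ∃ m, bt ρ m F (dg z) ≠ 0) ∧
  ∀ m, ∀ z ∈ ball c R, bt ρ m F (dg z) ≠ 0 →
    ∃ t : Fin ρ → E n, (∀ a, star z + t a ∈ ball (star c) R) ∧ xi ρ F (dg z) t ≠ 0

/-- Change of coordinates for the differences of the gradients. -/
def St_PTE : Prop := ∀ (n : ℕ) (τ : E n → E n) (F F' : E n × E n → ℂ) (z : E n), HolN τ z →
  Hn F (dg (τ z)) → Hn F' (dg z) →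
  (∀ᶠ w in 𝓝 z, Gm F' (dg w) = (jm τ w)ᴴ * Gm F (dg (τ w)) * jm τ w) →
  ∃ θ : E n → E n, AnalyticAt ℂ θ 0 ∧ θ 0 = 0 ∧ (∀ t, fderiv ℂ θ 0 t = t ᵥ* (jm τ z)ᴴ) ∧
    ∀ᶠ t in 𝓝 (0 : E n), pz F' (z, star z + t) - pz F' (dg z) =
      (pz F (τ z, star (τ z) + θ t) - pz F (dg (τ z))) ᵥ* jm τ z

/-- The normal form exists. -/
def St_NF : Prop := ∀ (n r ρ m : ℕ) (F : E n × E n → ℂ) (c : E n) (R : ℝ) (z₀ : E n)
  (J : Fin r → Fin n), Loc F c R r ρ m → z₀ ∈ ball c R → (hJ F J z₀).det ≠ 0 →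
  ∃ B, Nf F c R ρ m z₀ J B

/-- The curvature of the normal metric along the kernel. -/
def St_RIC : Prop := ∀ (n r : ℕ) (F : E n × E n → ℂ) (z₀ v : E n) (J : Fin r → Fin n),
  Hn F (dg z₀) → (∀ᶠ z in 𝓝 z₀, (F (dg z)).im = 0) → (∀ᶠ y in 𝓝 (dg z₀), (Gm F y).rank ≤ r) →
  (hJ F J z₀).det ≠ 0 → Gm F (dg z₀) *ᵥ v = 0 →
  SmI (hJ F J) z₀ ∧ cv (hJ F J) v z₀ = al F J z₀ v * (hJ F J z₀)⁻¹ᵀ * (al F J z₀ v)ᴴ ∧
  ∀ b : E n × E r → ℂ, AnalyticAt ℂ b (pJ F J z₀) → ContDiffAt ℝ ∞ (fun w => b (pJ F J w)) z₀ ∧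
    dVb v (fun w => b (pJ F J w)) z₀ = 0 ∧ hV v (fun w => b (pJ F J w)) z₀ = 0

/-- The norm of covariant tensors and its curvature. -/
def St_A4 : Prop := ∀ n ρ : ℕ,
  (∀ (T : E n → Mat n) (s : E n → (Fin ρ → Fin n) → ℂ) (z : E n), SmM T z →
    (∀ᶠ w in 𝓝 z, (T w).PosDef) → HolN s z → ContDiffAt ℝ ∞ (un ρ T s) z ∧ 0 ≤ un ρ T s z ∧
    (un ρ T s z ≠ 0 ↔ s z ≠ 0) ∧
    (s z ≠ 0 → (∀ᶠ w in 𝓝 z, ClM T w) → (T z - hess (ld T) z).PosSemidef →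
      -(ρ * (T z).det.re) ≤ tp (T z).adjugate (hl (un ρ T s) z))) ∧
  ∀ (M : Mf n) [M.Cpt] (G : M.Fam (Mat n)), M.Met G →
    (∃ C : ℝ, 0 < C ∧ M.All fun e z => ∀ s : E n → (Fin ρ → Fin n) → ℂ, HolN s z → s z ≠ 0 →
      (C • G e z + hl (un ρ (G e) s) z).PosSemidef) ∧
    ∀ G', M.Met G' → ∃ C : ℝ, M.All fun e z => ∀ s : E n → (Fin ρ → Fin n) → ℂ, s z ≠ 0 →
      |Real.log (un ρ (G' e) s z) - Real.log (un ρ (G e) s z)| ≤ C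

/-- The key inequality along the kernel. -/
def St_KEY : Prop := ∀ (n r ρ m : ℕ) (F : E n × E n → ℂ) (c : E n) (R : ℝ) (z₀ : E n)
  (J : Fin r → Fin n) (B : E n × E r → Matrix (Fin m → Fin ρ × Fin r) (Fin ρ → Fin n) ℂ)
  (T : E n → Mat n) (s : E n → (Fin ρ → Fin n) → ℂ) (f : E n → ℝ), Loc F c R r ρ m →
  z₀ ∈ ball c R → (hJ F J z₀).det ≠ 0 → Nf F c R ρ m z₀ J B → SmM T z₀ →
  (∀ᶠ w in 𝓝 z₀, (T w).PosDef) → HolN s z₀ → s z₀ ≠ 0 →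
  (∀ᶠ w in 𝓝 z₀, ∃ x : Fin ρ → E n, (∀ a, x a ∈ Ee F c R w) ∧ s w = pl x) →
  (∀ᶠ w in 𝓝 z₀, f w = fl ρ m (hJ F J w) (T w)⁻¹ (B (pJ F J w))) → f z₀ ≠ 0 →
  (hl f z₀ - hl (un ρ T s) z₀).IsHermitian ∧ ∀ v, Gm F (dg z₀) *ᵥ v = 0 →
    0 ≤ nq (hl f z₀ - hl (un ρ T s) z₀) v ∧
    (nq (hl f z₀ - hl (un ρ T s) z₀) v = 0 → al F J z₀ v = 0)

/-- Without twist the kernel is holomorphic. -/
def St_KER : Prop := ∀ (n r : ℕ) (F : E n × E n → ℂ) (c : E n) (R : ℝ) (z₀ : E n)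
  (J : Fin r → Fin n), DifferentiableOn ℂ F (ball (dg c) R) →
  (∀ y ∈ ball (dg c) R, (Gm F y).rank ≤ r) → z₀ ∈ ball c R → (hJ F J z₀).det ≠ 0 →
  (∀ᶠ w in 𝓝 z₀, ∀ v, Gm F (dg w) *ᵥ v = 0 → al F J w v = 0) → finrank ℂ (Ee F c R z₀) ≤ r

/-- Algebra of the squared norm. -/
def St_FL : Prop := ∀ (n ρ m : ℕ) (ι κ : Type) [Fintype ι] [Fintype κ],
  (∀ (Y : Matrix ι ι ℂ) (P : Matrix ι κ ℂ) (W : Mat n)
    (B : Matrix (Fin m → Fin ρ × κ) (Fin ρ → Fin n) ℂ),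
    fl ρ m Y W (kp m (bk ρ P) * B) = fl ρ m (Pᴴ * Y * P) W B) ∧
  (∀ (Y : Matrix ι ι ℂ) (W J : Mat n) (B : Matrix (Fin m → Fin ρ × ι) (Fin ρ → Fin n) ℂ),
    fl ρ m Y W (B * kp ρ J) = fl ρ m Y (J * W * Jᴴ) B) ∧
  (∀ (Y : Matrix ι ι ℂ) (W : Mat n) (B : Matrix (Fin m → Fin ρ × ι) (Fin ρ → Fin n) ℂ),
    W.PosSemidef → Y.PosSemidef → 0 ≤ fl ρ m Y W B ∧
    (∀ (Y' : Matrix ι ι ℂ) (K : ℝ), 0 ≤ K → (K • Y' - Y).PosSemidef →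
      fl ρ m Y W B ≤ K ^ m * fl ρ m Y' W B) ∧
    (W.PosDef → Y.PosDef → fl ρ m Y W B = 0 → B = 0)) ∧
  (∀ (Y : Matrix ι ι ℂ) (W : Mat n) (b : (Fin m → Fin ρ × ι) → ℂ) (s : (Fin ρ → Fin n) → ℂ),
    Y.IsHermitian → W.IsHermitian →
    fl ρ m Y W (Matrix.vecMulVec b s) = hq (kp m (bk ρ Y)) b * hq (kp ρ Wᵀ) s) ∧
  ∀ (Y : E n → Matrix ι ι ℂ) (W : E n → Mat n)
    (B : E n → Matrix (Fin m → Fin ρ × ι) (Fin ρ → Fin n) ℂ) (z : E n), SmI Y z → SmM W z →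
    SmI B z → ContDiffAt ℝ ∞ (fun w => fl ρ m (Y w) (W w) (B w)) z

/-! ### The tensor and the line -/

/-- Change of polar ball. -/
def St_PT : Prop := ∀ (n : ℕ) (M : Mf n) (φ : M.Fam ℝ) (e e' : M.Ch) (c c' : E n) (R R' : ℝ)
  (F F' : E n × E n → ℂ) (x : M.X), WtP M φ → Po M φ e c R F → Po M φ e' c' R' F' →
  x ∈ e.source → x ∈ e'.source → e x ∈ ball c R → e' x ∈ ball c' R' →
  (∀ w ∈ Ee F' c' R' (e' x), ∃ w₀ ∈ Ee F c R (e x), w = w₀ ᵥ* M.J e e' x) ∧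
  ∀ ρ m, Low ρ m F (dg (e x)) → Low ρ m F' (dg (e' x)) ∧
    bt ρ m F' (dg (e' x)) = kp m (bk ρ (M.J e e' x)ᴴ) * bt ρ m F (dg (e x)) * kp ρ (M.J e e' x)

/-- The two integers, and the local setting. -/
def St_ORD : Prop := ∀ (n r : ℕ) (M : Mf n) [M.Cpt] (G : M.Fam (Mat n)) (φ : M.Fam ℝ),
  Su M G φ r → (∃ ρ m, Od M φ ρ m) ∧
  (∀ e ∈ M.C, ∀ z ∈ e.target, ∃ R F, 0 < R ∧ Po M φ e z R F) ∧
  ∀ e c R F, Po M φ e c R F → (∀ z ∈ ball c R, Gm F (dg z) = M.hw φ e z) ∧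
    ∀ ρ m, Od M φ ρ m → Loc F c R r ρ m

/-- The field of lines. -/
def St_LN : Prop := ∀ (n r ρ m : ℕ) (M : Mf n) [M.Cpt] (G : M.Fam (Mat n)) (φ : M.Fam ℝ),
  Su M G φ r → Od M φ ρ m → ∃ V F σ, Hl M φ V ρ F σ

/-- Comparison of two generators. -/
def St_LNT : Prop := ∀ (n ρ : ℕ) (M : Mf n) (V : M.Cov) (σ : Fin V.r → E n → (Fin ρ → Fin n) → ℂ)
  (a b : Fin V.r) (x : M.X), Ln M V ρ σ → x ∈ (V.e a).source → x ∈ (V.e b).source →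
  V.e a x ∈ bl M V a → V.e b x ∈ bl M V b → σ a (V.e a x) ≠ 0 → σ b (V.e b x) ≠ 0 →
  (∃ μ : E n → ℂ, HolN μ (V.e b x) ∧ μ (V.e b x) ≠ 0 ∧ ∀ᶠ w in 𝓝 (V.e b x), ∀ G, M.Met G →
    un ρ (G (V.e b)) (σ b) w =
      normSq (μ w) * un ρ (G (V.e a)) (σ a) (V.e a ((V.e b).symm w))) ∧
  ∀ G, M.Met G → hl (un ρ (G (V.e b)) (σ b)) (V.e b x) = (M.J (V.e a) (V.e b) x)ᴴ *
    hl (un ρ (G (V.e a)) (σ a)) (V.e a x) * M.J (V.e a) (V.e b) x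

/-- The curvature form of the field of lines. -/
def St_CQ : Prop := ∀ (n ρ : ℕ) (M : Mf n) [M.Cpt] (V : M.Cov)
  (σ : Fin V.r → E n → (Fin ρ → Fin n) → ℂ) (G : M.Fam (Mat n)), Ln M V ρ σ → M.Kae G →
  ∃ (q : M.Fam (Mat n)) (C : ℝ), 0 < C ∧ Cq M V ρ σ G q ∧ QF M V σ (C • G + q)

/-- Change of metric. -/
def St_PSI : Prop := ∀ (n ρ : ℕ) (M : Mf n) [M.Cpt] (V : M.Cov)
  (σ : Fin V.r → E n → (Fin ρ → Fin n) → ℂ) (G G' q q' : M.Fam (Mat n)), Ln M V ρ σ → M.Met G →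
  M.Met G' → Cq M V ρ σ G q → Cq M V ρ σ G' q' → ∃ (ψ : M.X → ℝ) (C : ℝ), ∀ x ∈ gd M V σ,
    SmAt M ψ x ∧ |ψ x| ≤ C ∧ EqAt M (M.hs ψ) (q' - q) x

/-- Integration in the charts of a covering. -/
def St_CHI : Prop := ∀ (n : ℕ) (M : Mf n) [M.Cpt] (G : M.Fam (Mat n)) (V : M.Cov), M.Met G →
  (∀ a, Tst (bl M V a) (closedBall (V.c a) (2 * V.ρ a)) fun z => V.χ a ((V.e a).symm z) ^ 2) ∧
  (∀ N : Set M.X, (∀ a, volume {z | z ∈ bl M V a ∧ (V.e a).symm z ∈ N} = 0) → M.mu G N = 0) ∧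
  ∀ (ι : Type) [Fintype ι] (σ : Fin V.r → E n → ι → ℂ), An M V σ →
    IsOpen (gd M V σ) ∧ M.mu G (gd M V σ)ᶜ = 0 ∧ Dense (gd M V σ) ∧
    (∀ a, volume (bl M V a ∩ {z | σ a z = 0}) = 0 ∧ ∀ z ∈ bl M V a,
      (∃ᶠ w in 𝓝 z, σ a w ≠ 0) ∧ (σ a z ≠ 0 → (V.e a).symm z ∈ gd M V σ)) ∧
    ∀ g : M.X → ℝ,
      ((∀ a, IntegrableOn (fun z => (G (V.e a) z).det.re * g ((V.e a).symm z))
        (closedBall (V.c a) (2 * V.ρ a) ∩ {z | σ a z ≠ 0})) → Integrable g (M.mu G)) ∧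
      (Integrable g (M.mu G) → ∫ x, g x ∂M.mu G = ∑ a, ∫ x, V.χ a x ^ 2 * g x ∂M.mu G ∧ ∀ a,
        Integrable (fun x => V.χ a x ^ 2 * g x) (M.mu G) ∧
        IntegrableOn (fun z => (G (V.e a) z).det.re * g ((V.e a).symm z)) (bl M V a)) ∧
      ∀ a, (∀ x, g x ≠ 0 → x ∈ (V.e a).source ∧ V.e a x ∈ bl M V a) → ∫ x, g x ∂M.mu G =
        ∫ z in bl M V a ∩ {z | σ a z ≠ 0}, (G (V.e a) z).det.re * g ((V.e a).symm z)

/-! ### The inequality of Aubin and Yau -/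

/-- The mixed density. -/
def St_MIX : Prop := ∀ (n : ℕ) (M : Mf n) (O : Set M.X) (T Q : M.Fam (Mat n)), IsOpen O →
  M.Kae T → TenOn M O Q → (∀ x ∈ O, At M x fun e z => (Q e z).PosSemidef ∧ ClM (Q e) z) →
  DenOn M O (fun e z => cf 1 (T e z) (Q e z)) ∧ ∀ x ∈ O, At M x fun e z =>
    SmM (fun w => cf 1 (T e w) (Q e w)) z ∧ Dvf (fun w => cf 1 (T e w) (Q e w)) z ∧
    (cf 1 (T e z) (Q e z)).PosSemidef ∧ SmM (aj M T e) z ∧ Dvf (aj M T e) z ∧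
    (aj M T e z).PosSemidef

/-- The mass is finite and the mixed density kills Hessians. -/
def St_A6m : Prop := ∀ (n : ℕ) (M : Mf n) [M.Cpt] (G T Q : M.Fam (Mat n)) (V : M.Cov) (ι : Type)
  [Fintype ι] (σ : Fin V.r → E n → ι → ℂ), M.Met G → M.Kae T → An M V σ → QF M V σ Q →
  Integrable (pa M G (aj M T) Q) (M.mu G) ∧ ∀ u, M.Sm u →
    Integrable (pa M G (fun e z => cf 1 (T e z) (Q e z)) (M.hs u)) (M.mu G) ∧
    ∫ x, pa M G (fun e z => cf 1 (T e z) (Q e z)) (M.hs u) x ∂M.mu G = 0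

/-- The mass depends only on the class. -/
def St_A6a : Prop := ∀ (n : ℕ) (M : Mf n) [M.Cpt] (G T Q : M.Fam (Mat n)) (V : M.Cov) (ι : Type)
  [Fintype ι] (σ : Fin V.r → E n → ι → ℂ) (u : M.X → ℝ), M.Met G → M.Kae T → An M V σ →
  QF M V σ Q → M.Sm u → M.Kae (T + M.hs u) →
  ∫ x, pa M G (aj M (T + M.hs u)) Q x ∂M.mu G = ∫ x, pa M G (aj M T) Q x ∂M.mu G

/-- A bounded potential has no mass. -/
def St_A6b : Prop := ∀ (n : ℕ) (M : Mf n) [M.Cpt] (G T : M.Fam (Mat n)) (V : M.Cov) (ι : Type)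
  [Fintype ι] (σ : Fin V.r → E n → ι → ℂ) (ψ : M.X → ℝ) (C : ℝ), M.Met G → M.Kae T → An M V σ →
  (∀ x ∈ gd M V σ, SmAt M ψ x ∧ |ψ x| ≤ C) → Integrable (pa M G (aj M T) (M.hs ψ)) (M.mu G) →
  ∫ x, pa M G (aj M T) (M.hs ψ) x ∂M.mu G = 0

/-- The inequality for one metric with Ricci curvature bounded below. -/
def St_A6r : Prop := ∀ (n ρ : ℕ) (M : Mf n) [M.Cpt] (G T q : M.Fam (Mat n)) (V : M.Cov)
  (σ : Fin V.r → E n → (Fin ρ → Fin n) → ℂ) (C : ℝ), M.Kae G → M.Kae T → M.Le 0 (T + M.ric T) →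
  Ln M V ρ σ → Cq M V ρ σ G q → QF M V σ (C • G + q) →
  C * ∫ x, pa M G (aj M T) G x ∂M.mu G - ρ * ∫ x, M.dq G T x ∂M.mu G ≤
    ∫ x, pa M G (aj M T) (C • G + q) x ∂M.mu G

/-- The inequality for the classes `η + ε G`. -/
def St_A6c : Prop := ∀ (n ρ : ℕ) (M : Mf n) [M.Cpt] (G q : M.Fam (Mat n)) (φ : M.Fam ℝ)
  (V : M.Cov) (σ : Fin V.r → E n → (Fin ρ → Fin n) → ℂ) (C ε : ℝ), 0 < n → M.Kae G → WtP M φ →
  M.Le 0 (M.hw φ) → Ln M V ρ σ → Cq M V ρ σ G q → QF M V σ (C • G + q) → 0 < ε →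
  M.Kae (M.hw φ + ε • G) ∧
  C * ∫ x, pa M G (aj M (M.hw φ + ε • G)) G x ∂M.mu G -
    ρ * ∫ x, M.dq G (M.hw φ + ε • G) x ∂M.mu G ≤
    ∫ x, pa M G (aj M (M.hw φ + ε • G)) (C • G + q) x ∂M.mu G

/-- The limit. -/
def St_A6d : Prop := ∀ (n r ρ : ℕ) (M : Mf n) [M.Cpt] (G q : M.Fam (Mat n)) (φ : M.Fam ℝ)
  (V : M.Cov) (σ : Fin V.r → E n → (Fin ρ → Fin n) → ℂ) (C : ℝ), r < n → Su M G φ r → 0 < C →
  Ln M V ρ σ → Cq M V ρ σ G q → QF M V σ (C • G + q) →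
  Integrable (pa M G (tA M r G (M.hw φ)) (C • G + q)) (M.mu G) ∧
  (∀ x ∈ gd M V σ, 0 ≤ pa M G (tA M r G (M.hw φ)) (C • G + q) x ∧
    (x ∉ X0 M (M.hw φ) r → pa M G (tA M r G (M.hw φ)) (C • G + q) x = 0)) ∧
  C * ∫ x, pa M G (tA M r G (M.hw φ)) G x ∂M.mu G ≤
    ∫ x, pa M G (tA M r G (M.hw φ)) (C • G + q) x ∂M.mu G

/-! ### The function -/

/-- Existence. -/
def St_FG : Prop := ∀ (n r ρ m : ℕ) (M : Mf n) (G : M.Fam (Mat n)) (φ : M.Fam ℝ) [M.Cpt],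
  Su M G φ r → Od M φ ρ m → ∃ f, Fn M G φ r ρ m f

/-- The function in the normal form; smoothness; zeros. -/
def St_FB1 : Prop := ∀ (n r ρ m : ℕ) (M : Mf n) (G : M.Fam (Mat n)) (φ : M.Fam ℝ) (f : M.X → ℝ)
  [M.Cpt], Su M G φ r → Od M φ ρ m → Fn M G φ r ρ m f →
  (∀ e c R F, Po M φ e c R F → ∀ z₀ ∈ ball c R,
    (∀ (J : Fin r → Fin n) B, (hJ F J z₀).det ≠ 0 → Nf F c R ρ m z₀ J B →
      ∀ᶠ w in 𝓝 z₀, f (e.symm w) = fl ρ m (hJ F J w) (G e w)⁻¹ (B (pJ F J w))) ∧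
    ((M.hw φ e z₀).rank = r → f (e.symm z₀) = 0 → bt ρ m F (dg z₀) = 0)) ∧
  (∀ x ∈ X0 M (M.hw φ) r, SmAt M f x) ∧
  ∀ᵐ x ∂M.mu G, x ∈ X0 M (M.hw φ) r ∧ f x ≠ 0

/-- The bound. -/
def St_FB2 : Prop := ∀ (n r ρ m : ℕ) (M : Mf n) (G : M.Fam (Mat n)) (φ : M.Fam ℝ) (f : M.X → ℝ)
  [M.Cpt], Su M G φ r → Od M φ ρ m → Fn M G φ r ρ m f →
  ∃ C : ℝ, ∀ x ∈ X0 M (M.hw φ) r, f x * tD M r G (M.hw φ) x ^ m ≤ C

/-- The key inequality on the manifold. -/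
def St_POS : Prop := ∀ (n r ρ m : ℕ) (M : Mf n) [M.Cpt] (G q : M.Fam (Mat n)) (φ : M.Fam ℝ)
  (f : M.X → ℝ) (V : M.Cov) (F : Fin V.r → E n × E n → ℂ)
  (σ : Fin V.r → E n → (Fin ρ → Fin n) → ℂ), Su M G φ r → Od M φ ρ m → Fn M G φ r ρ m f →
  Hl M φ V ρ F σ → Cq M V ρ σ G q → ∀ a, ∀ z ∈ bl M V a, σ a z ≠ 0 →
  (V.e a).symm z ∈ X0 M (M.hw φ) r → f ((V.e a).symm z) ≠ 0 →
  0 ≤ pa M G (tA M r G (M.hw φ)) (hg M f - q) ((V.e a).symm z) ∧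
  (pa M G (tA M r G (M.hw φ)) (hg M f - q) ((V.e a).symm z) = 0 →
    ∀ J : Fin r → Fin n, (hJ (F a) J z).det ≠ 0 → ∀ v, Gm (F a) (dg z) *ᵥ v = 0 →
      al (F a) J z v = 0)

/-- Integration by parts on the set of maximal rank. -/
def St_A5a : Prop := ∀ (n r : ℕ) (M : Mf n) [M.Cpt] (G : M.Fam (Mat n)) (φ : M.Fam ℝ)
  (w : M.X → ℝ) (C C₁ : ℝ), Su M G φ r → 0 ≤ C →
  (∀ x ∈ X0 M (M.hw φ) r, SmAt M w x ∧ |w x| ≤ C₁ * (1 + |Real.log (tD M r G (M.hw φ) x)|)) →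
  (∀ᵐ x ∂M.mu G, 0 ≤ pa M G (tA M r G (M.hw φ)) (M.hs w + C • G) x) →
  ∫⁻ x, ENNReal.ofReal (pa M G (tA M r G (M.hw φ)) (M.hs w + C • G) x) ∂M.mu G ≤
    ENNReal.ofReal (C * ∫ x, pa M G (tA M r G (M.hw φ)) G x ∂M.mu G)

/-- The same for the logarithm. -/
def St_A5b : Prop := ∀ (n r m : ℕ) (M : Mf n) [M.Cpt] (G : M.Fam (Mat n)) (φ : M.Fam ℝ)
  (f : M.X → ℝ) (C C₀ : ℝ), Su M G φ r → 0 ≤ C → (∀ x, 0 ≤ f x) →
  (∀ x ∈ X0 M (M.hw φ) r, SmAt M f x ∧ f x * tD M r G (M.hw φ) x ^ m ≤ C₀) →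
  (∀ᵐ x ∂M.mu G, f x ≠ 0 ∧ 0 ≤ pa M G (tA M r G (M.hw φ)) (hg M f + C • G) x) →
  ∫⁻ x, ENNReal.ofReal (pa M G (tA M r G (M.hw φ)) (hg M f + C • G) x) ∂M.mu G ≤
    ENNReal.ofReal (C * ∫ x, pa M G (tA M r G (M.hw φ)) G x ∂M.mu G)

/-- Equality in the key inequality. -/
def St_EQ : Prop := ∀ (n r ρ m : ℕ) (M : Mf n) [M.Cpt] (G q : M.Fam (Mat n)) (φ : M.Fam ℝ)
  (f : M.X → ℝ) (V : M.Cov) (F : Fin V.r → E n × E n → ℂ)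
  (σ : Fin V.r → E n → (Fin ρ → Fin n) → ℂ) (C : ℝ), r < n → Su M G φ r → Od M φ ρ m →
  Fn M G φ r ρ m f → Hl M φ V ρ F σ → 0 < C → Cq M V ρ σ G q → QF M V σ (C • G + q) →
  ∀ x ∈ gd M V σ, x ∈ X0 M (M.hw φ) r → f x ≠ 0 →
    pa M G (tA M r G (M.hw φ)) (hg M f - q) x = 0

end Pool.Agent.Lib.RAA
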